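import Pool.Agent.H970.DD.LpA

/-! # Lipschitz bound and differentiability in `L^p` -/

set_option autoImplicit false

open MeasureTheory ProbabilityTheory Set Filter
open scoped ENNReal NNReal Topology

namespace Pool.Agent.H970.DD

open Pool.Agent.R876.WM

variable {Ω : Type} [NormedAddCommGroup Ω] [NormedSpace ℝ Ω] [MeasurableSpace Ω]
variable {μ : Measure Ω} {A : Ω →L[ℝ] Ω}

theorem fact_nat {p : ℕ} (hp : 1 ≤ p) : Fact ((1 : ℝ≥0∞) ≤ (p : ℝ≥0∞)) :=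
  ⟨by exact_mod_cast hp⟩

/-- powers of `J` and potentials -/
theorem J_pot {p : ℝ≥0∞} [Fact (1 ≤ p)] {T : ℝ → Lp ℝ p μ →L[ℝ] Lp ℝ p μ}
    {J : Lp ℝ p μ →L[ℝ] Lp ℝ p μ} (hC : Ctx μ A) (hO : OUL μ ℝ p T J) (hp : p ≠ ∞) (m : ℕ)
    {U : Ω → ℝ} (hU : MemLp U p μ) :
    (((J ^ m) (hU.toLp U) : Lp ℝ p μ) : Ω → ℝ) =ᵐ[μ] pot μ (2 * m) U :=
  (hO.pot_ae m _).trans ((hC.pot p Fact.out hp).1 _ _ _ hU.coeFn_toLp)

theorem pot_add (hC : Ctx μ A) {p : ℝ≥0∞} [Fact (1 ≤ p)] (hp : p ≠ ∞) (a b : ℕ)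
    {U : Ω → ℝ} (hU : MemLp U p μ) :
    pot μ (2 * (a + b)) U =ᵐ[μ] pot μ (2 * a) (pot μ (2 * b) U) := by
  obtain ⟨T, J, hO⟩ := hC.oul p hp
  have h1 := J_pot hC hO hp (a + b) hU
  have h2 := J_pot hC hO hp b hU
  have h3 := hO.pot_ae a ((J ^ b) (hU.toLp U))
  have h4 := (hC.pot p Fact.out hp).1 (2 * a) _ _ h2
  have h5 : (J ^ (a + b)) (hU.toLp U) = (J ^ a) ((J ^ b) (hU.toLp U)) := by
    rw [pow_add, mul_apply_eq_comp]
  rw [h5] at h1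
  exact h1.symm.trans (h3.trans h4)

theorem pot_sub (hC : Ctx μ A) {p : ℝ≥0∞} [Fact (1 ≤ p)] (hp : p ≠ ∞) (a : ℕ)
    {U V : Ω → ℝ} (hU : MemLp U p μ) (hV : MemLp V p μ) :
    pot μ (2 * a) (fun x => U x - V x) =ᵐ[μ] fun x => pot μ (2 * a) U x - pot μ (2 * a) V x := by
  obtain ⟨T, J, hO⟩ := hC.oul p hp
  have h1 := J_pot hC hO hp a hU
  have h2 := J_pot hC hO hp a hV
  have h3 := J_pot hC hO hp a (hU.sub hV)
  have h4 : (J ^ a) ((hU.sub hV).toLp (U - V)) = (J ^ a) (hU.toLp U) - (J ^ a) (hV.toLp V) := by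
    rw [MemLp.toLp_sub, map_sub]
  rw [h4] at h3
  refine h3.symm.trans ?_
  filter_upwards [Lp.coeFn_sub ((J ^ a) (hU.toLp U)) ((J ^ a) (hV.toLp V)), h1, h2] with x e1 e2 e3
  rw [e1, Pi.sub_apply, e2, e3]

theorem pot_smul (c : ℝ) (r : ℕ) (f : Ω → ℝ) :
    pot μ r (fun x => c * f x) = fun x => c * pot μ r f x := by
  unfold pot
  split_ifs with h
  · rfl
  · funext x
    unfold bes
    rw [← integral_const_mul]
    congr 1
    funext t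
    unfold ou
    rw [smul_eq_mul, smul_eq_mul, integral_const_mul]
    ring

section

variable [BorelSpace Ω]

/-- the potentials commute with the differences -/
theorem pot_Dd (hC : Ctx μ A) {p : ℝ≥0∞} [Fact (1 ≤ p)] (hp : p ≠ ∞) (a : ℕ) (θ : ℝ)
    {U : Ω → ℝ} (hU : MemLp U p μ) :
    pot μ (2 * a) (Dd A θ U) =ᵐ[μ] Dd A θ (pot μ (2 * a) U) := by
  have h1 := pot_sub hC hp a (hU.comp_measurePreserving (hC.rot.mp θ)) hU
  have h2 := pot_comp hC.rot (hC.pot p Fact.out hp).1 hU.1 (2 * a) θ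
  refine h1.trans ?_
  filter_upwards [h2] with x e2
  unfold Dd
  rw [← e2]
  rfl

/-- (D): Lipschitz bound in `L^p` -/
theorem partD [SecondCountableTopology Ω] (hC : Ctx μ A) (p : ℕ) (hp : 2 ≤ p) :
    ∃ (m : ℕ) (D : ℝ), 0 ≤ D ∧ ∀ f U : Ω → ℝ, MemLp U ((2 * p : ℕ) : ℝ≥0∞) μ →
      f =ᵐ[μ] pot μ (2 * m) U → ∀ θ : ℝ,
      eLpNorm (Dd A θ f) (p : ℝ≥0∞) μ ≤
        ENNReal.ofReal (D * |θ|) * eLpNorm U ((2 * p : ℕ) : ℝ≥0∞) μ := by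
  have := hC.prob
  have hF := fact_nat (show 1 ≤ p by omega)
  have hF2 := fact_nat (show 1 ≤ 2 * p by omega)
  have hpq : (p : ℝ≥0∞) ≤ ((2 * p : ℕ) : ℝ≥0∞) := by exact_mod_cast (by omega : p ≤ 2 * p)
  have hqt : ((2 * p : ℕ) : ℝ≥0∞) ≠ ∞ := ENNReal.natCast_ne_top _
  obtain ⟨D, hD, hd⟩ := partC hC p hp
  obtain ⟨B, hB, hb⟩ := marchaud (Cop_grp (p := (p : ℝ≥0∞)) hC.rot) (2 * (p - 1)) (by omega)
  refine ⟨2 * (2 * (p - 1)), B * (D + 1) + 2, by positivity, fun f U hU hf θ => ?_⟩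
  set u := eLpNorm U ((2 * p : ℕ) : ℝ≥0∞) μ with hu
  have hut : u ≠ ∞ := hU.2.ne
  obtain ⟨hfm', hfn⟩ := (hC.pot _ hF2.out hqt).2.1 (2 * (2 * (2 * (p - 1)))) U hU
  have hfm : MemLp f ((2 * p : ℕ) : ℝ≥0∞) μ := (memLp_congr_ae hf).2 hfm'
  have hfmp : MemLp f (p : ℝ≥0∞) μ := hfm.mono_exponent hpq
  have hfn' : eLpNorm f (p : ℝ≥0∞) μ ≤ u := by
    refine (eLpNorm_le_eLpNorm_of_exponent_le hpq hfm.1).trans ?_
    rw [eLpNorm_congr_ae hf]; exact hfn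
  set F : Lp ℝ (p : ℝ≥0∞) μ := hfmp.toLp f with hFdef
  have hFn : ‖F‖ ≤ u.toReal := by
    rw [hFdef, Lp.norm_toLp]
    exact ENNReal.toReal_mono hut hfn'
  have hu0 : 0 ≤ u.toReal := ENNReal.toReal_nonneg
  -- bound for `0 < θ ≤ 1`
  have h1 : ∀ θ : ℝ, 0 < θ → θ ≤ 1 → ‖Sd (Cop hC.rot (p : ℝ≥0∞)) θ F‖ ≤
      B * ((D + 1) * u.toReal) * θ := by
    refine hb F ((D + 1) * u.toReal) ?_ ?_
    · refine hFn.trans (le_mul_of_one_le_left hu0 (by linarith))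
    · intro θ hθ0 hθ1
      have h2 := hd f U hU hf θ hθ0 hθ1
      rw [← norm_SdK hC.rot θ _ hfmp] at h2
      have h3 := ENNReal.toReal_mono (ENNReal.mul_ne_top ENNReal.ofReal_ne_top hut) h2
      rw [ENNReal.toReal_mul, ENNReal.toReal_ofReal (norm_nonneg _),
        ENNReal.toReal_ofReal (by positivity)] at h3
      refine h3.trans ?_
      have h4 : θ ≤ √θ := by
        apply Real.le_sqrt_of_sq_le
        nlinarith
      calc D * θ ^ 2 * u.toReal = D * u.toReal * (θ * θ) := by ring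
        _ ≤ (D + 1) * u.toReal * (θ * √θ) := by
          gcongr
          linarith
  -- all `θ > 0`
  have h2 : ∀ θ : ℝ, 0 < θ → ‖Sd (Cop hC.rot (p : ℝ≥0∞)) θ F‖ ≤
      (B * (D + 1) + 2) * θ * u.toReal := by
    intro θ hθ
    rcases le_or_gt θ 1 with h | h
    · refine (h1 θ hθ h).trans ?_
      have : B * ((D + 1) * u.toReal) * θ = B * (D + 1) * θ * u.toReal := by ring
      rw [this]
      gcongr
      linarith
    · calc _ ≤ ‖Sd (Cop hC.rot (p : ℝ≥0∞)) θ‖ * ‖F‖ := ContinuousLinearMap.le_opNorm _ _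
        _ ≤ 2 * u.toReal := by
          gcongr
          exact Sd_norm_le (Cop_grp hC.rot) _
        _ ≤ (B * (D + 1) + 2) * θ * u.toReal := by
          gcongr
          have : 0 ≤ B * (D + 1) := by positivity
          nlinarith
  have h3 : ∀ θ : ℝ, ‖Sd (Cop hC.rot (p : ℝ≥0∞)) θ F‖ ≤
      (B * (D + 1) + 2) * |θ| * u.toReal := by
    intro θ
    rcases lt_trichotomy θ 0 with h | h | h
    · have e1 : Sd (Cop hC.rot (p : ℝ≥0∞)) θ F =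
          - Cop hC.rot (p : ℝ≥0∞) θ (Sd (Cop hC.rot (p : ℝ≥0∞)) (-θ) F) := by
        rw [Sd_apply, Sd_apply, map_sub, ← Cop_add, add_neg_cancel, Cop_zero]
        abel
      rw [e1, norm_neg, Cop_norm, abs_of_neg h]
      exact h2 (-θ) (by linarith)
    · rw [h, Sd_apply, Cop_zero, sub_self, norm_zero]
      positivity
    · rw [abs_of_pos h]
      exact h2 θ h
  have h4 := norm_SdK hC.rot θ 1 hfmp
  rw [pow_one, Function.iterate_one] at h4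
  rw [← h4]
  refine (ENNReal.ofReal_le_ofReal (h3 θ)).trans ?_
  rw [ENNReal.ofReal_mul (by positivity), ENNReal.ofReal_toReal hut]

/-- (E): bilinear bound -/
theorem partE [SecondCountableTopology Ω] (hC : Ctx μ A) (p : ℕ) (hp : 2 ≤ p) :
    ∃ (m : ℕ) (D : ℝ), 0 ≤ D ∧ ∀ f U : Ω → ℝ, MemLp U ((2 * (2 * p) : ℕ) : ℝ≥0∞) μ →
      f =ᵐ[μ] pot μ (2 * m) U →
      (∀ t : ℝ, eLpNorm (Dd A t f) (p : ℝ≥0∞) μ ≤
        ENNReal.ofReal (D * |t|) * eLpNorm U ((2 * (2 * p) : ℕ) : ℝ≥0∞) μ) ∧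
      ∀ s t : ℝ, eLpNorm (Dd A s (Dd A t f)) (p : ℝ≥0∞) μ ≤
        ENNReal.ofReal (D * |s| * |t|) * eLpNorm U ((2 * (2 * p) : ℕ) : ℝ≥0∞) μ := by
  have := hC.prob
  have hF := fact_nat (show 1 ≤ p by omega)
  have hF2 := fact_nat (show 1 ≤ 2 * p by omega)
  have hF4 := fact_nat (show 1 ≤ 2 * (2 * p) by omega)
  obtain ⟨m1, D1, hD1, h1⟩ := partD hC p hp
  obtain ⟨m2, D2, hD2, h2⟩ := partD hC (2 * p) (by omega)
  have hpq : ((2 * p : ℕ) : ℝ≥0∞) ≤ ((2 * (2 * p) : ℕ) : ℝ≥0∞) := by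
    exact_mod_cast (by omega : 2 * p ≤ 2 * (2 * p))
  have h4t : ((2 * (2 * p) : ℕ) : ℝ≥0∞) ≠ ∞ := ENNReal.natCast_ne_top _
  have h2t : ((2 * p : ℕ) : ℝ≥0∞) ≠ ∞ := ENNReal.natCast_ne_top _
  refine ⟨m1 + m2, D1 * D2 + D1, by positivity, fun f U hU hf => ?_⟩
  set g := pot μ (2 * m2) U with hg
  obtain ⟨hgm, hgn⟩ := (hC.pot _ hF4.out h4t).2.1 (2 * m2) U hU
  have hfg : f =ᵐ[μ] pot μ (2 * m1) g := hf.trans (pot_add hC h4t m1 m2 hU)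
  have hgm2 : MemLp g ((2 * p : ℕ) : ℝ≥0∞) μ := hgm.mono_exponent hpq
  refine ⟨fun t => ?_, fun s t => ?_⟩
  · refine (h1 f g hgm2 hfg t).trans ?_
    refine mul_le_mul' (ENNReal.ofReal_le_ofReal ?_) ?_
    · gcongr
      have : 0 ≤ D1 * D2 := by positivity
      linarith
    · exact (eLpNorm_le_eLpNorm_of_exponent_le hpq hgm.1).trans hgn
  · have hDg : MemLp (Dd A t g) ((2 * p : ℕ) : ℝ≥0∞) μ := Dd_memLp hC.rot t hgm2
    have h3 : Dd A t f =ᵐ[μ] pot μ (2 * m1) (Dd A t g) :=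
      (Dd_congr hC.rot t hfg).trans (pot_Dd hC h2t m1 t hgm2).symm
    refine (h1 (Dd A t f) (Dd A t g) hDg h3 s).trans ?_
    have h4 := h2 g U hU EventuallyEq.rfl t
    calc _ ≤ ENNReal.ofReal (D1 * |s|) * (ENNReal.ofReal (D2 * |t|) *
          eLpNorm U ((2 * (2 * p) : ℕ) : ℝ≥0∞) μ) := mul_le_mul' le_rfl h4
      _ = ENNReal.ofReal (D1 * |s| * (D2 * |t|)) * eLpNorm U ((2 * (2 * p) : ℕ) : ℝ≥0∞) μ := by
          rw [← mul_assoc, ← ENNReal.ofReal_mul (by positivity)]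
      _ ≤ _ := by
          refine mul_le_mul' (ENNReal.ofReal_le_ofReal ?_) le_rfl
          have : D1 * |s| * (D2 * |t|) = D1 * D2 * |s| * |t| := by ring
          rw [this]
          gcongr
          linarith

/-- the derivative in `L^p` along the rotation -/
def DerLp (μ : Measure Ω) (A : Ω →L[ℝ] Ω) (p : ℝ≥0∞) (f g : Ω → ℝ) : Prop :=
  Tendsto (fun t : ℝ => eLpNorm (fun x => t⁻¹ * Dd A t f x - g x) p μ) (𝓝[≠] 0) (𝓝 0)

/-- (F): differentiability in `L^p` -/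
theorem partF [SecondCountableTopology Ω] (hC : Ctx μ A) (p : ℕ) (hp : 2 ≤ p) :
    ∃ (m : ℕ) (D : ℝ), 0 ≤ D ∧ ∀ f U : Ω → ℝ, MemLp U ((2 * (2 * p) : ℕ) : ℝ≥0∞) μ →
      f =ᵐ[μ] pot μ (2 * m) U → ∃ g : Ω → ℝ, MemLp g (p : ℝ≥0∞) μ ∧ DerLp μ A (p : ℝ≥0∞) f g ∧
        eLpNorm g (p : ℝ≥0∞) μ ≤
          ENNReal.ofReal D * eLpNorm U ((2 * (2 * p) : ℕ) : ℝ≥0∞) μ := by
  have := hC.prob
  have hF := fact_nat (show 1 ≤ p by omega)
  have hF4 := fact_nat (show 1 ≤ 2 * (2 * p) by omega)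
  obtain ⟨m, D, hD, h1⟩ := partE hC p hp
  have hpq : (p : ℝ≥0∞) ≤ ((2 * (2 * p) : ℕ) : ℝ≥0∞) := by
    exact_mod_cast (by omega : p ≤ 2 * (2 * p))
  have h4t : ((2 * (2 * p) : ℕ) : ℝ≥0∞) ≠ ∞ := ENNReal.natCast_ne_top _
  refine ⟨m, D, hD, fun f U hU hf => ?_⟩
  obtain ⟨h2, h3⟩ := h1 f U hU hf
  set u := eLpNorm U ((2 * (2 * p) : ℕ) : ℝ≥0∞) μ with hu
  have hut : u ≠ ∞ := hU.2.ne
  obtain ⟨hfm', hfn⟩ := (hC.pot _ hF4.out h4t).2.1 (2 * m) U hU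
  have hfm : MemLp f (p : ℝ≥0∞) μ := ((memLp_congr_ae hf).2 hfm').mono_exponent hpq
  set F : Lp ℝ (p : ℝ≥0∞) μ := hfm.toLp f with hFdef
  have hu0 : 0 ≤ u.toReal := ENNReal.toReal_nonneg
  have e1 : ∀ t : ℝ, (Sd (Cop hC.rot (p : ℝ≥0∞)) t F : Ω → ℝ) =ᵐ[μ] Dd A t f := fun t =>
    (Sd_ae hC.rot t F).trans (Dd_congr hC.rot t hfm.coeFn_toLp)
  have e2 : ∀ s t : ℝ, (Sd (Cop hC.rot (p : ℝ≥0∞)) s (Sd (Cop hC.rot (p : ℝ≥0∞)) t F) : Ω → ℝ)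
      =ᵐ[μ] Dd A s (Dd A t f) := fun s t =>
    (Sd_ae hC.rot s _).trans (Dd_congr hC.rot s (e1 t))
  have n1 : ∀ t : ℝ, ‖Sd (Cop hC.rot (p : ℝ≥0∞)) t F‖ ≤ (D * u.toReal) * |t| := by
    intro t
    rw [Lp.norm_def, eLpNorm_congr_ae (e1 t)]
    have := ENNReal.toReal_mono (ENNReal.mul_ne_top ENNReal.ofReal_ne_top hut) (h2 t)
    rw [ENNReal.toReal_mul, ENNReal.toReal_ofReal (by positivity)] at this
    linarith
  have n2 : ∀ s t : ℝ, ‖Sd (Cop hC.rot (p : ℝ≥0∞)) s (Sd (Cop hC.rot (p : ℝ≥0∞)) t F)‖ ≤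
      (D * u.toReal) * |s| * |t| := by
    intro s t
    rw [Lp.norm_def, eLpNorm_congr_ae (e2 s t)]
    have := ENNReal.toReal_mono (ENNReal.mul_ne_top ENNReal.ofReal_ne_top hut) (h3 s t)
    rw [ENNReal.toReal_mul, ENNReal.toReal_ofReal (by positivity)] at this
    linarith
  obtain ⟨G, hG⟩ := exists_deriv (Cop_grp (p := (p : ℝ≥0∞)) hC.rot) (f := F)
    (D := D * u.toReal) (by positivity) n1 n2
  refine ⟨G, Lp.memLp G, ?_, ?_⟩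
  · have h5 := tendsto_iff_norm_sub_tendsto_zero.1 hG
    have h6 : ∀ t : ℝ, ENNReal.ofReal ‖t⁻¹ • Sd (Cop hC.rot (p : ℝ≥0∞)) t F - G‖ =
        eLpNorm (fun x => t⁻¹ * Dd A t f x - G x) (p : ℝ≥0∞) μ := by
      intro t
      rw [Lp.norm_def, ENNReal.ofReal_toReal (Lp.eLpNorm_ne_top _)]
      refine eLpNorm_congr_ae ?_
      filter_upwards [Lp.coeFn_sub (t⁻¹ • Sd (Cop hC.rot (p : ℝ≥0∞)) t F) G,
        Lp.coeFn_smul t⁻¹ (Sd (Cop hC.rot (p : ℝ≥0∞)) t F), e1 t] with x a1 a2 a3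
      rw [a1, Pi.sub_apply, a2, Pi.smul_apply, a3, smul_eq_mul]
    unfold DerLp
    simp_rw [← h6]
    have := ENNReal.tendsto_ofReal h5
    rwa [ENNReal.ofReal_zero] at this
  · have h5 : ‖G‖ ≤ D * u.toReal := by
      have h7 : Tendsto (fun t : ℝ => ‖t⁻¹ • Sd (Cop hC.rot (p : ℝ≥0∞)) t F‖) (𝓝[≠] 0)
          (𝓝 ‖G‖) := hG.norm
      refine le_of_tendsto h7 ?_
      filter_upwards [self_mem_nhdsWithin] with t ht
      have ht' : t ≠ 0 := ht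
      rw [norm_smul, norm_inv, Real.norm_eq_abs, inv_mul_le_iff₀ (abs_pos.2 ht')]
      rw [mul_comm |t|]
      exact n1 t
    have h6 : eLpNorm G (p : ℝ≥0∞) μ = ENNReal.ofReal ‖G‖ := by
      rw [Lp.norm_def, ENNReal.ofReal_toReal (Lp.eLpNorm_ne_top _)]
    rw [h6]
    refine (ENNReal.ofReal_le_ofReal h5).trans ?_
    rw [ENNReal.ofReal_mul hD, ENNReal.ofReal_toReal hut]

end

end Pool.Agent.H970.DD
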