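import Pool.Graph.R_seed8.R876.WM.AVG
import Pool.Graph.R_seed8.R876.WM.ABS
import Pool.Graph.R_seed8.R876.WM.SMD
import Pool.Graph.R_seed8.R876.WM.L1
import Pool.Graph.R_seed8.R876.WM.L3
import Pool.Graph.R_seed8.R876.WM.DIFL
import Pool.Graph.R_seed8.R876.WM.LEIB
import Pool.Graph.R_seed8.R876.WM.PROD
import Pool.Agent.H970.DD.LpB

/-! # `D^∞` is an algebra -/

set_option autoImplicit false

open MeasureTheory ProbabilityTheory Set Filter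
open scoped ENNReal NNReal Topology

namespace Pool.Agent.H970.DD

open Pool.Agent.R876.WM

variable {Ω : Type} [NormedAddCommGroup Ω] [NormedSpace ℝ Ω] [MeasurableSpace Ω]
variable {μ : Measure Ω} {A : Ω →L[ℝ] Ω}

theorem dinf_of_even (hC : Ctx μ A) {f : Ω → ℝ}
    (h : ∀ P : ℕ, 2 ≤ P → ∀ m : ℕ, ∃ U, IsD μ (P : ℝ≥0∞) (2 * m) f U) : Dinf μ f := by
  have := hC.prob
  intro p hp r
  set P : ℕ := max 2 ⌈p⌉₊ with hPdef
  have hP : 2 ≤ P := le_max_left _ _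
  have hpP : ENNReal.ofReal p ≤ (P : ℝ≥0∞) := by
    rw [← ENNReal.ofReal_natCast P]
    apply ENNReal.ofReal_le_ofReal
    exact (Nat.le_ceil p).trans (by exact_mod_cast le_max_right _ _)
  have hF := fact_nat (show 1 ≤ P by omega)
  obtain ⟨U, hU1, hU2⟩ := h P hP r
  obtain ⟨U', h1, h2, h3⟩ := (hC.pot _ hF.out (ENNReal.natCast_ne_top P)).2.2 r r (by omega) U hU1
  exact ⟨U', h1.mono_exponent hpP, hU2.trans h3⟩

theorem even_of_dinf {f : Ω → ℝ} (hf : Dinf μ f) (P : ℕ) (hP : 2 ≤ P) (m : ℕ) :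
    ∃ U, IsD μ (P : ℝ≥0∞) m f U := by
  have h1 : (1 : ℝ) < (P : ℝ) := by exact_mod_cast (by omega : 1 < P)
  have := hf P h1 m
  rwa [ENNReal.ofReal_natCast] at this

theorem dinf_smul {f : Ω → ℝ} (c : ℝ) (hf : Dinf μ f) : Dinf μ (fun ω => c * f ω) := by
  intro p hp r
  obtain ⟨U, hU1, hU2⟩ := hf p hp r
  refine ⟨fun ω => c * U ω, hU1.const_mul c, ?_⟩
  rw [pot_smul]
  filter_upwards [hU2] with x hx
  rw [hx]

theorem dinf_sub (hC : Ctx μ A) {f g : Ω → ℝ} (hf : Dinf μ f) (hg : Dinf μ g) :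
    Dinf μ (fun ω => f ω - g ω) := by
  refine dinf_of_even hC fun P hP m => ?_
  have hF := fact_nat (show 1 ≤ P by omega)
  obtain ⟨U, hU1, hU2⟩ := even_of_dinf hf P hP (2 * m)
  obtain ⟨V, hV1, hV2⟩ := even_of_dinf hg P hP (2 * m)
  refine ⟨fun ω => U ω - V ω, hU1.sub hV1, ?_⟩
  refine EventuallyEq.trans ?_ (pot_sub hC (ENNReal.natCast_ne_top P) m hU1 hV1).symm
  filter_upwards [hU2, hV2] with x h1 h2
  rw [h1, h2]

theorem dinf_add (hC : Ctx μ A) {f g : Ω → ℝ} (hf : Dinf μ f) (hg : Dinf μ g) :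
    Dinf μ (fun ω => f ω + g ω) := by
  have := dinf_sub hC hf (dinf_smul (-1) hg)
  have e : (fun ω => f ω + g ω) = fun ω => f ω - (-1) * g ω := by funext ω; ring
  rw [e]
  exact this

theorem dinf_sq [CompleteSpace Ω] [SecondCountableTopology Ω] [BorelSpace Ω] [IsGaussian μ]
    (hμ : ∀ L : StrongDual ℝ Ω, ∫ x, L x ∂μ = 0)
    (hC : Ctx μ A) {f : Ω → ℝ} (hf : Dinf μ f) : Dinf μ (fun ω => f ω * f ω) := by
  have hMP : S_MP μ := mp_thm μ hμ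
  have hOUL := hC.oul
  have hPOT := hC.pot
  have hSMD : S_SMD ℝ μ := smd_thm μ ℝ hMP hOUL (ce_thm μ ℝ hMP) avg_thm abs_thm
  have hL3 : S_L3 ℝ μ := l3_thm μ ℝ hSMD
  have hDIFL : S_DIFL ℝ μ := difl_thm μ ℝ hMP
  have hL1 : S_L1 ℝ μ := l1_thm μ ℝ hMP hPOT hC.d2s (lya_thm ℝ) hDIFL
  have hPROD : S_PROD ℝ ℝ μ := prod_thm μ ℝ ℝ hMP (leib_thm Ω ℝ ℝ) hDIFL
  set S : Set (Ω → ℝ) := {f} with hS
  have hUB : ∀ p : ℕ, 2 ≤ p → UB μ p S := by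
    intro p hp
    have hF := fact_nat (show 1 ≤ p by omega)
    obtain ⟨U, hU1, hU2⟩ := even_of_dinf hf p hp 0
    have hm : MemLp f (p : ℝ≥0∞) μ := (memLp_congr_ae hU2).2
      ((hPOT _ hF.out (ENNReal.natCast_ne_top p)).2.1 0 U hU1).1
    refine ⟨(eLpNorm f (p : ℝ≥0∞) μ).toReal, ENNReal.toReal_nonneg, fun V hV => ?_⟩
    rw [hS, Set.mem_singleton_iff] at hV
    rw [hV, ENNReal.ofReal_toReal hm.2.ne]
    exact ⟨hm, le_rfl⟩
  have hUD : UD μ 2 S := by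
    intro m
    obtain ⟨U, hU1, hU2⟩ := even_of_dinf hf 2 le_rfl (2 * m)
    refine ⟨(eLpNorm U ((2 : ℕ) : ℝ≥0∞) μ).toReal, ENNReal.toReal_nonneg, fun V hV => ?_⟩
    rw [hS, Set.mem_singleton_iff] at hV
    rw [hV]
    exact ⟨U, ⟨hU1, hU2⟩, by rw [ENNReal.ofReal_toReal hU1.2.ne]⟩
  have hUS := hL1 S hUB hUD
  refine dinf_of_even hC fun P hP m => ?_
  obtain ⟨h1, h2⟩ := hPROD (ContinuousLinearMap.mul ℝ ℝ) (fun v w => by simp) S P hP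
    (hUB (2 * P) (by omega)) (hUS (2 * P) (by omega))
  obtain ⟨D, -, h3⟩ := hL3 P hP _ h1 h2 m
  obtain ⟨U, hU, -⟩ := h3 (fun ω => ContinuousLinearMap.mul ℝ ℝ (f ω) (f ω)) ⟨f, rfl, rfl⟩
  exact ⟨U, hU⟩

theorem dinf_mul [CompleteSpace Ω] [SecondCountableTopology Ω] [BorelSpace Ω] [IsGaussian μ]
    (hμ : ∀ L : StrongDual ℝ Ω, ∫ x, L x ∂μ = 0)
    (hC : Ctx μ A) {f g : Ω → ℝ} (hf : Dinf μ f) (hg : Dinf μ g) :
    Dinf μ (fun ω => f ω * g ω) := by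
  have h1 := dinf_sq hμ hC (dinf_add hC hf hg)
  have h2 := dinf_sq hμ hC (dinf_sub hC hf hg)
  have h3 := dinf_smul (1 / 4) (dinf_sub hC h1 h2)
  have e : (fun ω => f ω * g ω) = fun ω => 1 / 4 * ((f ω + g ω) * (f ω + g ω) -
      (f ω - g ω) * (f ω - g ω)) := by funext ω; ring
  rw [e]
  exact h3

end Pool.Agent.H970.DD
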