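import Pool.Graph.R_seed8.R876.WM.Defs

/-!
# MP_4215b8_pr: definitions

The classical Wiener space `Om n = C([0,1], ℝ^n)` with Wiener measure `μ` (`IsW μ`), the space
`HH n = L²([0,1], ℝ^n)` (the Cameron-Martin space, `h ↦ ḣ`), the gradient, `D^∞`-derivations, and
the representation `δ f = ⟨grad f, X⟩ + div (A grad f)`.
The Ornstein-Uhlenbeck semigroup `ou`, the Bessel potentials `pot μ r = (1 - L)^(-r/2)`,
`IsD μ p r V U` (`V ∈ D^p_r` and `(1-L)^(r/2) V = U`) and `Dinf μ V` (`V ∈ D^∞`) come from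
`Pool.Graph.R_seed8.R876.WM.Defs`.
-/

set_option autoImplicit false

open MeasureTheory ProbabilityTheory Set Filter
open scoped ENNReal NNReal Topology

namespace Pool.Agent.H970.DD

open Pool.Agent.R876.WM

/-- `ℝ^n` -/
abbrev W (n : ℕ) : Type := EuclideanSpace ℝ (Fin n)

/-- the path space `C([0,1], ℝ^n)` -/
abbrev Om (n : ℕ) : Type := C(Set.Icc (0 : ℝ) 1, W n)

noncomputable instance instMeasurableSpaceOm (n : ℕ) : MeasurableSpace (Om n) := borel (Om n)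
instance instBorelSpaceOm (n : ℕ) : BorelSpace (Om n) := ⟨rfl⟩

/-- Lebesgue measure on `[0,1]` -/
noncomputable abbrev lb : Measure ℝ := (volume : Measure ℝ).restrict (Set.Icc (0 : ℝ) 1)

/-- the Cameron-Martin space `H`, identified with `L²([0,1], ℝ^n)` by `h ↦ ḣ` -/
abbrev HH (n : ℕ) : Type := Lp (W n) 2 lb

variable {n : ℕ}

/-- the coordinate process (constant for `t ≤ 0` and `t ≥ 1`) -/
noncomputable def X (t : ℝ) (ω : Om n) : W n := ω (Set.projIcc 0 1 zero_le_one t)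

/-- all continuous linear functionals have mean zero -/
def Centred (μ : Measure (Om n)) : Prop := ∀ L : StrongDual ℝ (Om n), ∫ ω, L ω ∂μ = 0

/-- `E ω_i(s) ω_j(t)` -/
noncomputable def covW (μ : Measure (Om n)) (i j : Fin n) (s t : ℝ) : ℝ :=
  ∫ ω, (X s ω) i * (X t ω) j ∂μ

/-- `μ` is the Wiener measure on the paths in `ℝ^n`: centred Gaussian, with covariance
`E ω_i(s) ω_j(t) = δ_ij min (s, t)` (so `ω(0) = 0` almost surely) -/
structure IsW (μ : Measure (Om n)) : Prop where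
  gauss : IsGaussian μ
  mean : Centred μ
  cov : ∀ (i j : Fin n) (s t : ℝ), 0 ≤ s → s ≤ t → t ≤ 1 → covW μ i j s t = if i = j then s else 0

/-- `f ∈ D^∞` -/
abbrev DI (μ : Measure (Om n)) (f : Om n → ℝ) : Prop := Dinf μ f

/-- `f ∈ D^p_r` and `(1 - L)^(r/2) f = U` -/
abbrev DP (μ : Measure (Om n)) (p : ℝ) (r : ℕ) (f U : Om n → ℝ) : Prop :=
  IsD μ (ENNReal.ofReal p) r f U

/-- the `L^p` norm -/
noncomputable abbrev nrm (μ : Measure (Om n)) (p : ℝ) (U : Om n → ℝ) : ℝ≥0∞ :=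
  eLpNorm U (ENNReal.ofReal p) μ

theorem integrable_HH (h : HH n) : IntegrableOn (h : ℝ → W n) (Set.uIcc (0 : ℝ) 1) volume := by
  rw [Set.uIcc_of_le zero_le_one]
  exact (Lp.memLp h).integrable (by norm_num)

theorem cm_cont (h : HH n) :
    Continuous fun t : Set.Icc (0 : ℝ) 1 => ∫ s in (0 : ℝ)..(t : ℝ), (h : ℝ → W n) s := by
  have h1 := intervalIntegral.continuousOn_primitive_interval (integrable_HH h)
  rw [Set.uIcc_of_le zero_le_one] at h1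
  exact continuousOn_iff_continuous_domRestrict.1 h1

/-- the Cameron-Martin path `t ↦ ∫_0^t h(s) ds` -/
noncomputable def cm (h : HH n) : Om n where
  toFun t := ∫ s in (0 : ℝ)..(t : ℝ), (h : ℝ → W n) s
  continuous_toFun := cm_cont h

/-- `V ∈ L²(Ω; H)` -/
abbrev SqInt (μ : Measure (Om n)) (V : Om n → HH n) : Prop := MemLp V 2 μ

/-- `G = grad f` : `G ∈ L²(Ω; H)` and, for every `h ∈ H`,
`⟨G, h⟩` is the limit in `L¹` of `(f (ω + ε h) - f ω) / ε`. -/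
def IsGrad (μ : Measure (Om n)) (f : Om n → ℝ) (G : Om n → HH n) : Prop :=
  SqInt μ G ∧ ∀ h : HH n, Tendsto (fun ε : ℝ =>
    eLpNorm (fun ω => ε⁻¹ * (f (ω + ε • cm h) - f ω) - inner ℝ (G ω) h) 1 μ) (𝓝[≠] 0) (𝓝 0)

/-- continuity of `δ : D^∞ → D^∞`: each norm `‖δ f‖_{p,r}` is bounded by `C ‖f‖_{q,s}` for some
`q, s, C`. -/
def ContD (μ : Measure (Om n)) (δ : (Om n → ℝ) → (Om n → ℝ)) : Prop :=
  ∀ p : ℝ, 1 < p → ∀ r : ℕ, ∃ q : ℝ, 1 < q ∧ ∃ (s : ℕ) (C : ℝ≥0), ∀ f : Om n → ℝ,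
    DI μ f → ∀ U : Om n → ℝ, DP μ q s f U →
      ∃ U' : Om n → ℝ, DP μ p r (δ f) U' ∧ nrm μ p U' ≤ C * nrm μ q U

/-- `δ : D^∞ → D^∞` is a `D^∞`-derivation: well defined on classes, linear, with the Leibniz rule,
and continuous. -/
structure IsDer (μ : Measure (Om n)) (δ : (Om n → ℝ) → (Om n → ℝ)) : Prop where
  congr : ∀ f g : Om n → ℝ, DI μ f → f =ᵐ[μ] g → δ f =ᵐ[μ] δ g
  maps : ∀ f : Om n → ℝ, DI μ f → DI μ (δ f)
  add : ∀ f g : Om n → ℝ, DI μ f → DI μ g → δ (f + g) =ᵐ[μ] δ f + δ g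
  smul : ∀ (c : ℝ) (f : Om n → ℝ), DI μ f → δ (c • f) =ᵐ[μ] c • δ f
  leibniz : ∀ f g : Om n → ℝ, DI μ f → DI μ g →
    DI μ (f * g) ∧ δ (f * g) =ᵐ[μ] f * δ g + g * δ f
  cont : ContD μ δ

/-- the coordinates `V_i(t)` of `V ∈ L²([0,1], ℝ^n)` -/
noncomputable def vel (V : HH n) (t : ℝ) (i : Fin n) : ℝ := ((V : ℝ → W n) t) i

/-- `⟨A(t) V(t), V'(t)⟩` -/
noncomputable def bil (A : ℝ → Matrix (Fin n) (Fin n) ℝ) (V V' : HH n) (t : ℝ) : ℝ :=
  ∑ i, ∑ j, A t i j * vel V t j * vel V' t i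

/-- `⟨A V, V'⟩_H = ∫_0^1 ⟨A(t) V(t), V'(t)⟩ dt` -/
noncomputable def form (A : ℝ → Matrix (Fin n) (Fin n) ℝ) (V V' : HH n) : ℝ := ∫ t, bil A V V' t ∂lb

/-- `⟨A V, V'⟩_H` is defined almost surely and has an expectation -/
def FormOK (μ : Measure (Om n)) (A : ℝ → Om n → Matrix (Fin n) (Fin n) ℝ) (V V' : Om n → HH n) : Prop :=
  (∀ᵐ ω ∂μ, Integrable (bil (fun t => A t ω) (V ω) (V' ω)) lb) ∧
    Integrable (fun ω => form (fun t => A t ω) (V ω) (V' ω)) μ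

/-- `E[(d - ⟨G, X⟩_H) g]` -/
noncomputable def pair (μ : Measure (Om n)) (d g : Om n → ℝ) (G Xf : Om n → HH n) : ℝ :=
  ∫ ω, (d ω - inner ℝ (G ω) (Xf ω)) * g ω ∂μ

/-- `δ f = ⟨grad f, X⟩ + div (A grad f)` for all `f ∈ D^∞`, in the weak sense: for every test
functional `g ∈ D^∞` (for which the right side makes sense)
`E[(δ f - ⟨grad f, X⟩) g] = E ⟨A grad f, grad g⟩_H`. -/
def IsRep (μ : Measure (Om n)) (δ : (Om n → ℝ) → (Om n → ℝ)) (Xf : Om n → HH n)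
    (A : ℝ → Om n → Matrix (Fin n) (Fin n) ℝ) : Prop :=
  ∀ (f g : Om n → ℝ) (G G' : Om n → HH n), DI μ f → DI μ g → IsGrad μ f G → IsGrad μ g G' →
    FormOK μ A G G' →
    pair μ (δ f) g G Xf = ∫ ω, form (fun t => A t ω) (G ω) (G' ω) ∂μ

end Pool.Agent.H970.DD
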