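import Pool.Agent.H970.DD.LpB

/-! # The derivation -/

set_option autoImplicit false

open MeasureTheory ProbabilityTheory Set Filter
open scoped ENNReal NNReal Topology

namespace Pool.Agent.H970.DD

open Pool.Agent.R876.WM

variable {Ω : Type} [NormedAddCommGroup Ω] [NormedSpace ℝ Ω] [MeasurableSpace Ω]
variable {μ : Measure Ω} {A : Ω →L[ℝ] Ω}

theorem triple4 : ENNReal.HolderTriple 4 4 2 := by
  refine ⟨?_⟩
  have h1 : (4 : ℝ≥0∞)⁻¹ = 2⁻¹ * 2⁻¹ := by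
    rw [← ENNReal.mul_inv (by norm_num) (by norm_num)]
    norm_num
  rw [h1, ← add_mul, ENNReal.inv_two_add_inv_two, one_mul]

theorem holder4 {α : Type*} [MeasurableSpace α] {ν : Measure α} {f g : α → ℝ}
    (hf : AEStronglyMeasurable f ν) (hg : AEStronglyMeasurable g ν) :
    eLpNorm (fun x => f x * g x) 2 ν ≤ eLpNorm f 4 ν * eLpNorm g 4 ν := by
  have := triple4
  have hb : ∀ᵐ x ∂ν, ‖f x * g x‖₊ ≤ (1 : ℝ≥0) * ‖f x‖₊ * ‖g x‖₊ := by
    filter_upwards with x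
    rw [one_mul, nnnorm_mul]
  have h := eLpNorm_le_eLpNorm_mul_eLpNorm_of_nnnorm (p := 4) (q := 4) (r := 2) hf hg
    (fun v w => v * w) 1 hb
  simpa using h

theorem DerLp_congr (h : IsRot μ A) {p : ℝ≥0∞} {f f' g : Ω → ℝ} (hf : f =ᵐ[μ] f')
    (hd : DerLp μ A p f g) : DerLp μ A p f' g := by
  unfold DerLp at *
  refine hd.congr fun t => eLpNorm_congr_ae ?_
  filter_upwards [Dd_congr h t hf] with x hx
  rw [hx]

theorem DerLp_congr' {p : ℝ≥0∞} {f g g' : Ω → ℝ} (hg : g =ᵐ[μ] g')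
    (hd : DerLp μ A p f g) : DerLp μ A p f g' := by
  unfold DerLp at *
  refine hd.congr fun t => eLpNorm_congr_ae ?_
  filter_upwards [hg] with x hx
  rw [hx]

theorem meas_q (h : IsRot μ A) {f g : Ω → ℝ} (hf : AEStronglyMeasurable f μ)
    (hg : AEStronglyMeasurable g μ) (t : ℝ) :
    AEStronglyMeasurable (fun x => t⁻¹ * Dd A t f x - g x) μ := by
  have h1 : AEStronglyMeasurable (fun x => f (Tr A t x)) μ :=
    hf.comp_measurePreserving (h.mp t)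
  exact ((h1.sub hf).const_mul _).sub hg

theorem DerLp_mono [IsProbabilityMeasure μ] (h : IsRot μ A) {p q : ℝ≥0∞} (hpq : p ≤ q)
    {f g : Ω → ℝ} (hf : AEStronglyMeasurable f μ) (hg : AEStronglyMeasurable g μ)
    (hd : DerLp μ A q f g) : DerLp μ A p f g := by
  unfold DerLp at *
  refine tendsto_of_tendsto_of_tendsto_of_le_of_le tendsto_const_nhds hd (fun t => zero_le)
    fun t => ?_
  exact eLpNorm_le_eLpNorm_of_exponent_le hpq (meas_q h hf hg t)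

theorem DerLp_unique (h : IsRot μ A) {p : ℝ≥0∞} (hp : 1 ≤ p)
    {f g g' : Ω → ℝ} (hf : AEStronglyMeasurable f μ) (hg : AEStronglyMeasurable g μ)
    (hg' : AEStronglyMeasurable g' μ) (hd : DerLp μ A p f g) (hd' : DerLp μ A p f g') :
    g =ᵐ[μ] g' := by
  have h1 : Tendsto (fun t : ℝ => eLpNorm (fun x => t⁻¹ * Dd A t f x - g' x) p μ +
      eLpNorm (fun x => t⁻¹ * Dd A t f x - g x) p μ) (𝓝[≠] 0) (𝓝 (0 + 0)) := hd'.add hd
  rw [add_zero] at h1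
  have h2 : eLpNorm (fun x => g x - g' x) p μ ≤ 0 := by
    refine ge_of_tendsto' h1 fun t => ?_
    have e : (fun x => g x - g' x) = (fun x => t⁻¹ * Dd A t f x - g' x) -
        (fun x => t⁻¹ * Dd A t f x - g x) := by
      funext x; simp
    rw [e]
    exact eLpNorm_sub_le (meas_q h hf hg' t) (meas_q h hf hg t) hp
  have h3 : eLpNorm (fun x => g x - g' x) p μ = 0 := le_antisymm h2 (zero_le)
  have h4 := (eLpNorm_eq_zero_iff (f := fun x => g x - g' x) (hg.sub hg')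
    (zero_lt_one.trans_le hp).ne').1 h3
  filter_upwards [h4] with x hx
  have : g x - g' x = 0 := hx
  linarith

theorem DerLp_add (h : IsRot μ A) {p : ℝ≥0∞} (hp : 1 ≤ p)
    {f g f' g' : Ω → ℝ} (hf : AEStronglyMeasurable f μ) (hg : AEStronglyMeasurable g μ)
    (hf' : AEStronglyMeasurable f' μ)
    (hg' : AEStronglyMeasurable g' μ) (hd : DerLp μ A p f g) (hd' : DerLp μ A p f' g') :
    DerLp μ A p (fun x => f x + f' x) (fun x => g x + g' x) := by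
  have h1 : Tendsto (fun t : ℝ => eLpNorm (fun x => t⁻¹ * Dd A t f x - g x) p μ +
      eLpNorm (fun x => t⁻¹ * Dd A t f' x - g' x) p μ) (𝓝[≠] 0) (𝓝 (0 + 0)) := hd.add hd'
  rw [add_zero] at h1
  refine tendsto_of_tendsto_of_tendsto_of_le_of_le tendsto_const_nhds h1 (fun t => zero_le)
    fun t => ?_
  have e : (fun x => t⁻¹ * Dd A t (fun x => f x + f' x) x - (g x + g' x)) =
      (fun x => t⁻¹ * Dd A t f x - g x) + (fun x => t⁻¹ * Dd A t f' x - g' x) := by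
    funext x
    simp only [Dd, Pi.add_apply]
    ring
  change eLpNorm (fun x => t⁻¹ * Dd A t (fun x => f x + f' x) x - (g x + g' x)) p μ ≤ _
  rw [e]
  exact eLpNorm_add_le (meas_q h hf hg t) (meas_q h hf' hg' t) hp

theorem DerLp_smul {p : ℝ≥0∞} {f g : Ω → ℝ} (c : ℝ) (hd : DerLp μ A p f g) :
    DerLp μ A p (fun x => c * f x) (fun x => c * g x) := by
  have h1 : Tendsto (fun t : ℝ => ‖c‖ₑ * eLpNorm (fun x => t⁻¹ * Dd A t f x - g x) p μ)
      (𝓝[≠] 0) (𝓝 (‖c‖ₑ * 0)) :=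
    ENNReal.Tendsto.const_mul hd (Or.inr (by simp))
  rw [mul_zero] at h1
  refine h1.congr fun t => ?_
  rw [← eLpNorm_const_smul]
  congr 1
  funext x
  simp only [Dd, Pi.smul_apply, smul_eq_mul]
  ring

/-- product rule -/
theorem DerLp_mul (h : IsRot μ A)
    {f g f' g' : Ω → ℝ} (hf : MemLp f 4 μ) (hg : MemLp g 4 μ)
    (hf' : MemLp f' 4 μ) (hg' : MemLp g' 4 μ) (hd : DerLp μ A 4 f g) (hd' : DerLp μ A 4 f' g') :
    DerLp μ A 2 (fun x => f x * f' x) (fun x => f x * g' x + f' x * g x) := by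
  -- the two quotients
  set a : ℝ → Ω → ℝ := fun t x => t⁻¹ * Dd A t f x - g x with ha
  set b : ℝ → Ω → ℝ := fun t x => t⁻¹ * Dd A t f' x - g' x with hb
  have ham : ∀ t, AEStronglyMeasurable (a t) μ := fun t => meas_q h hf.1 hg.1 t
  have hbm : ∀ t, AEStronglyMeasurable (b t) μ := fun t => meas_q h hf'.1 hg'.1 t
  have hDm : ∀ t, AEStronglyMeasurable (Dd A t f) μ := fun t => (Dd_memLp h t hf).1
  have hDm' : ∀ t, AEStronglyMeasurable (Dd A t f') μ := fun t => (Dd_memLp h t hf').1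
  -- bound of `Dd A t f`
  have hDb : ∀ t : ℝ, t ≠ 0 → eLpNorm (Dd A t f) 4 μ ≤ ‖t‖ₑ * (eLpNorm g 4 μ + eLpNorm (a t) 4 μ) := by
    intro t ht
    have e : Dd A t f = t • (g + a t) := by
      funext x
      simp only [ha, Pi.smul_apply, Pi.add_apply, smul_eq_mul]
      field_simp
      ring
    rw [e, eLpNorm_const_smul]
    gcongr
    exact eLpNorm_add_le hg.1 (ham t) (by norm_num)
  have hlim1 : Tendsto (fun t : ℝ => ‖t‖ₑ * (eLpNorm g 4 μ + eLpNorm (a t) 4 μ)) (𝓝[≠] 0)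
      (𝓝 0) := by
    have h1 : Tendsto (fun t : ℝ => ‖t‖ₑ) (𝓝[≠] 0) (𝓝 0) := by
      have : Tendsto (fun t : ℝ => ‖t‖ₑ) (𝓝 0) (𝓝 ‖(0 : ℝ)‖ₑ) := continuous_enorm.tendsto 0
      rw [enorm_zero] at this
      exact this.mono_left nhdsWithin_le_nhds
    have h2 : Tendsto (fun t : ℝ => eLpNorm g 4 μ + eLpNorm (a t) 4 μ) (𝓝[≠] 0)
        (𝓝 (eLpNorm g 4 μ + 0)) := tendsto_const_nhds.add hd
    rw [add_zero] at h2
    have h3 := ENNReal.Tendsto.mul h1 (Or.inr hg.2.ne) h2 (Or.inr ENNReal.zero_ne_top)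
    rwa [zero_mul] at h3
  -- the total bound
  have hlim : Tendsto (fun t : ℝ =>
      (‖t‖ₑ * (eLpNorm g 4 μ + eLpNorm (a t) 4 μ)) * (eLpNorm g' 4 μ + eLpNorm (b t) 4 μ) +
      eLpNorm f 4 μ * eLpNorm (b t) 4 μ + eLpNorm f' 4 μ * eLpNorm (a t) 4 μ) (𝓝[≠] 0)
      (𝓝 (0 * (eLpNorm g' 4 μ + 0) + eLpNorm f 4 μ * 0 + eLpNorm f' 4 μ * 0)) := by
    refine Tendsto.add (Tendsto.add ?_ ?_) ?_
    · refine ENNReal.Tendsto.mul hlim1 (Or.inr ?_) (tendsto_const_nhds.add hd')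
        (Or.inr ENNReal.zero_ne_top)
      rw [add_zero]
      exact hg'.2.ne
    · exact ENNReal.Tendsto.const_mul hd' (Or.inr hf.2.ne)
    · exact ENNReal.Tendsto.const_mul hd (Or.inr hf'.2.ne)
  simp only [zero_mul, mul_zero, add_zero] at hlim
  unfold DerLp
  refine tendsto_of_tendsto_of_tendsto_of_le_of_le' tendsto_const_nhds hlim
    (Eventually.of_forall fun t => zero_le) ?_
  filter_upwards [self_mem_nhdsWithin] with t ht
  have ht' : t ≠ 0 := ht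
  have e : (fun x => t⁻¹ * Dd A t (fun x => f x * f' x) x - (f x * g' x + f' x * g x)) =
      ((fun x => Dd A t f x * (g' x + b t x)) + fun x => f x * b t x) + fun x => f' x * a t x := by
    funext x
    simp only [ha, hb, Dd, Pi.add_apply]
    field_simp
    ring
  rw [e]
  have m1 : AEStronglyMeasurable (fun x => g' x + b t x) μ := hg'.1.add (hbm t)
  refine (eLpNorm_add_le (((hDm t).mul m1).add (hf.1.mul (hbm t))) (hf'.1.mul (ham t))
    (by norm_num)).trans ?_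
  refine add_le_add ((eLpNorm_add_le ((hDm t).mul m1) (hf.1.mul (hbm t)) (by norm_num)).trans
    (add_le_add ?_ ?_)) ?_
  · refine (holder4 (hDm t) m1).trans (mul_le_mul' (hDb t ht') ?_)
    exact eLpNorm_add_le hg'.1 (hbm t) (by norm_num)
  · exact holder4 hf.1 (hbm t)
  · exact holder4 hf'.1 (ham t)

open Classical in
/-- the derivation -/
noncomputable def delta (μ : Measure Ω) (A : Ω →L[ℝ] Ω) (f : Ω → ℝ) : Ω → ℝ :=
  if h : ∃ g : Ω → ℝ, MemLp g 2 μ ∧ DerLp μ A 2 f g then h.choose else 0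

theorem delta_eq (h : IsRot μ A) {f g : Ω → ℝ} (hf : AEStronglyMeasurable f μ)
    (hg : MemLp g 2 μ) (hd : DerLp μ A 2 f g) : delta μ A f =ᵐ[μ] g := by
  have h1 : ∃ g : Ω → ℝ, MemLp g 2 μ ∧ DerLp μ A 2 f g := ⟨g, hg, hd⟩
  unfold delta
  rw [dif_pos h1]
  exact DerLp_unique h (by norm_num) hf h1.choose_spec.1.1 hg.1 h1.choose_spec.2 hd

section

variable [BorelSpace Ω]

/-- the derivative commutes with the potentials -/
theorem DerLp_pot (hC : Ctx μ A) {p : ℝ≥0∞} [Fact (1 ≤ p)] (hp : p ≠ ∞) (a : ℕ)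
    {f g : Ω → ℝ} (hf : MemLp f p μ) (hg : MemLp g p μ) (hd : DerLp μ A p f g) :
    DerLp μ A p (pot μ (2 * a) f) (pot μ (2 * a) g) := by
  unfold DerLp at *
  refine tendsto_of_tendsto_of_tendsto_of_le_of_le tendsto_const_nhds hd (fun t => zero_le)
    fun t => ?_
  have h1 : MemLp (fun x => t⁻¹ * Dd A t f x) p μ := (Dd_memLp hC.rot t hf).const_mul _
  have h2 := pot_sub hC hp a h1 hg
  have h3 := pot_Dd hC hp a t hf
  have h4 := pot_smul (μ := μ) t⁻¹ (2 * a) (Dd A t f)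
  have h5 : (fun x => t⁻¹ * Dd A t (pot μ (2 * a) f) x - pot μ (2 * a) g x) =ᵐ[μ]
      pot μ (2 * a) (fun x => t⁻¹ * Dd A t f x - g x) := by
    refine EventuallyEq.trans ?_ h2.symm
    filter_upwards [h3] with x hx
    rw [h4, ← hx]
  change eLpNorm (fun x => t⁻¹ * Dd A t (pot μ (2 * a) f) x - pot μ (2 * a) g x) p μ ≤ _
  rw [eLpNorm_congr_ae h5]
  exact ((hC.pot p Fact.out hp).2.1 (2 * a) _ (h1.sub hg)).2

/-- the main estimate on the derivation -/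
theorem delta_cont [SecondCountableTopology Ω] (hC : Ctx μ A) (P : ℕ) (hP : 2 ≤ P) (r : ℕ) :
    ∃ (s : ℕ) (D : ℝ), 0 ≤ D ∧ ∀ f U : Ω → ℝ,
      IsD μ ((2 * (2 * P) : ℕ) : ℝ≥0∞) s f U →
      MemLp (delta μ A f) (P : ℝ≥0∞) μ ∧ DerLp μ A (P : ℝ≥0∞) f (delta μ A f) ∧
      ∃ U' : Ω → ℝ, IsD μ (P : ℝ≥0∞) r (delta μ A f) U' ∧
        eLpNorm U' (P : ℝ≥0∞) μ ≤ ENNReal.ofReal D * eLpNorm U ((2 * (2 * P) : ℕ) : ℝ≥0∞) μ := by
  have := hC.prob
  have hF := fact_nat (show 1 ≤ P by omega)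
  have hF4 := fact_nat (show 1 ≤ 2 * (2 * P) by omega)
  obtain ⟨m, D, hD, h1⟩ := partF hC P hP
  have hpq : (P : ℝ≥0∞) ≤ ((2 * (2 * P) : ℕ) : ℝ≥0∞) := by
    exact_mod_cast (by omega : P ≤ 2 * (2 * P))
  have h2P : (2 : ℝ≥0∞) ≤ (P : ℝ≥0∞) := by exact_mod_cast hP
  have h4t : ((2 * (2 * P) : ℕ) : ℝ≥0∞) ≠ ∞ := ENNReal.natCast_ne_top _
  have hPt : (P : ℝ≥0∞) ≠ ∞ := ENNReal.natCast_ne_top _
  refine ⟨2 * (r + m), D, hD, fun f U hfU => ?_⟩
  obtain ⟨hU, hf⟩ := hfU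
  set h : Ω → ℝ := pot μ (2 * m) U with hh
  obtain ⟨hhm, -⟩ := (hC.pot _ hF4.out h4t).2.1 (2 * m) U hU
  have hhm' : MemLp h (P : ℝ≥0∞) μ := hhm.mono_exponent hpq
  obtain ⟨g, hg1, hg2, hg3⟩ := h1 h U hU EventuallyEq.rfl
  have hf2 : f =ᵐ[μ] pot μ (2 * r) h := hf.trans (pot_add hC h4t r m hU)
  have hd1 := DerLp_pot hC hPt r hhm' hg1 hg2
  have hd2 : DerLp μ A (P : ℝ≥0∞) f (pot μ (2 * r) g) := DerLp_congr hC.rot hf2.symm hd1
  have hgp := (hC.pot _ hF.out hPt).2.1 (2 * r) g hg1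
  have hfm : MemLp f (P : ℝ≥0∞) μ :=
    (memLp_congr_ae hf2).2 ((hC.pot _ hF.out hPt).2.1 (2 * r) h hhm').1
  have hd3 : DerLp μ A 2 f (pot μ (2 * r) g) := DerLp_mono hC.rot h2P hfm.1 hgp.1.1 hd2
  have hde : delta μ A f =ᵐ[μ] pot μ (2 * r) g :=
    delta_eq hC.rot hfm.1 (hgp.1.mono_exponent h2P) hd3
  refine ⟨(memLp_congr_ae hde).2 hgp.1, DerLp_congr' hde.symm hd2, ?_⟩
  obtain ⟨U', hU'1, hU'2, hU'3⟩ := (hC.pot _ hF.out hPt).2.2 r r (by omega) g hg1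
  exact ⟨U', ⟨hU'1, hde.trans hU'3⟩, hU'2.trans hg3⟩

end

end Pool.Agent.H970.DD
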