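import Pool.Agent.H970.DD.Grp

/-! # Isometry groups: differentiability -/

set_option autoImplicit false

open Set Filter MeasureTheory
open scoped Topology

namespace Pool.Agent.H970.DD

variable {E : Type*} [NormedAddCommGroup E] [NormedSpace ℝ E] {C : ℝ → E →L[ℝ] E}

theorem norm_C_le (hC : Grp C) (t : ℝ) (f : E) : ‖C t f‖ ≤ ‖f‖ := by
  calc ‖C t f‖ ≤ ‖C t‖ * ‖f‖ := ContinuousLinearMap.le_opNorm _ _
    _ ≤ 1 * ‖f‖ := by gcongr; exact hC.norm_le t
    _ = ‖f‖ := one_mul _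

theorem Sd_apply (t : ℝ) (f : E) : Sd C t f = C t f - f := rfl

theorem C_sub (hC : Grp C) (s t : ℝ) (f : E) : C s f - C t f = C t (Sd C (s - t) f) := by
  rw [Sd_apply, map_sub]
  congr 1
  have := hC.add t (s - t)
  rw [add_sub_cancel] at this
  rw [this]; rfl

theorem cont_of_lip (hC : Grp C) {f : E} {D : ℝ} (h : ∀ t : ℝ, ‖Sd C t f‖ ≤ D * |t|) :
    Continuous (fun t => C t f) := by
  have hl : LipschitzWith D.toNNReal (fun t => C t f) := by
    refine LipschitzWith.of_dist_le_mul fun s t => ?_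
    rw [dist_eq_norm, C_sub hC, Real.dist_eq]
    refine (norm_C_le hC _ _).trans ((h _).trans ?_)
    gcongr
    exact Real.le_coe_toNNReal D
  exact hl.continuous

theorem key_int {F : ℝ → E} (hF : Continuous F) (a b : ℝ) :
    ∫ s in (0 : ℝ)..a, (F (s + b) - F s) = ∫ s in (0 : ℝ)..b, (F (s + a) - F s) := by
  have hi : ∀ x y : ℝ, IntervalIntegrable F volume x y := fun x y => hF.intervalIntegrable x y
  have hi2 : ∀ x y z : ℝ, IntervalIntegrable (fun s => F (s + z)) volume x y := fun x y z =>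
    (hF.comp (continuous_id.add continuous_const)).intervalIntegrable x y
  rw [intervalIntegral.integral_sub (hi2 _ _ _) (hi _ _),
    intervalIntegral.integral_sub (hi2 _ _ _) (hi _ _),
    intervalIntegral.integral_comp_add_right, intervalIntegral.integral_comp_add_right]
  rw [zero_add, zero_add, add_comm b a]
  have h1 := intervalIntegral.integral_add_adjacent_intervals (hi 0 a) (hi a (a + b))
  have h2 := intervalIntegral.integral_add_adjacent_intervals (hi 0 b) (hi b (a + b))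
  have h3 : ∫ s in b..(a + b), F s = (∫ s in (0 : ℝ)..(a + b), F s) - ∫ s in (0 : ℝ)..b, F s := by
    rw [← h2]; abel
  have h4 : ∫ s in a..(a + b), F s = (∫ s in (0 : ℝ)..(a + b), F s) - ∫ s in (0 : ℝ)..a, F s := by
    rw [← h1]; abel
  rw [h3, h4]
  abel

variable [CompleteSpace E]

theorem quot_pos (hC : Grp C) {f : E} {D : ℝ} (hD : 0 ≤ D) (h1 : ∀ t : ℝ, ‖Sd C t f‖ ≤ D * |t|)
    (h2 : ∀ s t : ℝ, ‖Sd C s (Sd C t f)‖ ≤ D * |s| * |t|) {a b : ℝ} (ha : 0 < a) (hb : 0 < b) :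
    ‖a⁻¹ • Sd C a f - b⁻¹ • Sd C b f‖ ≤ D * (a + b) := by
  have hF := cont_of_lip hC h1
  have hK := key_int hF a b
  have hc : ∀ s b : ℝ, C (s + b) f - C s f = C s (Sd C b f) := by
    intro s b
    have := C_sub hC (s + b) s f
    rwa [add_sub_cancel_left] at this
  simp_rw [hc] at hK
  have est : ∀ a b : ℝ, 0 < a → 0 < b →
      ‖(∫ s in (0 : ℝ)..a, C s (Sd C b f)) - a • Sd C b f‖ ≤ D * a * b * a := by
    intro a b ha hb
    have hcont : Continuous fun s => C s (Sd C b f) := by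
      have : (fun s => C s (Sd C b f)) = fun s => C (s + b) f - C s f := by
        funext s; exact (hc s b).symm
      rw [this]
      exact (hF.comp (continuous_id.add continuous_const)).sub hF
    have e : (∫ s in (0 : ℝ)..a, C s (Sd C b f)) - a • Sd C b f =
        ∫ s in (0 : ℝ)..a, (C s (Sd C b f) - Sd C b f) := by
      rw [intervalIntegral.integral_sub (hcont.intervalIntegrable _ _)
        (continuous_const.intervalIntegrable _ _), intervalIntegral.integral_const, sub_zero]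
    rw [e]
    have := intervalIntegral.norm_integral_le_of_norm_le_const (a := 0) (b := a)
      (f := fun s => C s (Sd C b f) - Sd C b f) (C := D * a * b) (fun s hs => by
        rw [Set.uIoc_of_le ha.le] at hs
        have h3 := h2 s b
        rw [Sd_apply] at h3
        refine h3.trans ?_
        rw [abs_of_pos hs.1, abs_of_pos hb]
        gcongr
        exact hs.2)
    rwa [sub_zero, abs_of_pos ha] at this
  have e1 := est a b ha hb
  have e2 := est b a hb ha
  rw [hK] at e1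
  set I := ∫ s in (0 : ℝ)..b, C s (Sd C a f) with hI
  have e3 : ‖b • Sd C a f - a • Sd C b f‖ ≤ D * a * b * a + D * b * a * b := by
    have : b • Sd C a f - a • Sd C b f = (I - a • Sd C b f) - (I - b • Sd C a f) := by abel
    rw [this]
    exact (norm_sub_le _ _).trans (add_le_add e1 e2)
  have e4 : a⁻¹ • Sd C a f - b⁻¹ • Sd C b f = (a * b)⁻¹ • (b • Sd C a f - a • Sd C b f) := by
    rw [smul_sub, smul_smul, smul_smul]
    congr 2 <;> field_simp
  rw [e4, norm_smul, norm_inv, Real.norm_of_nonneg (by positivity)]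
  rw [inv_mul_le_iff₀ (by positivity)]
  refine e3.trans (le_of_eq ?_)
  ring

theorem quot_all (hC : Grp C) {f : E} {D : ℝ} (hD : 0 ≤ D) (h1 : ∀ t : ℝ, ‖Sd C t f‖ ≤ D * |t|)
    (h2 : ∀ s t : ℝ, ‖Sd C s (Sd C t f)‖ ≤ D * |s| * |t|) {a b : ℝ} (ha : a ≠ 0) (hb : b ≠ 0) :
    ‖a⁻¹ • Sd C a f - b⁻¹ • Sd C b f‖ ≤ 2 * D * (|a| + |b|) := by
  -- reduce to absolute values
  have red : ∀ a : ℝ, a ≠ 0 → ‖a⁻¹ • Sd C a f - |a|⁻¹ • Sd C |a| f‖ ≤ D * |a| := by
    intro a ha
    rcases lt_or_gt_of_ne ha with h | h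
    · rw [abs_of_neg h]
      have h3 : Sd C a f = -C a (Sd C (-a) f) := by
        have := C_sub hC 0 a f
        rw [zero_sub] at this
        rw [← this, hC.zero, Sd_apply]
        simp
      have h4 : a⁻¹ • Sd C a f - (-a)⁻¹ • Sd C (-a) f =
          (-a)⁻¹ • Sd C a (Sd C (-a) f) := by
        conv_lhs => rw [h3]
        rw [Sd_apply a (Sd C (-a) f)]
        simp only [smul_sub, inv_neg, smul_neg, neg_smul]
      rw [h4, norm_smul, norm_inv, Real.norm_of_nonneg (by linarith)]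
      have h5 := h2 a (-a)
      rw [inv_mul_le_iff₀ (by linarith)]
      refine h5.trans (le_of_eq ?_)
      rw [abs_neg, abs_of_neg h]
      ring
    · rw [abs_of_pos h, sub_self, norm_zero]
      positivity
  have h3 := quot_pos hC hD h1 h2 (abs_pos.2 ha) (abs_pos.2 hb)
  have h4 := red a ha
  have h5 := red b hb
  have e : a⁻¹ • Sd C a f - b⁻¹ • Sd C b f =
      (a⁻¹ • Sd C a f - |a|⁻¹ • Sd C |a| f) + (|a|⁻¹ • Sd C |a| f - |b|⁻¹ • Sd C |b| f) -
        (b⁻¹ • Sd C b f - |b|⁻¹ • Sd C |b| f) := by abel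
  rw [e]
  refine (norm_sub_le _ _).trans ?_
  refine (add_le_add (norm_add_le _ _) le_rfl).trans ?_
  linarith

/-- differentiability -/
theorem exists_deriv (hC : Grp C) {f : E} {D : ℝ} (hD : 0 ≤ D)
    (h1 : ∀ t : ℝ, ‖Sd C t f‖ ≤ D * |t|)
    (h2 : ∀ s t : ℝ, ‖Sd C s (Sd C t f)‖ ≤ D * |s| * |t|) :
    ∃ g : E, Tendsto (fun t : ℝ => t⁻¹ • Sd C t f) (𝓝[≠] 0) (𝓝 g) := by
  refine cauchy_map_iff_exists_tendsto.1 ?_
  rw [Metric.cauchy_iff]
  refine ⟨inferInstance, fun ε hε => ?_⟩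
  refine ⟨(fun t : ℝ => t⁻¹ • Sd C t f) '' {t | t ≠ 0 ∧ |t| < ε / (4 * D + 1)},
    Filter.image_mem_map ?_, ?_⟩
  · have hpos : 0 < ε / (4 * D + 1) := by positivity
    have : {t : ℝ | |t| < ε / (4 * D + 1)} ∈ 𝓝 (0 : ℝ) := by
      have := Metric.ball_mem_nhds (0 : ℝ) hpos
      convert this using 1
      ext t
      simp
    filter_upwards [self_mem_nhdsWithin, mem_nhdsWithin_of_mem_nhds this] with t ht ht'
    exact ⟨ht, ht'⟩
  · rintro x ⟨a, ⟨ha, ha'⟩, rfl⟩ y ⟨b, ⟨hb, hb'⟩, rfl⟩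
    rw [dist_eq_norm]
    refine (quot_all hC hD h1 h2 ha hb).trans_lt ?_
    have h4 : |a| + |b| ≤ 2 * (ε / (4 * D + 1)) := by linarith
    calc 2 * D * (|a| + |b|) ≤ 2 * D * (2 * (ε / (4 * D + 1))) := by gcongr
      _ = ε * (4 * D / (4 * D + 1)) := by ring
      _ < ε * 1 := by
        gcongr
        rw [div_lt_one (by positivity)]
        linarith
      _ = ε := mul_one _

end Pool.Agent.H970.DD
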