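import Pool.Graph.R_seed8.R876.WM.MP
import Pool.Graph.R_seed8.R876.WM.CE
import Pool.Graph.R_seed8.R876.WM.POT
import Pool.Agent.H970.DD.Dif

/-! # Rotations of a Gaussian space by a complex structure -/

set_option autoImplicit false

open MeasureTheory ProbabilityTheory Set Filter
open scoped ENNReal NNReal Topology

namespace Pool.Agent.H970.DD

open Pool.Agent.R876.WM

variable {Ω : Type} [NormedAddCommGroup Ω] [NormedSpace ℝ Ω]

/-- `cos θ + A sin θ` -/
noncomputable def Tr (A : Ω →L[ℝ] Ω) (θ : ℝ) : Ω →L[ℝ] Ω :=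
  Real.cos θ • ContinuousLinearMap.id ℝ Ω + Real.sin θ • A

theorem Tr_apply (A : Ω →L[ℝ] Ω) (θ : ℝ) (x : Ω) :
    Tr A θ x = Real.cos θ • x + Real.sin θ • A x := rfl

theorem Tr_zero (A : Ω →L[ℝ] Ω) : Tr A 0 = ContinuousLinearMap.id ℝ Ω := by
  unfold Tr
  simp

variable [MeasurableSpace Ω]

/-- `A` is a complex structure which generates measure preserving rotations -/
structure IsRot (μ : Measure Ω) (A : Ω →L[ℝ] Ω) : Prop where
  mp : ∀ θ : ℝ, MeasurePreserving (Tr A θ) μ μ
  sq : ∀ᵐ ω ∂μ, A (A ω) = -ω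

variable {μ : Measure Ω} {A : Ω →L[ℝ] Ω}

theorem Tr_add (h : IsRot μ A) (s t : ℝ) : ∀ᵐ ω ∂μ, Tr A t (Tr A s ω) = Tr A (s + t) ω := by
  filter_upwards [h.sq] with ω hω
  simp only [Tr_apply, map_add, map_smul, hω, Real.cos_add, Real.sin_add]
  module

section ou

variable [BorelSpace Ω]

/-- rotating the second variable does not change the integral -/
theorem int_rot (h : IsRot μ A) {f : Ω → ℝ} (hf : StronglyMeasurable f) (a : Ω) (ρ ψ : ℝ) :
    ∫ y, f (a + ρ • Tr A ψ y) ∂μ = ∫ y, f (a + ρ • y) ∂μ := by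
  have hmp := h.mp ψ
  have hm : AEStronglyMeasurable (fun y => f (a + ρ • y)) (μ.map (Tr A ψ)) := by
    have h1 : Measurable fun y : Ω => a + ρ • y := by fun_prop
    exact (hf.comp_measurable h1).aestronglyMeasurable
  conv_rhs => rw [← hmp.map_eq]
  rw [integral_map hmp.measurable.aemeasurable hm]

theorem ou_comp (h : IsRot μ A) {f : Ω → ℝ} (hf : StronglyMeasurable f) (t θ : ℝ) (x : Ω) :
    ou μ t (fun x => f (Tr A θ x)) x = ou μ t f (Tr A θ x) := by
  unfold ou
  rw [← int_rot h hf _ _ θ]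
  congr 1
  funext y
  simp only [map_add, map_smul]

theorem bes_comp (h : IsRot μ A) {f : Ω → ℝ} (hf : StronglyMeasurable f) (a θ : ℝ) (x : Ω) :
    bes μ a (fun x => f (Tr A θ x)) x = bes μ a f (Tr A θ x) := by
  unfold bes
  congr 1
  funext t
  rw [ou_comp h hf]

theorem pot_comp' (h : IsRot μ A) {f : Ω → ℝ} (hf : StronglyMeasurable f) (r : ℕ) (θ : ℝ) (x : Ω) :
    pot μ r (fun x => f (Tr A θ x)) x = pot μ r f (Tr A θ x) := by
  unfold pot
  split_ifs with hr
  · rfl
  · exact bes_comp h hf _ _ _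

theorem pot_comp (h : IsRot μ A) (hcg : ∀ (r : ℕ) (U V : Ω → ℝ), U =ᵐ[μ] V →
    pot μ r U =ᵐ[μ] pot μ r V) {f : Ω → ℝ} (hf : AEStronglyMeasurable f μ) (r : ℕ) (θ : ℝ) :
    pot μ r (fun x => f (Tr A θ x)) =ᵐ[μ] fun x => pot μ r f (Tr A θ x) := by
  set g := hf.mk f with hg
  have hgm : StronglyMeasurable g := hf.stronglyMeasurable_mk
  have hfg : f =ᵐ[μ] g := hf.ae_eq_mk
  have h1 : (fun x => f (Tr A θ x)) =ᵐ[μ] fun x => g (Tr A θ x) :=
    (h.mp θ).quasiMeasurePreserving.ae_eq_comp hfg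
  have h2 := hcg r _ _ h1
  have h3 := hcg r _ _ hfg
  have h4 : (fun x => pot μ r f (Tr A θ x)) =ᵐ[μ] fun x => pot μ r g (Tr A θ x) :=
    (h.mp θ).quasiMeasurePreserving.ae_eq_comp h3
  filter_upwards [h2, h4] with x hx2 hx4
  rw [hx2, hx4, pot_comp' h hgm]

omit [MeasurableSpace Ω] [BorelSpace Ω] in
theorem rot_id (α : ℝ) (a b : Ω) :
    Real.cos (2 * α) • (Real.cos α • a - Real.sin α • b) +
      Real.sin (2 * α) • (Real.sin α • a + Real.cos α • b) =
        Real.cos α • a + Real.sin α • b := by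
  have h5 := Real.sin_sq_add_cos_sq α
  rw [Real.cos_two_mul, Real.sin_two_mul]
  match_scalars
  · linear_combination 2 * Real.cos α * h5
  · ring

/-- the key inequality -/
theorem key_ineq [SecondCountableTopology Ω] [IsProbabilityMeasure μ] (h : IsRot μ A)
    (hMP : S_MP μ) {f : Ω → ℝ}
    (hf : StronglyMeasurable f) {p : ℝ≥0∞} (hp : 1 ≤ p) (hp' : p ≠ ∞) (hfp : MemLp f p μ)
    {α β φ ψ r ρ t : ℝ} (h1 : Real.cos α * Real.cos β = r * Real.cos φ)
    (h2 : Real.sin α * Real.sin β = r * Real.sin φ)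
    (h3 : Real.cos α * Real.sin β = ρ * Real.cos ψ)
    (h4 : -(Real.sin α * Real.cos β) = ρ * Real.sin ψ)
    (hr : Real.exp (-t) = r) (hρ : Real.sqrt (1 - Real.exp (-2 * t)) = ρ) :
    eLpNorm (fun x => ou μ t f (Tr A φ x) - ou μ t f (Tr A (-φ) x)) p μ ≤
      eLpNorm (dif 1 (2 * α) f) p (μ.prod μ) := by
  -- the measure preserving map
  set R : ℝ → Ω × Ω → Ω × Ω := fun θ z =>
    (Real.cos θ • z.1 + Real.sin θ • z.2, -Real.sin θ • z.1 + Real.cos θ • z.2) with hR
  set Θ : Ω × Ω → Ω × Ω := fun z => R (-α) (Prod.map id (Tr A (-(Real.pi / 2))) (R β z)) with hΘ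
  have hΘmp : MeasurePreserving Θ (μ.prod μ) (μ.prod μ) :=
    (hMP.2 (-α)).comp (((MeasurePreserving.id μ).prod (h.mp (-(Real.pi / 2)))).comp (hMP.2 β))
  set F : ℝ → Ω × Ω → ℝ := fun α z => f (Real.cos α • (Real.cos β • z.1 + Real.sin β • z.2) +
    Real.sin α • A (Real.sin β • z.1 - Real.cos β • z.2)) with hF
  have hcomp : ∀ α : ℝ, MemLp (fun z : Ω × Ω => f (Real.cos α • z.1 + Real.sin α • z.2))
      p (μ.prod μ) := fun α => hfp.comp_measurePreserving (hMP.1 α)
  have hdm : AEStronglyMeasurable (dif 1 (2 * α) f) (μ.prod μ) := by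
    unfold dif
    refine Finset.aestronglyMeasurable_fun_sum _ fun i _ => ?_
    exact (hcomp ((i : ℝ) * (2 * α))).1.const_smul ((-1 : ℝ) ^ (1 - i) * (Nat.choose 1 i : ℝ))
  have hdif : ∀ z, dif 1 (2 * α) f (Θ z) = F α z - F (-α) z := by
    intro z
    set a := Real.cos β • z.1 + Real.sin β • z.2 with ha
    set b := A (Real.sin β • z.1 - Real.cos β • z.2) with hb
    have q1 : (Θ z).1 = Real.cos α • a - Real.sin α • b := by
      simp only [hΘ, hR, Tr_apply, Prod.map, id, Real.cos_neg, Real.sin_neg,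
        Real.cos_pi_div_two, Real.sin_pi_div_two, ha, hb, map_add, map_sub, map_smul]
      module
    have q2 : (Θ z).2 = Real.sin α • a + Real.cos α • b := by
      simp only [hΘ, hR, Tr_apply, Prod.map, id, Real.cos_neg, Real.sin_neg,
        Real.cos_pi_div_two, Real.sin_pi_div_two, ha, hb, map_add, map_sub, map_smul]
      module
    have q3 : Real.cos (2 * α) • (Θ z).1 + Real.sin (2 * α) • (Θ z).2 =
        Real.cos α • a + Real.sin α • b := by
      rw [q1, q2, rot_id]
    unfold dif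
    rw [Finset.sum_range_succ, Finset.sum_range_one]
    have e0 : ((1 : ℕ) : ℝ) * (2 * α) = 2 * α := by norm_num
    have e1 : Real.cos (((0 : ℕ) : ℝ) * (2 * α)) = 1 := by norm_num
    have e2 : Real.sin (((0 : ℕ) : ℝ) * (2 * α)) = 0 := by norm_num
    rw [e0, e1, e2, q3, q1]
    simp only [hF, ← ha, ← hb, Real.cos_neg, Real.sin_neg]
    norm_num
    rw [sub_eq_add_neg, sub_eq_add_neg]
    ring
  have hrep : ∀ s : ℝ, s = 1 ∨ s = -1 → ∀ x, ou μ t f (Tr A (s * φ) x) =
      ∫ y, F (s * α) (x, y) ∂μ := by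
    intro s hs x
    unfold ou
    rw [hr, hρ, ← int_rot h hf _ _ (s * ψ)]
    congr 1
    funext y
    simp only [hF]
    congr 1
    simp only [Tr_apply, map_sub, map_smul]
    rcases hs with hs | hs
    · subst hs
      simp only [one_mul]
      match_scalars
      · linear_combination -h1
      · linear_combination -h2
      · linear_combination -h3
      · linear_combination -h4
    · subst hs
      simp only [neg_mul, one_mul, Real.cos_neg, Real.sin_neg]
      match_scalars
      · linear_combination -h1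
      · linear_combination h2
      · linear_combination -h3
      · linear_combination h4
  have hFz : ∀ z, F (-α) z = f (Θ z).1 := by
    intro z
    simp only [hΘ, hR, hF, Tr_apply, Prod.map, id, Real.cos_neg, Real.sin_neg,
        Real.cos_pi_div_two, Real.sin_pi_div_two, map_add, map_sub, map_smul]
    congr 1
    module
  have hFm : MemLp (F (-α)) p (μ.prod μ) := by
    have : F (-α) = f ∘ (fun z => (Θ z).1) := by
      funext z; exact hFz z
    rw [this]
    exact hfp.comp_measurePreserving ((measurePreserving_fst (μ := μ) (ν := μ)).comp hΘmp)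
  have hdl : MemLp (dif 1 (2 * α) f) p (μ.prod μ) := by
    unfold dif
    refine memLp_finsetSum _ fun i _ => ?_
    exact (hcomp ((i : ℝ) * (2 * α))).const_smul ((-1 : ℝ) ^ (1 - i) * (Nat.choose 1 i : ℝ))
  have hdl2 : MemLp (fun z => F α z - F (-α) z) p (μ.prod μ) := by
    have : (fun z => F α z - F (-α) z) = dif 1 (2 * α) f ∘ Θ := by
      funext z; exact (hdif z).symm
    rw [this]
    exact hdl.comp_measurePreserving hΘmp
  have hFm' : MemLp (F α) p (μ.prod μ) := by
    have : F α = fun z => (F α z - F (-α) z) + F (-α) z := by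
      funext z; ring
    rw [this]
    exact hdl2.add hFm
  have hi1 := ((hFm'.integrable hp).prod_right_ae)
  have hi2 := ((hFm.integrable hp).prod_right_ae)
  have hae : (fun x => ou μ t f (Tr A φ x) - ou μ t f (Tr A (-φ) x)) =ᵐ[μ]
      fun x => ∫ y, (F α (x, y) - F (-α) (x, y)) ∂μ := by
    filter_upwards [hi1, hi2] with x h5 h6
    have e1 := hrep 1 (Or.inl rfl) x
    have e2 := hrep (-1) (Or.inr rfl) x
    rw [one_mul, one_mul] at e1
    rw [neg_one_mul, neg_one_mul] at e2
    rw [e1, e2, ← integral_sub h5 h6]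
  rw [eLpNorm_congr_ae hae]
  refine (ce_jensen μ p hp hp' (fun z => F α z - F (-α) z) hdl2.1).trans (le_of_eq ?_)
  have : (fun z => F α z - F (-α) z) = dif 1 (2 * α) f ∘ Θ := by
      funext z; exact (hdif z).symm
  rw [this]
  exact eLpNorm_comp_measurePreserving hdm hΘmp

end ou

end Pool.Agent.H970.DD
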