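import Pool.Agent.H970.DD.Defs
import Pool.Agent.H970.DD.Gau

/-! # The Wiener space and the swap of the two halves of the path -/

set_option autoImplicit false

open MeasureTheory ProbabilityTheory Set Filter
open scoped ENNReal NNReal Topology

namespace Pool.Agent.H970.DD

open Pool.Agent.R876.WM

variable {n : ℕ}

/-- evaluation of one coordinate -/
noncomputable def evi (i : Fin n) (t : ℝ) : StrongDual ℝ (Om n) :=
  (EuclideanSpace.proj i : W n →L[ℝ] ℝ).comp
    (ContinuousMap.evalCLM ℝ (Set.projIcc 0 1 zero_le_one t))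

theorem evi_apply (i : Fin n) (t : ℝ) (ω : Om n) : evi i t ω = (X t ω) i := rfl

theorem X_clamp (t : ℝ) (ω : Om n) : X t ω = X (max 0 (min 1 t)) ω := by
  unfold X
  congr 1
  ext
  rw [Set.coe_projIcc, Set.coe_projIcc]
  rcases le_total t 1 with h | h <;> rcases le_total 0 t with h' | h' <;>
    simp [h, h']

variable {μ : Measure (Om n)}

theorem memLp_dual (hμ : IsW μ) (L : StrongDual ℝ (Om n)) (p : ℝ≥0∞) (hp : p ≠ ∞) :
    MemLp (fun ω => L ω) p μ := by
  have := hμ.gauss
  exact IsGaussian.memLp_dual μ L p hp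

theorem int_mul (hμ : IsW μ) (L M : StrongDual ℝ (Om n)) : Integrable (fun ω => L ω * M ω) μ :=
  (memLp_dual hμ L 2 (by norm_num)).integrable_mul (memLp_dual hμ M 2 (by norm_num))

theorem cov_all (hμ : IsW μ) (i j : Fin n) {s t : ℝ} (hs : 0 ≤ s) (hs1 : s ≤ 1) (ht : 0 ≤ t)
    (ht1 : t ≤ 1) : ∫ ω, (X s ω) i * (X t ω) j ∂μ = if i = j then min s t else 0 := by
  have hc := hμ.cov
  unfold covW at hc
  rcases le_total s t with h | h
  · rw [hc i j s t hs h ht1, min_eq_left h]
  · have h1 := hc j i t s ht h hs1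
    have h2 : ∀ ω : Om n, (X s ω) i * (X t ω) j = (X t ω) j * (X s ω) i := fun ω => mul_comm _ _
    simp_rw [h2]
    rw [h1, min_eq_right h]
    by_cases hij : i = j
    · rw [if_pos hij, if_pos hij.symm]
    · rw [if_neg hij, if_neg (Ne.symm hij)]

theorem cov_comb (hμ : IsW μ) {ι κ : Type*} [Fintype ι] [Fintype κ] (u : ι → ℝ) (v : κ → ℝ)
    (i : ι → Fin n) (j : κ → Fin n) (s : ι → ℝ) (t : κ → ℝ) (hs : ∀ k, s k ∈ Icc (0 : ℝ) 1)
    (ht : ∀ k, t k ∈ Icc (0 : ℝ) 1) :
    ∫ ω, (∑ k, u k * (X (s k) ω) (i k)) * (∑ l, v l * (X (t l) ω) (j l)) ∂μ =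
      ∑ k, ∑ l, u k * v l * (if i k = j l then min (s k) (t l) else 0) := by
  have h1 : ∀ ω : Om n, (∑ k, u k * (X (s k) ω) (i k)) * (∑ l, v l * (X (t l) ω) (j l)) =
      ∑ k, ∑ l, u k * v l * ((X (s k) ω) (i k) * (X (t l) ω) (j l)) := by
    intro ω
    rw [Finset.sum_mul_sum]
    refine Finset.sum_congr rfl fun k _ => Finset.sum_congr rfl fun l _ => ?_
    ring
  simp_rw [h1]
  have h2 : ∀ k l, Integrable (fun ω => u k * v l * ((X (s k) ω) (i k) * (X (t l) ω) (j l))) μ :=
    fun k l => (int_mul hμ (evi (i k) (s k)) (evi (j l) (t l))).const_mul _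
  rw [integral_finsetSum _ fun k _ => integrable_finsetSum _ fun l _ => h2 k l]
  refine Finset.sum_congr rfl fun k _ => ?_
  rw [integral_finsetSum _ fun l _ => h2 k l]
  refine Finset.sum_congr rfl fun l _ => ?_
  rw [integral_const_mul, cov_all hμ _ _ (hs k).1 (hs k).2 (ht l).1 (ht l).2]

/-- finite combinations of evaluations have the same characteristic function -/
theorem cf_comb {μ ν : Measure (Om n)} (hμ : IsW μ) (hν : IsW ν) {ι : Type*} [Fintype ι]
    (u : ι → ℝ) (i : ι → Fin n) (s : ι → ℝ) (hs : ∀ k, s k ∈ Icc (0 : ℝ) 1) :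
    charFunDual μ (∑ k, u k • evi (i k) (s k)) = charFunDual ν (∑ k, u k • evi (i k) (s k)) := by
  set L : StrongDual ℝ (Om n) := ∑ k, u k • evi (i k) (s k) with hL
  have hLa : ∀ ω, L ω = ∑ k, u k * (X (s k) ω) (i k) := by
    intro ω
    rw [hL, sum_apply]
    rfl
  have hv : ∀ {ρ : Measure (Om n)}, IsW ρ → charFunDual ρ L = Complex.exp
      (-((∑ k, ∑ l, u k * u l * (if i k = i l then min (s k) (s l) else 0) : ℝ) : ℂ) / 2) := by
    intro ρ hρ
    have := hρ.gauss
    rw [IsGaussian.charFunDual_eq_of_forall_strongDual_eq_zero hρ.mean]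
    congr 3
    rw [variance_of_integral_eq_zero (by fun_prop) (hρ.mean L)]
    norm_cast
    rw [← cov_comb hρ u u i i s s hs hs]
    refine integral_congr_ae (Eventually.of_forall fun ω => ?_)
    change L ω ^ 2 = (∑ k, u k * (X (s k) ω) (i k)) * ∑ l, u l * (X (s l) ω) (i l)
    rw [← hLa, sq]
  rw [hv hμ, hv hν]

theorem functional (L : StrongDual ℝ (Om n)) (ω : Om n) :
    Tendsto (fun m : ℕ => ∑ k : Fin (m + 1) × Fin n,
      L (bernstein m k.1 • .const _ (EuclideanSpace.single k.2 1)) *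
        (X ((bernstein.z k.1 : unitInterval) : ℝ) ω) k.2) atTop (𝓝 (L ω)) := by
  have h1 := (L.continuous.tendsto ω).comp (bernsteinApproximation_uniform ω)
  refine h1.congr fun m => ?_
  simp only [Function.comp, bernsteinApproximation, map_sum]
  rw [Fintype.sum_prod_type]
  refine Finset.sum_congr rfl fun k _ => ?_
  have hX : X ((bernstein.z k : unitInterval) : ℝ) ω = ω (bernstein.z k) := by
    unfold X
    rw [Set.projIcc_val]
  simp only [hX]
  have h2 : ∀ i : Fin n, L (bernstein m k • .const _ (EuclideanSpace.single i 1)) *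
      (ω (bernstein.z k)) i = L ((ω (bernstein.z k)) i •
        (bernstein m k • .const _ (EuclideanSpace.single i 1))) := by
    intro i
    rw [mul_comm, ← smul_eq_mul]
    exact (map_smul L ((ω (bernstein.z k)) i) _).symm
  simp_rw [h2]
  rw [← map_sum]
  congr 1
  ext t j
  simp [Finset.sum_apply, Pi.single_apply, mul_comm]

theorem uniq {μ ν : Measure (Om n)} (hμ : IsW μ) (hν : IsW ν) : μ = ν := by
  have := hμ.gauss
  have := hν.gauss
  refine Measure.ext_of_charFunDual ?_
  funext L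
  set Lm : ℕ → StrongDual ℝ (Om n) := fun m => ∑ k : Fin (m + 1) × Fin n,
      L (bernstein m k.1 • .const _ (EuclideanSpace.single k.2 1)) •
        evi k.2 ((bernstein.z k.1 : unitInterval) : ℝ) with hLm
  have hlim : ∀ ω, Tendsto (fun m => Lm m ω) atTop (𝓝 (L ω)) := by
    intro ω
    refine (functional L ω).congr fun m => ?_
    rw [hLm]
    simp only [sum_apply]
    rfl
  have h1 : ∀ {ρ : Measure (Om n)}, IsProbabilityMeasure ρ →
      Tendsto (fun m => charFunDual ρ (Lm m)) atTop (𝓝 (charFunDual ρ L)) := by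
    intro ρ hρ
    simp_rw [charFunDual_apply]
    refine tendsto_integral_of_dominated_convergence (fun _ => 1) ?_ (integrable_const _) ?_ ?_
    · intro m
      exact (by fun_prop : Measurable fun ω : Om n =>
        Complex.exp (((Lm m ω : ℝ) : ℂ) * Complex.I)).aestronglyMeasurable
    · intro m
      refine Eventually.of_forall fun ω => ?_
      rw [Complex.norm_exp_ofReal_mul_I]
    · refine Eventually.of_forall fun ω => ?_
      have h2 : Continuous fun y : ℝ => Complex.exp ((y : ℂ) * Complex.I) := by fun_prop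
      exact (h2.tendsto _).comp (hlim ω)
  have h2 : ∀ m, charFunDual μ (Lm m) = charFunDual ν (Lm m) := fun m =>
    cf_comb hμ hν _ _ _ (fun k => (bernstein.z k.1 : unitInterval).2)
  have h3 := h1 (ρ := μ) inferInstance
  simp_rw [h2] at h3
  exact tendsto_nhds_unique h3 (h1 (ρ := ν) inferInstance)

end Pool.Agent.H970.DD
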