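import Pool.Graph.R_pool_sql_team_seeded_707910d6.T2H68.UB.P_EX
import Pool.Agent.H970.DD.Wie

/-! # Existence of the Wiener measure on `C([0,1], ℝ^n)` -/

set_option autoImplicit false

open MeasureTheory ProbabilityTheory Set Filter
open scoped ENNReal NNReal Topology

namespace Pool.Agent.H970.DD

open Pool.Agent.R876.WM Pool.Agent.Helper41

variable {n : ℕ}

section ev

variable {Z : Type} [MeasurableSpace Z]

theorem ball_meas (F : Z → Om n) (hF : ∀ t, Measurable (fun z => F z t)) (d : Om n) {r : ℝ}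
    (hr : 0 ≤ r) : MeasurableSet (F ⁻¹' Metric.closedBall d r) := by
  obtain ⟨S, hSc, hSd⟩ := TopologicalSpace.exists_countable_dense (Set.Icc (0 : ℝ) 1)
  have e : F ⁻¹' Metric.closedBall d r = ⋂ t ∈ S, {z | dist (F z t) (d t) ≤ r} := by
    ext z
    simp only [Set.mem_preimage, Metric.mem_closedBall, Set.mem_iInter, Set.mem_ofPred_eq]
    rw [ContinuousMap.dist_le hr]
    constructor
    · exact fun h t _ => h t
    · intro h
      have hcl : IsClosed {t | dist (F z t) (d t) ≤ r} :=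
        isClosed_le ((F z).continuous.dist d.continuous) continuous_const
      have hsub : closure S ⊆ {t | dist (F z t) (d t) ≤ r} := closure_minimal h hcl
      rw [hSd.closure_eq] at hsub
      exact fun t => hsub (Set.mem_univ t)
  rw [e]
  exact MeasurableSet.biInter hSc fun t _ =>
    measurableSet_le ((hF t).dist measurable_const) measurable_const

theorem open_meas (F : Z → Om n) (hF : ∀ t, Measurable (fun z => F z t)) (U : Set (Om n))
    (hU : IsOpen U) : MeasurableSet (F ⁻¹' U) := by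
  obtain ⟨D, hDc, hDd⟩ := TopologicalSpace.exists_countable_dense (Om n)
  set I : Set (Om n × ℕ) := {p | p.1 ∈ D ∧ Metric.closedBall p.1 (1 / ((p.2 : ℝ) + 1)) ⊆ U} with hI
  have hIc : I.Countable := by
    refine (hDc.prod (Set.countable_univ (α := ℕ))).mono ?_
    intro p hp
    exact ⟨hp.1, Set.mem_univ _⟩
  have e : F ⁻¹' U = ⋃ p ∈ I, F ⁻¹' Metric.closedBall p.1 (1 / ((p.2 : ℝ) + 1)) := by
    ext z
    simp only [Set.mem_preimage, Set.mem_iUnion, exists_prop]
    constructor
    · intro hz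
      obtain ⟨ε, hε, hsub⟩ := Metric.isOpen_iff.1 hU _ hz
      obtain ⟨m, hm⟩ := exists_nat_one_div_lt (half_pos hε)
      have hn0 : (0 : ℝ) < 1 / ((m : ℝ) + 1) := by positivity
      obtain ⟨d, hd, hdz⟩ := hDd.exists_dist_lt (F z) hn0
      refine ⟨(d, m), ⟨hd, fun w hw => hsub ?_⟩, hdz.le⟩
      rw [Metric.mem_closedBall] at hw
      rw [Metric.mem_ball]
      have h1 := dist_triangle w d (F z)
      rw [dist_comm d (F z)] at h1
      simp only at hw
      linarith
    · rintro ⟨p, hp, hz⟩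
      exact hp.2 hz
  rw [e]
  exact MeasurableSet.biUnion hIc fun p _ => ball_meas F hF p.1 (by positivity)

end ev

variable {Ω : Type} [MeasurableSpace Ω] {P : Measure Ω}

/-- the path -/
noncomputable def pth (B : Fin n × ℝ≥0 × ℝ≥0 → Ω → ℝ)
    (hc : ∀ ω c, Continuous (fun p : ℝ≥0 × ℝ≥0 => B (c, p.1, p.2) ω)) (ω : Ω) : Om n :=
  ⟨fun t => WithLp.toLp 2 fun i => B (i, (t : ℝ).toNNReal, 1) ω, by
    refine (PiLp.continuous_toLp 2 _).comp (continuous_pi fun i => ?_)
    exact (hc ω i).comp (f := fun t : Set.Icc (0 : ℝ) 1 => ((t : ℝ).toNNReal, 1))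
        ((continuous_real_toNNReal.comp continuous_subtype_val).prodMk continuous_const)⟩

variable {B : Fin n × ℝ≥0 × ℝ≥0 → Ω → ℝ}
  {hc : ∀ ω c, Continuous (fun p : ℝ≥0 × ℝ≥0 => B (c, p.1, p.2) ω)}

omit [MeasurableSpace Ω] in
theorem pth_apply (ω : Ω) (t : Set.Icc (0 : ℝ) 1) (i : Fin n) :
    (pth B hc ω t) i = B (i, (t : ℝ).toNNReal, 1) ω := rfl

omit [MeasurableSpace Ω] in
theorem X_pth {s : ℝ} (hs : s ∈ Icc (0 : ℝ) 1) (ω : Ω) (i : Fin n) :
    (X s (pth B hc ω)) i = B (i, s.toNNReal, 1) ω := by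
  unfold X
  rw [Set.projIcc_of_mem _ hs, pth_apply]

theorem pth_meas (hB : ∀ q, Measurable (B q)) : Measurable (pth B hc) := by
  refine measurable_of_isOpen fun U hU => open_meas _ (fun t => ?_) U hU
  have h : (fun z => pth B hc z t) = fun ω => WithLp.toLp 2 fun i =>
      B (i, (t : ℝ).toNNReal, 1) ω := rfl
  rw [h]
  exact (PiLp.continuous_toLp 2 _).measurable.comp (measurable_pi_lambda _ fun i => hB _)

theorem comb [IsProbabilityMeasure P] (hB : IsSheet B P) {ι : Type} [Fintype ι] (r : ι → ℝ≥0)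
    (i : ι → Fin n) (a : ι → ℝ) :
    ∃ v : ℝ≥0, P.map (fun ω => ∑ k, a k * B (i k, r k, 1) ω) = gaussianReal 0 v := by
  set q : ι → Fin n × ℝ≥0 × ℝ≥0 := fun k => (i k, r k, 1) with hq
  have hG := (hB.gauss.comp_right q).smul a
  have hG2 := hG.hasGaussianLaw_fun_sum (I := Finset.univ)
  set Z : Ω → ℝ := fun ω => ∑ k, a k * B (q k) ω with hZdef
  have hZ : HasGaussianLaw Z P := hG2
  have hmap := hZ.map_eq_gaussianReal
  have hmem : ∀ k, MemLp (fun ω => a k * B (q k) ω) 2 P := fun k => (hB.memLp _).const_mul _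
  have hmean : P[Z] = 0 := by
    rw [hZdef]
    rw [integral_finsetSum _ (fun k _ => (hmem k).integrable (by norm_num))]
    refine Finset.sum_eq_zero fun k _ => ?_
    rw [integral_const_mul]
    have := hB.char.mean hB.meas (q k)
    rw [this, mul_zero]
  rw [hmean] at hmap
  exact ⟨_, hmap⟩

theorem functional_gauss [IsProbabilityMeasure P] (hB : IsSheet B P) (L : StrongDual ℝ (Om n)) :
    ∃ w : ℝ≥0, (P.map (pth B hc)).map L = gaussianReal 0 w := by
  have hm := pth_meas (hc := hc) hB.meas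
  rw [Measure.map_map (by fun_prop) hm]
  choose v hv using fun m : ℕ => comb (P := P) hB
    (fun k : Fin (m + 1) × Fin n => ((bernstein.z k.1 : unitInterval) : ℝ).toNNReal)
    (fun k => k.2) (fun k => L (bernstein m k.1 • .const _ (EuclideanSpace.single k.2 1)))
  refine Pool.Agent.T2H68.UB.PkgEX.lim_gauss _ _ ?_ (by fun_prop) v hv ?_
  · intro m
    have := hB.meas
    fun_prop
  · intro ω
    refine (functional L (pth B hc ω)).congr fun m => ?_
    refine Finset.sum_congr rfl fun k _ => ?_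
    rw [X_pth (bernstein.z k.1 : unitInterval).2]

/-- existence of the Wiener measure -/
theorem exists_wiener (n : ℕ) : ∃ μ : Measure (Om n), IsW μ := by
  obtain ⟨Ω, mΩ, P, hP, B, hB, hc⟩ := exists_sheet n
  have hm := pth_meas (hc := hc) hB.meas
  have hmap := functional_gauss (hc := hc) hB
  have hmean : ∀ c t, ∫ ω, B (c, t, 1) ω ∂P = 0 := fun c t => hB.char.mean hB.meas _
  have hcov : ∀ c c' s t, ∫ ω, B (c, s, 1) ω * B (c', t, 1) ω ∂P =
      if c = c' then ((min s t : ℝ≥0) : ℝ) else 0 := by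
    intro c c' s t
    have h1 := hB.cov (c, s, 1) (c', t, 1)
    rw [covariance_eq_sub (hB.memLp _) (hB.memLp _)] at h1
    rw [hmean, zero_mul, sub_zero] at h1
    have h2 : ∫ ω, B (c, s, 1) ω * B (c', t, 1) ω ∂P = sheetK (c, s, 1) (c', t, 1) := h1
    rw [h2]
    simp [sheetK]
  have hXm : ∀ (s : ℝ) (i : Fin n), Measurable fun ω : Om n => (X s ω) i := fun s i =>
    (evi i s).continuous.measurable
  refine ⟨P.map (pth B hc), ?_, ?_, ?_⟩
  · refine isGaussian_of_map_eq_gaussianReal fun L => ?_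
    obtain ⟨w, hw⟩ := hmap L
    exact ⟨0, w, hw⟩
  · intro L
    obtain ⟨w, hw⟩ := hmap L
    have h1 : ∫ ω, L ω ∂(P.map (pth B hc)) = ∫ x, x ∂((P.map (pth B hc)).map L) :=
      (integral_map (μ := P.map (pth B hc)) (φ := L) (f := fun x => x) (by fun_prop)
        (by fun_prop)).symm
    rw [h1, hw, integral_id_gaussianReal]
  · intro i j s t hs hst ht
    have h0 : AEStronglyMeasurable (fun ω : Om n => (X s ω) i * (X t ω) j)
        (P.map (pth B hc)) := ((hXm s i).mul (hXm t j)).aestronglyMeasurable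
    unfold covW
    rw [integral_map hm.aemeasurable h0]
    simp_rw [X_pth (hc := hc) (show s ∈ Icc (0 : ℝ) 1 from ⟨hs, hst.trans ht⟩),
      X_pth (hc := hc) (show t ∈ Icc (0 : ℝ) 1 from ⟨hs.trans hst, ht⟩)]
    rw [hcov, min_eq_left (Real.toNNReal_le_toNNReal hst), Real.coe_toNNReal _ hs]

end Pool.Agent.H970.DD
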