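import Mathlib

/-! # Isometry groups: Marchaud inequality, differentiability -/

set_option autoImplicit false

open Set Filter
open scoped Topology

namespace Pool.Agent.H970.DD

variable {E : Type*} [NormedAddCommGroup E] [NormedSpace ℝ E]

/-- a group of linear contractions -/
structure Grp (C : ℝ → E →L[ℝ] E) : Prop where
  zero : C 0 = ContinuousLinearMap.id ℝ E
  add : ∀ s t, C (s + t) = (C s).comp (C t)
  norm_le : ∀ t, ‖C t‖ ≤ 1

/-- the difference -/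
noncomputable def Sd (C : ℝ → E →L[ℝ] E) (t : ℝ) : E →L[ℝ] E := C t - 1

variable {C : ℝ → E →L[ℝ] E}

theorem Sd_norm_le (hC : Grp C) (t : ℝ) : ‖Sd C t‖ ≤ 2 := by
  unfold Sd
  calc ‖C t - 1‖ ≤ ‖C t‖ + ‖(1 : E →L[ℝ] E)‖ := norm_sub_le _ _
    _ ≤ 1 + 1 := add_le_add (hC.norm_le t) ContinuousLinearMap.norm_id_le
    _ = 2 := by norm_num

theorem Sd_pow_norm_le (hC : Grp C) (t : ℝ) (k : ℕ) (f : E) :
    ‖(Sd C t ^ k) f‖ ≤ 2 ^ k * ‖f‖ := by
  induction k with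
  | zero => simp
  | succ k ih =>
    rw [pow_succ', mul_apply_eq_comp]
    calc ‖Sd C t ((Sd C t ^ k) f)‖ ≤ ‖Sd C t‖ * ‖(Sd C t ^ k) f‖ := ContinuousLinearMap.le_opNorm _ _
      _ ≤ 2 * (2 ^ k * ‖f‖) := mul_le_mul (Sd_norm_le hC t) ih (norm_nonneg _) (by norm_num)
      _ = 2 ^ (k + 1) * ‖f‖ := by ring

theorem Sd_two (hC : Grp C) (t : ℝ) : Sd C (2 * t) = Sd C t * (2 + Sd C t) := by
  unfold Sd
  have h : C (2 * t) = C t * C t := by
    rw [two_mul, hC.add]; rfl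
  rw [h]
  noncomm_ring

/-- the basic step -/
theorem step (hC : Grp C) (t : ℝ) (k : ℕ) (f : E) :
    2 ^ k * ‖(Sd C t ^ k) f‖ ≤ ‖(Sd C (2 * t) ^ k) f‖ +
      k * 2 ^ (k - 1) * ‖(Sd C t ^ (k + 1)) f‖ := by
  set S := Sd C t with hS
  have hcomm : Commute S (2 + S) := by
    unfold Commute SemiconjBy
    noncomm_ring
  have h1 : Sd C (2 * t) ^ k = S ^ k * (2 + S) ^ k := by
    rw [Sd_two hC, ← hS, hcomm.mul_pow]
  set Q : E →L[ℝ] E := ∑ i ∈ Finset.range k, (2 + S) ^ i * 2 ^ (k - 1 - i) with hQ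
  have hc2 : Commute (2 + S) (2 : E →L[ℝ] E) := by
    exact (Commute.ofNat_right _ 2)
  have h2 : (2 + S) ^ k - 2 ^ k = S * Q := by
    have := hc2.mul_geom_sum₂ k
    rw [← this]
    simp [hQ]
  have hn : ‖(2 : E →L[ℝ] E) + S‖ ≤ 2 := by
    have : (2 : E →L[ℝ] E) + S = 1 + C t := by
      rw [hS]; unfold Sd
      rw [← one_add_one_eq_two]
      abel
    rw [this]
    calc ‖1 + C t‖ ≤ ‖(1 : E →L[ℝ] E)‖ + ‖C t‖ := norm_add_le _ _
      _ ≤ 1 + 1 := add_le_add ContinuousLinearMap.norm_id_le (hC.norm_le t)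
      _ = 2 := by norm_num
  have hpw : ∀ i : ℕ, ∀ g : E, ‖(((2 : E →L[ℝ] E) + S) ^ i) g‖ ≤ 2 ^ i * ‖g‖ := by
    intro i
    induction i with
    | zero => intro g; simp
    | succ i ih =>
      intro g
      rw [pow_succ', mul_apply_eq_comp]
      calc ‖(2 + S) (((2 + S) ^ i) g)‖ ≤ ‖(2 : E →L[ℝ] E) + S‖ * ‖((2 + S) ^ i) g‖ :=
            ContinuousLinearMap.le_opNorm _ _
        _ ≤ 2 * (2 ^ i * ‖g‖) := mul_le_mul hn (ih g) (norm_nonneg _) (by norm_num)
        _ = 2 ^ (i + 1) * ‖g‖ := by ring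
  have h2a : ∀ (j : ℕ) (g : E), ((2 : E →L[ℝ] E) ^ j) g = (2 : ℝ) ^ j • g := by
    intro j g
    have : (2 : E →L[ℝ] E) ^ j = ((2 : ℝ) ^ j) • (1 : E →L[ℝ] E) := by
      rw [← one_add_one_eq_two]
      have h3 : (1 : E →L[ℝ] E) + 1 = (2 : ℝ) • (1 : E →L[ℝ] E) := by
        rw [two_smul]
      rw [h3, smul_pow, one_pow]
    rw [this]
    rfl
  have hQn : ∀ g : E, ‖Q g‖ ≤ k * 2 ^ (k - 1) * ‖g‖ := by
    intro g
    rw [hQ, sum_apply]
    calc ‖∑ i ∈ Finset.range k, ((2 + S) ^ i * 2 ^ (k - 1 - i)) g‖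
        ≤ ∑ i ∈ Finset.range k, ‖((2 + S) ^ i * 2 ^ (k - 1 - i)) g‖ := norm_sum_le _ _
      _ ≤ ∑ _i ∈ Finset.range k, 2 ^ (k - 1) * ‖g‖ := by
          refine Finset.sum_le_sum fun i hi => ?_
          rw [mul_apply_eq_comp, h2a, map_smul, norm_smul]
          have hi' := Finset.mem_range.1 hi
          have e : (2 : ℝ) ^ (k - 1) = 2 ^ (k - 1 - i) * 2 ^ i := by
            rw [← pow_add]; congr 1; omega
          rw [e, mul_assoc, Real.norm_of_nonneg (by positivity)]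
          exact mul_le_mul_of_nonneg_left (hpw i g) (by positivity)
      _ = k * 2 ^ (k - 1) * ‖g‖ := by
          rw [Finset.sum_const, Finset.card_range, nsmul_eq_mul]; ring
  have h3 : (2 : ℝ) ^ k • (S ^ k) f = (Sd C (2 * t) ^ k) f - Q ((S ^ (k + 1)) f) := by
    have h4 : S ^ k * (2 + S) ^ k = (2 : E →L[ℝ] E) ^ k * S ^ k + Q * S ^ (k + 1) := by
      have hSQ : Commute S Q := by
        rw [hQ]
        refine Commute.sum_right _ _ _ fun i _ => ?_
        refine Commute.mul_right (hcomm.pow_right i) ?_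
        exact (Commute.ofNat_right S 2).pow_right _
      have h5 : (2 + S) ^ k = 2 ^ k + S * Q := by
        rw [← h2]; abel
      rw [h5, mul_add]
      congr 1
      · exact ((Commute.ofNat_right S 2).pow_pow k k).eq
      · rw [← mul_assoc, ← pow_succ]
        exact (hSQ.pow_left (k + 1)).eq
    rw [h1, h4, add_apply, mul_apply_eq_comp,
      mul_apply_eq_comp, h2a]
    abel
  calc 2 ^ k * ‖(S ^ k) f‖ = ‖(2 : ℝ) ^ k • (S ^ k) f‖ := by
        rw [norm_smul, Real.norm_of_nonneg (by positivity)]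
    _ = ‖(Sd C (2 * t) ^ k) f - Q ((S ^ (k + 1)) f)‖ := by rw [h3]
    _ ≤ ‖(Sd C (2 * t) ^ k) f‖ + ‖Q ((S ^ (k + 1)) f)‖ := norm_sub_le _ _
    _ ≤ _ := by
        gcongr
        exact hQn _

theorem down (hC : Grp C) {k : ℕ} (hk : 2 ≤ k) {f : E} {M B : ℝ} (hf : ‖f‖ ≤ M) (hB : 0 ≤ B)
    (h : ∀ θ : ℝ, 0 < θ → θ ≤ 1 → ‖(Sd C θ ^ (k + 1)) f‖ ≤ B * (θ * √θ)) :
    ∀ θ : ℝ, 0 < θ → θ ≤ 1 → ‖(Sd C θ ^ k) f‖ ≤ (2 * k * B + 2 ^ (k + 2) * M) * (θ * √θ) := by
  have hM : 0 ≤ M := (norm_nonneg f).trans hf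
  have hk2 : (2 : ℝ) ≤ k := by exact_mod_cast hk
  set D : ℝ := 2 * k * B + 2 ^ (k + 2) * M with hD
  have hD0 : 0 ≤ D := by positivity
  have main : ∀ N : ℕ, ∀ θ : ℝ, 0 < θ → θ ≤ 1 → 1 ≤ 2 ^ (N + 1) * θ →
      ‖(Sd C θ ^ k) f‖ ≤ D * (θ * √θ) := by
    intro N
    induction N with
    | zero =>
      intro θ h0 h1 h2
      have h3 : 1 / 2 ≤ θ := by
        rw [zero_add, pow_one] at h2
        linarith
      have h4 : (1 : ℝ) / 2 ≤ √θ := by
        rw [Real.le_sqrt' (by norm_num)]; nlinarith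
      calc ‖(Sd C θ ^ k) f‖ ≤ 2 ^ k * ‖f‖ := Sd_pow_norm_le hC θ k f
        _ ≤ 2 ^ k * M := by gcongr
        _ = (2 ^ (k + 2) * M) * (1 / 2 * (1 / 2)) := by ring
        _ ≤ D * (θ * √θ) := by
          gcongr
          rw [hD]
          have : 0 ≤ 2 * k * B := by positivity
          linarith
    | succ N ih =>
      intro θ h0 h1 h2
      rcases le_or_gt (1 / 2) θ with h3 | h3
      · have h4 : (1 : ℝ) / 2 ≤ √θ := by
          rw [Real.le_sqrt' (by norm_num)]; nlinarith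
        calc ‖(Sd C θ ^ k) f‖ ≤ 2 ^ k * ‖f‖ := Sd_pow_norm_le hC θ k f
          _ ≤ 2 ^ k * M := by gcongr
          _ = (2 ^ (k + 2) * M) * (1 / 2 * (1 / 2)) := by ring
          _ ≤ D * (θ * √θ) := by
            gcongr
            rw [hD]
            have : 0 ≤ 2 * k * B := by positivity
            linarith
      · have e1 := ih (2 * θ) (by linarith) (by linarith) (by
          have : (2 : ℝ) ^ (N + 1 + 1) * θ = 2 ^ (N + 1) * (2 * θ) := by ring
          linarith [this])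
        have e2 := step hC θ k f
        have e3 := h θ h0 h1
        have hs2 : √(2 * θ) ≤ 3 / 2 * √θ := by
          rw [Real.sqrt_mul (by norm_num)]
          gcongr
          rw [Real.sqrt_le_left (by norm_num)]
          norm_num
        have hθs : 0 ≤ θ * √θ := by positivity
        set a : ℝ := ‖(Sd C θ ^ k) f‖ with ha
        set x : ℝ := θ * √θ with hx
        have e4 : 2 ^ k * a ≤ D * (2 * θ * (3 / 2 * √θ)) + k * 2 ^ (k - 1) * (B * x) := by
          refine e2.trans (add_le_add (e1.trans ?_) ?_)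
          · gcongr
          · gcongr
        have e5 : D * (2 * θ * (3 / 2 * √θ)) = 3 * D * x := by rw [hx]; ring
        have e6 : (2 : ℝ) ^ k = 2 * 2 ^ (k - 1) := by
          rw [← pow_succ']; congr 1; omega
        have e7 : (2 : ℝ) ≤ 2 ^ (k - 1) := by
          calc (2 : ℝ) = 2 ^ 1 := by norm_num
            _ ≤ 2 ^ (k - 1) := pow_le_pow_right₀ (by norm_num) (by omega)
        set P : ℝ := 2 ^ (k - 1) with hP
        have e8 : k * B ≤ D / 2 := by
          rw [hD]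
          have : 0 ≤ (2 : ℝ) ^ (k + 2) * M := by positivity
          linarith
        -- `2 P a ≤ 3 D x + k P B x`
        rw [e5, e6] at e4
        have e9 : k * P * (B * x) ≤ D / 2 * P * x := by
          have : k * P * (B * x) = (k * B) * (P * x) := by ring
          rw [this]
          calc (k * B) * (P * x) ≤ (D / 2) * (P * x) := by gcongr
            _ = D / 2 * P * x := by ring
        have e10 : 3 * D * x ≤ 3 / 2 * P * D * x := by
          have : 0 ≤ D * x := by positivity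
          nlinarith
        have e11 : 2 * P * a ≤ 2 * P * (D * x) := by
          calc 2 * P * a ≤ 3 / 2 * P * D * x + D / 2 * P * x := by linarith
            _ = 2 * P * (D * x) := by ring
        exact le_of_mul_le_mul_left e11 (by positivity)
  intro θ h0 h1
  obtain ⟨N, hN⟩ := pow_unbounded_of_one_lt (1 / θ) (one_lt_two)
  refine main N θ h0 h1 ?_
  have : 1 / θ * θ = 1 := by field_simp
  calc (1 : ℝ) = 1 / θ * θ := this.symm
    _ ≤ 2 ^ N * θ := by gcongr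
    _ ≤ 2 ^ (N + 1) * θ := by
      gcongr
      · norm_num
      · omega

theorem last (hC : Grp C) {f : E} {M B : ℝ} (hf : ‖f‖ ≤ M) (hB : 0 ≤ B)
    (h : ∀ θ : ℝ, 0 < θ → θ ≤ 1 → ‖(Sd C θ ^ 2) f‖ ≤ B * (θ * √θ)) :
    ∀ θ : ℝ, 0 < θ → θ ≤ 1 → ‖Sd C θ f‖ ≤ (4 * M + 2 * B) * θ := by
  have hM : 0 ≤ M := (norm_nonneg f).trans hf
  have base : ∀ θ : ℝ, 1 / 2 ≤ θ → θ ≤ 1 → ‖Sd C θ f‖ ≤ (4 * M + 2 * B - 2 * B * √θ) * θ := by
    intro θ h3 h1
    have h4 : √θ ≤ 1 := by rw [Real.sqrt_le_left (by norm_num)]; linarith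
    have h5 : 4 * M ≤ 4 * M + 2 * B - 2 * B * √θ := by nlinarith
    calc ‖Sd C θ f‖ = ‖(Sd C θ ^ 1) f‖ := by rw [pow_one]
      _ ≤ 2 ^ 1 * ‖f‖ := Sd_pow_norm_le hC θ 1 f
      _ ≤ 2 * M := by rw [pow_one]; gcongr
      _ = 4 * M * (1 / 2) := by ring
      _ ≤ (4 * M + 2 * B - 2 * B * √θ) * θ := by
        refine mul_le_mul h5 h3 (by norm_num) (by linarith)
  have main : ∀ N : ℕ, ∀ θ : ℝ, 0 < θ → θ ≤ 1 → 1 ≤ 2 ^ (N + 1) * θ →
      ‖Sd C θ f‖ ≤ (4 * M + 2 * B - 2 * B * √θ) * θ := by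
    intro N
    induction N with
    | zero =>
      intro θ h0 h1 h2
      rw [zero_add, pow_one] at h2
      exact base θ (by linarith) h1
    | succ N ih =>
      intro θ h0 h1 h2
      rcases le_or_gt (1 / 2) θ with h3 | h3
      · exact base θ h3 h1
      · have e1 := ih (2 * θ) (by linarith) (by linarith) (by
          have : (2 : ℝ) ^ (N + 1 + 1) * θ = 2 ^ (N + 1) * (2 * θ) := by ring
          linarith [this])
        have e2 := step hC θ 1 f
        have e3 := h θ h0 h1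
        simp only [pow_one, Nat.cast_one, Nat.sub_self, pow_zero, mul_one, one_mul] at e2
        have hs2 : 7 / 5 * √θ ≤ √(2 * θ) := by
          rw [Real.sqrt_mul (by norm_num)]
          gcongr
          apply Real.le_sqrt_of_sq_le
          norm_num
        have hx : 0 ≤ √θ := Real.sqrt_nonneg _
        have e4 : (4 * M + 2 * B - 2 * B * √(2 * θ)) * (2 * θ) ≤
            (4 * M + 2 * B - 2 * B * (7 / 5 * √θ)) * (2 * θ) := by gcongr
        have e5 : 0 ≤ B * (θ * √θ) := by positivity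
        nlinarith
  intro θ h0 h1
  obtain ⟨N, hN⟩ := pow_unbounded_of_one_lt (1 / θ) (one_lt_two)
  have h6 := main N θ h0 h1 (by
    have : 1 / θ * θ = 1 := by field_simp
    calc (1 : ℝ) = 1 / θ * θ := this.symm
      _ ≤ 2 ^ N * θ := by gcongr
      _ ≤ 2 ^ (N + 1) * θ := by
        gcongr
        · norm_num
        · omega)
  refine h6.trans ?_
  gcongr
  have : 0 ≤ 2 * B * √θ := by positivity
  linarith

/-- Marchaud's inequality -/
theorem marchaud (hC : Grp C) (K : ℕ) (hK : 2 ≤ K) : ∃ B : ℝ, 0 ≤ B ∧ ∀ (f : E) (M : ℝ),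
    ‖f‖ ≤ M → (∀ θ : ℝ, 0 < θ → θ ≤ 1 → ‖(Sd C θ ^ K) f‖ ≤ M * (θ * √θ)) →
    ∀ θ : ℝ, 0 < θ → θ ≤ 1 → ‖Sd C θ f‖ ≤ B * M * θ := by
  have h1 : ∃ B : ℝ, 0 ≤ B ∧ ∀ (f : E) (M : ℝ),
      ‖f‖ ≤ M → (∀ θ : ℝ, 0 < θ → θ ≤ 1 → ‖(Sd C θ ^ K) f‖ ≤ M * (θ * √θ)) →
      ∀ θ : ℝ, 0 < θ → θ ≤ 1 → ‖(Sd C θ ^ 2) f‖ ≤ B * M * (θ * √θ) := by
    induction K, hK using Nat.le_induction with
    | base => exact ⟨1, by norm_num, fun f M _ h θ h0 h1 => by rw [one_mul]; exact h θ h0 h1⟩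
    | succ K hK ih =>
      obtain ⟨B, hB, ih⟩ := ih
      refine ⟨B * (2 * K + 2 ^ (K + 2)), by positivity, fun f M hf h θ h0 h1 => ?_⟩
      have hM : 0 ≤ M := (norm_nonneg f).trans hf
      have h2 := down hC hK hf hM h
      have h3 : 2 * K * M + 2 ^ (K + 2) * M = (2 * K + 2 ^ (K + 2)) * M := by ring
      rw [h3] at h2
      have h4 : ‖f‖ ≤ (2 * K + 2 ^ (K + 2)) * M := by
        refine hf.trans (le_mul_of_one_le_left hM ?_)
        have : (1 : ℝ) ≤ 2 ^ (K + 2) := one_le_pow₀ (by norm_num)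
        have : (0 : ℝ) ≤ 2 * K := by positivity
        linarith
      have h5 := ih f _ h4 h2 θ h0 h1
      calc _ ≤ _ := h5
        _ = _ := by ring
  obtain ⟨B, hB, h1⟩ := h1
  refine ⟨4 + 2 * B, by positivity, fun f M hf h θ h0 h2 => ?_⟩
  have hM : 0 ≤ M := (norm_nonneg f).trans hf
  have h3 := last hC hf (mul_nonneg hB hM) (h1 f M hf h) θ h0 h2
  calc _ ≤ _ := h3
    _ = _ := by ring

end Pool.Agent.H970.DD
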