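import Pool.Agent.H970.DD.Swap
import Pool.Agent.H970.DD.Der
import Pool.Agent.H970.DD.Alg

/-! # Linear functionals; the derivation on `D^∞` -/

set_option autoImplicit false

open MeasureTheory ProbabilityTheory Set Filter
open scoped ENNReal NNReal Topology

namespace Pool.Agent.H970.DD

open Pool.Agent.R876.WM

variable {n : ℕ} {μ : Measure (Om n)}

theorem ou_dual (hμ : IsW μ) (L : StrongDual ℝ (Om n)) (t : ℝ) (x : Om n) :
    ou μ t (fun ω => L ω) x = Real.exp (-t) * L x := by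
  have := hμ.gauss
  unfold ou
  have h1 : ∀ y : Om n, L (Real.exp (-t) • x + √(1 - Real.exp (-2 * t)) • y) =
      Real.exp (-t) * L x + √(1 - Real.exp (-2 * t)) * L y := by
    intro y
    rw [map_add, map_smul, map_smul, smul_eq_mul, smul_eq_mul]
  simp_rw [h1]
  have hi : Integrable (fun y => L y) μ :=
    (memLp_dual hμ L 1 (by norm_num)).integrable le_rfl
  rw [integral_add (integrable_const _) (hi.const_mul _), integral_const, integral_const_mul,
    hμ.mean L]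
  simp

theorem pot_dual (hμ : IsW μ) (L : StrongDual ℝ (Om n)) (r : ℕ) :
    pot μ r (fun ω => ((2 : ℝ) ^ ((r : ℝ) / 2)) * L ω) = fun ω => L ω := by
  rw [pot_smul]
  unfold pot
  split_ifs with h
  · rw [h]
    simp
  · have ha : (0 : ℝ) < (r : ℝ) / 2 := by
      have : 0 < r := Nat.pos_of_ne_zero h
      positivity
    set a : ℝ := (r : ℝ) / 2 with hadef
    funext x
    unfold bes
    simp_rw [ou_dual hμ]
    have h1 : ∀ t : ℝ, (t ^ (a - 1) * Real.exp (-t) / Real.Gamma a) • (Real.exp (-t) * L x) =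
        (L x / Real.Gamma a) * (t ^ (a - 1) * Real.exp (-(2 * t))) := by
      intro t
      have : Real.exp (-(2 * t)) = Real.exp (-t) * Real.exp (-t) := by
        rw [← Real.exp_add]; congr 1; ring
      rw [this, smul_eq_mul]
      ring
    simp_rw [h1]
    rw [integral_const_mul, Real.integral_rpow_mul_exp_neg_mul_Ioi ha (by norm_num)]
    have hG : Real.Gamma a ≠ 0 := (Real.Gamma_pos_of_pos ha).ne'
    rw [one_div, Real.inv_rpow (by norm_num)]
    have h2 : (2 : ℝ) ^ a ≠ 0 := by positivity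
    field_simp

theorem dinf_dual (hμ : IsW μ) (L : StrongDual ℝ (Om n)) : Dinf μ (fun ω => L ω) := by
  intro p hp r
  refine ⟨fun ω => ((2 : ℝ) ^ ((r : ℝ) / 2)) * L ω, ?_, ?_⟩
  · exact (memLp_dual hμ L _ ENNReal.ofReal_ne_top).const_mul _
  · rw [pot_dual hμ]

theorem ofReal_nat (P : ℕ) : ENNReal.ofReal (P : ℝ) = (P : ℝ≥0∞) := ENNReal.ofReal_natCast P

/-- the derivative of a functional in `D^∞` -/
theorem dinf_der {A : Om n →L[ℝ] Om n} (hC : Ctx μ A) {f : Om n → ℝ} (hf : Dinf μ f) (P : ℕ)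
    (hP : 2 ≤ P) : MemLp f (P : ℝ≥0∞) μ ∧ MemLp (delta μ A f) (P : ℝ≥0∞) μ ∧
      DerLp μ A (P : ℝ≥0∞) f (delta μ A f) := by
  have := hC.prob
  obtain ⟨s, D, hD, h⟩ := delta_cont hC P hP 0
  have h1 : (1 : ℝ) < ((2 * (2 * P) : ℕ) : ℝ) := by
    exact_mod_cast (by omega : 1 < 2 * (2 * P))
  obtain ⟨U, hU⟩ := hf _ h1 s
  rw [ofReal_nat] at hU
  obtain ⟨h2, h3, -⟩ := h f U hU
  refine ⟨?_, h2, h3⟩
  have hpq : (P : ℝ≥0∞) ≤ ((2 * (2 * P) : ℕ) : ℝ≥0∞) := by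
    exact_mod_cast (by omega : P ≤ 2 * (2 * P))
  have hF4 := fact_nat (show 1 ≤ 2 * (2 * P) by omega)
  exact ((memLp_congr_ae hU.2).2
    ((hC.pot _ hF4.out (ENNReal.natCast_ne_top _)).2.1 s U hU.1).1).mono_exponent hpq

theorem delta_isDer (hμ : IsW μ) {A : Om n →L[ℝ] Om n} (hC : Ctx μ A) :
    IsDer μ (delta μ A) := by
  have := hμ.gauss
  have := hC.prob
  have hrot := hC.rot
  have hcont : ∀ p : ℝ, 1 < p → ∀ r : ℕ, ∃ q : ℝ, 1 < q ∧ ∃ (s : ℕ) (C : ℝ≥0), ∀ f : Om n → ℝ,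
      ∀ U : Om n → ℝ, IsD μ (ENNReal.ofReal q) s f U →
        ∃ U' : Om n → ℝ, IsD μ (ENNReal.ofReal p) r (delta μ A f) U' ∧
          eLpNorm U' (ENNReal.ofReal p) μ ≤ C * eLpNorm U (ENNReal.ofReal q) μ := by
    intro p hp r
    set P : ℕ := max 2 ⌈p⌉₊ with hPdef
    have hP : 2 ≤ P := le_max_left _ _
    have hpP : ENNReal.ofReal p ≤ (P : ℝ≥0∞) := by
      rw [← ofReal_nat]
      apply ENNReal.ofReal_le_ofReal
      exact (Nat.le_ceil p).trans (by exact_mod_cast le_max_right _ _)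
    obtain ⟨s, D, hD, h⟩ := delta_cont hC P hP r
    refine ⟨((2 * (2 * P) : ℕ) : ℝ), by exact_mod_cast (by omega : 1 < 2 * (2 * P)), s,
      D.toNNReal, fun f U hU => ?_⟩
    rw [ofReal_nat] at hU ⊢
    obtain ⟨-, -, U', hU', hb⟩ := h f U hU
    refine ⟨U', ⟨hU'.1.mono_exponent hpP, hU'.2⟩, ?_⟩
    exact (eLpNorm_le_eLpNorm_of_exponent_le hpP hU'.1.1).trans hb
  refine ⟨?_, ?_, ?_, ?_, ?_, ?_⟩
  · intro f g hf hfg
    obtain ⟨h1, h2, h3⟩ := dinf_der hC hf 2 le_rfl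
    have h4 := DerLp_congr hrot hfg h3
    exact (delta_eq hrot ((memLp_congr_ae hfg).1 h1).1 h2 h4).symm
  · intro f hf p hp r
    obtain ⟨q, hq, s, C, h⟩ := hcont p hp r
    obtain ⟨U, hU⟩ := hf q hq s
    obtain ⟨U', hU', -⟩ := h f U hU
    exact ⟨U', hU'⟩
  · intro f g hf hg
    obtain ⟨h1, h2, h3⟩ := dinf_der hC hf 2 le_rfl
    obtain ⟨k1, k2, k3⟩ := dinf_der hC hg 2 le_rfl
    exact delta_eq hrot (h1.1.add k1.1) (h2.add k2)
      (DerLp_add hrot (by norm_num) h1.1 h2.1 k1.1 k2.1 h3 k3)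
  · intro c f hf
    obtain ⟨h1, h2, h3⟩ := dinf_der hC hf 2 le_rfl
    exact delta_eq hrot (h1.1.const_mul c) (h2.const_mul c) (DerLp_smul c h3)
  · intro f g hf hg
    obtain ⟨h1, h2, h3⟩ := dinf_der hC hf 4 (by norm_num)
    obtain ⟨k1, k2, k3⟩ := dinf_der hC hg 4 (by norm_num)
    have hT := triple4
    have e4 : ((4 : ℕ) : ℝ≥0∞) = 4 := by norm_num
    rw [e4] at h1 h2 h3 k1 k2 k3
    have m1 : MemLp (fun ω => f ω * delta μ A g ω) 2 μ := k2.mul h1
    have m2 : MemLp (fun ω => g ω * delta μ A f ω) 2 μ := h2.mul k1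
    exact ⟨dinf_mul hμ.mean hC hf hg,
      delta_eq hrot (h1.1.mul k1.1) (m1.add m2) (DerLp_mul hrot h1 h2 k1 k2 h3 k3)⟩
  · intro p hp r
    obtain ⟨q, hq, s, C, h⟩ := hcont p hp r
    exact ⟨q, hq, s, C, fun f _ U hU => h f U hU⟩

/-- the derivation has zero divergence -/
theorem delta_mean {A : Om n →L[ℝ] Om n} (hC : Ctx μ A) {f : Om n → ℝ} (hf : Dinf μ f) :
    ∫ ω, delta μ A f ω ∂μ = 0 := by
  have := hC.prob
  obtain ⟨h1, h2, h3⟩ := dinf_der hC hf 2 le_rfl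
  have h2' : MemLp f 2 μ := by exact_mod_cast h1
  have hfi : Integrable f μ := h2'.integrable (by norm_num)
  have hgm : MemLp (delta μ A f) 2 μ := by exact_mod_cast h2
  have hgi : Integrable (delta μ A f) μ := hgm.integrable (by norm_num)
  have hd : DerLp μ A 1 f (delta μ A f) :=
    DerLp_mono hC.rot (by norm_num : (1 : ℝ≥0∞) ≤ ((2 : ℕ) : ℝ≥0∞)) h1.1 h2.1 h3
  have hDi : ∀ t : ℝ, Integrable (Dd A t f) μ := fun t =>
    (Dd_memLp hC.rot t h2').integrable (by norm_num)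
  have hD0 : ∀ t : ℝ, ∫ ω, Dd A t f ω ∂μ = 0 := by
    intro t
    unfold Dd
    have hi : Integrable (fun ω => f (Tr A t ω)) μ :=
      (h2'.comp_measurePreserving (hC.rot.mp t)).integrable (by norm_num)
    rw [integral_sub hi hfi]
    have : ∫ ω, f (Tr A t ω) ∂μ = ∫ ω, f ω ∂μ := by
      conv_rhs => rw [← (hC.rot.mp t).map_eq]
      rw [integral_map (hC.rot.mp t).measurable.aemeasurable]
      rw [(hC.rot.mp t).map_eq]
      exact h2'.1
    rw [this, sub_self]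
  have hlim : Tendsto (fun t : ℝ => ∫ ω, t⁻¹ * Dd A t f ω ∂μ) (𝓝[≠] 0)
      (𝓝 (∫ ω, delta μ A f ω ∂μ)) := by
    refine tendsto_integral_of_L1' _ hgi.1 (Eventually.of_forall fun t => (hDi t).const_mul _) ?_
    exact hd
  have h0 : (fun t : ℝ => ∫ ω, t⁻¹ * Dd A t f ω ∂μ) = fun _ => 0 := by
    funext t
    rw [integral_const_mul, hD0, mul_zero]
  rw [h0] at hlim
  exact (tendsto_nhds_unique hlim tendsto_const_nhds)

end Pool.Agent.H970.DD
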