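import Pool.Agent.H970.DD.Op

/-! # Estimates in `L^p` -/

set_option autoImplicit false

open MeasureTheory ProbabilityTheory Set Filter
open scoped ENNReal NNReal Topology

namespace Pool.Agent.H970.DD

open Pool.Agent.R876.WM

variable {Ω : Type} [NormedAddCommGroup Ω] [NormedSpace ℝ Ω] [MeasurableSpace Ω]

/-- difference -/
noncomputable def Dd (A : Ω →L[ℝ] Ω) (θ : ℝ) (f : Ω → ℝ) (x : Ω) : ℝ := f (Tr A θ x) - f x

variable {μ : Measure Ω} {A : Ω →L[ℝ] Ω}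

theorem Dd_congr (h : IsRot μ A) (θ : ℝ) {f g : Ω → ℝ} (hfg : f =ᵐ[μ] g) :
    Dd A θ f =ᵐ[μ] Dd A θ g := by
  have h1 : (fun x => f (Tr A θ x)) =ᵐ[μ] fun x => g (Tr A θ x) :=
    (h.mp θ).quasiMeasurePreserving.ae_eq_comp hfg
  filter_upwards [h1, hfg] with x e1 e2
  unfold Dd
  rw [e1, e2]

theorem DdK_congr (h : IsRot μ A) (θ : ℝ) (K : ℕ) {f g : Ω → ℝ} (hfg : f =ᵐ[μ] g) :
    (Dd A θ)^[K] f =ᵐ[μ] (Dd A θ)^[K] g := by
  induction K with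
  | zero => exact hfg
  | succ K ih =>
    rw [Function.iterate_succ_apply', Function.iterate_succ_apply']
    exact Dd_congr h θ ih

theorem Dd_memLp (h : IsRot μ A) (θ : ℝ) {p : ℝ≥0∞} {f : Ω → ℝ} (hf : MemLp f p μ) :
    MemLp (Dd A θ f) p μ :=
  (hf.comp_measurePreserving (h.mp θ)).sub hf

theorem DdK_memLp (h : IsRot μ A) (θ : ℝ) (K : ℕ) {p : ℝ≥0∞} {f : Ω → ℝ} (hf : MemLp f p μ) :
    MemLp ((Dd A θ)^[K] f) p μ := by
  induction K with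
  | zero => exact hf
  | succ K ih =>
    rw [Function.iterate_succ_apply']
    exact Dd_memLp h θ ih

theorem Sd_ae (h : IsRot μ A) {p : ℝ≥0∞} [Fact (1 ≤ p)] (θ : ℝ) (F : Lp ℝ p μ) :
    (Sd (Cop h p) θ F : Ω → ℝ) =ᵐ[μ] Dd A θ F := by
  rw [Sd_apply]
  filter_upwards [Lp.coeFn_sub (Cop h p θ F) F, Cop_ae h θ F] with x e1 e2
  rw [e1, Pi.sub_apply, e2]
  rfl

theorem SdK_ae (h : IsRot μ A) {p : ℝ≥0∞} [Fact (1 ≤ p)] (θ : ℝ) (K : ℕ) (F : Lp ℝ p μ) :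
    ((Sd (Cop h p) θ ^ K) F : Ω → ℝ) =ᵐ[μ] (Dd A θ)^[K] F := by
  induction K with
  | zero => exact EventuallyEq.rfl
  | succ K ih =>
    rw [Function.iterate_succ_apply', pow_succ', mul_apply_eq_comp]
    exact (Sd_ae h θ _).trans (Dd_congr h θ ih)

theorem norm_SdK (h : IsRot μ A) {p : ℝ≥0∞} [Fact (1 ≤ p)] (θ : ℝ) (K : ℕ) {f : Ω → ℝ}
    (hf : MemLp f p μ) :
    ENNReal.ofReal ‖(Sd (Cop h p) θ ^ K) (hf.toLp f)‖ = eLpNorm ((Dd A θ)^[K] f) p μ := by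
  rw [Lp.norm_def, ENNReal.ofReal_toReal (Lp.eLpNorm_ne_top _)]
  exact eLpNorm_congr_ae ((SdK_ae h θ K _).trans (DdK_congr h θ K hf.coeFn_toLp))

/-- trivial bound -/
theorem DdK_le (h : IsRot μ A) {p : ℝ≥0∞} [Fact (1 ≤ p)] (θ : ℝ) (K : ℕ) {f : Ω → ℝ}
    (hf : MemLp f p μ) :
    eLpNorm ((Dd A θ)^[K] f) p μ ≤ ENNReal.ofReal (2 ^ K) * eLpNorm f p μ := by
  rw [← norm_SdK h θ K hf]
  have h1 := Sd_pow_norm_le (Cop_grp (p := p) h) θ K (hf.toLp f)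
  refine (ENNReal.ofReal_le_ofReal h1).trans ?_
  rw [ENNReal.ofReal_mul (by positivity)]
  gcongr
  rw [Lp.norm_toLp, ENNReal.ofReal_toReal hf.2.ne]

section

variable [BorelSpace Ω]

theorem l2_iter [SecondCountableTopology Ω] (hC : Ctx μ A)
    {T : ℝ → Lp ℝ 2 μ →L[ℝ] Lp ℝ 2 μ} {J : Lp ℝ 2 μ →L[ℝ] Lp ℝ 2 μ} (hO : OUL μ ℝ 2 T J) (K : ℕ) :
    ∃ D : ℝ, 0 ≤ D ∧ ∀ θ : ℝ, 0 < θ → ∀ U : Lp ℝ 2 μ,
      ‖(Sd (Cop hC.rot 2) θ ^ K) ((J ^ (2 * K)) U)‖ ≤ D * θ ^ K * ‖U‖ := by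
  obtain ⟨D, hD, hd⟩ := l2_J2 hC hO
  have hcom : ∀ (θ : ℝ) (k : ℕ) (V : Lp ℝ 2 μ), (Sd (Cop hC.rot 2) θ ^ k) (J V) =
      J ((Sd (Cop hC.rot 2) θ ^ k) V) := by
    intro θ k
    induction k with
    | zero => intro V; rfl
    | succ k ih =>
      intro V
      rw [pow_succ', mul_apply_eq_comp, mul_apply_eq_comp, ih, Sd_J hC hO (by norm_num)]
  induction K with
  | zero => exact ⟨1, zero_le_one, fun θ _ U => by simp⟩
  | succ K ih =>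
    obtain ⟨D', hD', hd'⟩ := ih
    refine ⟨D * D', by positivity, fun θ hθ U => ?_⟩
    have e1 : (J ^ (2 * (K + 1))) U = J (J ((J ^ (2 * K)) U)) := by
      have : 2 * (K + 1) = 2 * K + 1 + 1 := by ring
      rw [this, pow_succ', pow_succ', mul_apply_eq_comp, mul_apply_eq_comp]
    rw [e1, pow_succ', mul_apply_eq_comp, hcom, hcom]
    refine (hd θ hθ _).trans ?_
    calc D * θ * ‖(Sd (Cop hC.rot 2) θ ^ K) ((J ^ (2 * K)) U)‖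
        ≤ D * θ * (D' * θ ^ K * ‖U‖) := by
          gcongr
          exact hd' θ hθ U
      _ = D * D' * θ ^ (K + 1) * ‖U‖ := by ring

/-- (A) -/
theorem partA [SecondCountableTopology Ω] (hC : Ctx μ A) (K : ℕ) :
    ∃ D : ℝ, 0 ≤ D ∧ ∀ f U : Ω → ℝ, MemLp U 2 μ → f =ᵐ[μ] pot μ (2 * (2 * K)) U →
      ∀ θ : ℝ, 0 < θ →
      eLpNorm ((Dd A θ)^[K] f) 2 μ ≤ ENNReal.ofReal (D * θ ^ K) * eLpNorm U 2 μ := by
  obtain ⟨T, J, hO⟩ := hC.oul 2 (by norm_num)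
  obtain ⟨D, hD, hd⟩ := l2_iter hC hO K
  refine ⟨D, hD, fun f U hU hf θ hθ => ?_⟩
  set w : Lp ℝ 2 μ := hU.toLp U with hw
  have hwU : (w : Ω → ℝ) =ᵐ[μ] U := hU.coeFn_toLp
  have e1 : f =ᵐ[μ] ((J ^ (2 * K)) w : Lp ℝ 2 μ) := by
    refine hf.trans (((hC.pot 2 (by norm_num) (by norm_num)).1 _ _ _ hwU.symm).trans
      (hO.pot_ae (2 * K) w).symm)
  have e2 : eLpNorm ((Dd A θ)^[K] f) 2 μ =
      ENNReal.ofReal ‖(Sd (Cop hC.rot 2) θ ^ K) ((J ^ (2 * K)) w)‖ := by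
    rw [Lp.norm_def, ENNReal.ofReal_toReal (Lp.eLpNorm_ne_top _)]
    exact eLpNorm_congr_ae ((DdK_congr hC.rot θ K e1).trans (SdK_ae hC.rot θ K _).symm)
  rw [e2]
  refine (ENNReal.ofReal_le_ofReal (hd θ hθ w)).trans ?_
  rw [ENNReal.ofReal_mul (by positivity)]
  gcongr
  rw [hw, Lp.norm_toLp, ENNReal.ofReal_toReal hU.2.ne]

/-- (C) -/
theorem partC [SecondCountableTopology Ω] (hC : Ctx μ A) (p : ℕ) (hp : 2 ≤ p) :
    ∃ D : ℝ, 0 ≤ D ∧ ∀ f U : Ω → ℝ, MemLp U ((2 * p : ℕ) : ℝ≥0∞) μ →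
      f =ᵐ[μ] pot μ (2 * (2 * (2 * (p - 1)))) U →
      ∀ θ : ℝ, 0 < θ → θ ≤ 1 →
      eLpNorm ((Dd A θ)^[2 * (p - 1)] f) (p : ℝ≥0∞) μ ≤
        ENNReal.ofReal (D * θ ^ 2) * eLpNorm U ((2 * p : ℕ) : ℝ≥0∞) μ := by
  have := hC.prob
  set K := 2 * (p - 1) with hK
  obtain ⟨D, hD, hd⟩ := partA hC K
  have hq1 : (1 : ℝ≥0∞) ≤ ((2 * p : ℕ) : ℝ≥0∞) := by
    exact_mod_cast (by omega : 1 ≤ 2 * p)
  have hq2 : (2 : ℝ≥0∞) ≤ ((2 * p : ℕ) : ℝ≥0∞) := by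
    exact_mod_cast (by omega : 2 ≤ 2 * p)
  have hqt : ((2 * p : ℕ) : ℝ≥0∞) ≠ ∞ := ENNReal.natCast_ne_top _
  have : Fact ((1 : ℝ≥0∞) ≤ ((2 * p : ℕ) : ℝ≥0∞)) := ⟨hq1⟩
  refine ⟨(1 + D) * 2 ^ K, by positivity, fun f U hU hf θ hθ0 hθ1 => ?_⟩
  have hU2 : MemLp U 2 μ := hU.mono_exponent hq2
  obtain ⟨hfm', hfn⟩ := (hC.pot _ hq1 hqt).2.1 (2 * (2 * K)) U hU
  have hfm : MemLp f ((2 * p : ℕ) : ℝ≥0∞) μ := (memLp_congr_ae hf).2 hfm'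
  have hfn' : eLpNorm f ((2 * p : ℕ) : ℝ≥0∞) μ ≤ eLpNorm U ((2 * p : ℕ) : ℝ≥0∞) μ := by
    rw [eLpNorm_congr_ae hf]; exact hfn
  set g := (Dd A θ)^[K] f with hg
  have hgm : MemLp g ((2 * p : ℕ) : ℝ≥0∞) μ := DdK_memLp hC.rot θ K hfm
  set u := eLpNorm U ((2 * p : ℕ) : ℝ≥0∞) μ with hu
  have h1 : eLpNorm g 2 μ ≤ ENNReal.ofReal ((1 + D) * θ ^ K) * u := by
    refine (hd f U hU2 hf θ hθ0).trans ?_
    have e1 : D * θ ^ K ≤ (1 + D) * θ ^ K := by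
      gcongr
      linarith
    exact mul_le_mul' (ENNReal.ofReal_le_ofReal e1)
      (eLpNorm_le_eLpNorm_of_exponent_le hq2 hU.1)
  have h2 : eLpNorm g ((2 * p : ℕ) : ℝ≥0∞) μ ≤ ENNReal.ofReal (2 ^ K) * u :=
    (DdK_le hC.rot θ K hfm).trans (mul_le_mul' le_rfl hfn')
  have h3 := lya_thm ℝ μ g hgm.1 p hp
  have hp1 : (1 : ℝ) ≤ (p : ℝ) - 1 := by
    have : (2 : ℝ) ≤ p := by exact_mod_cast hp
    linarith
  set x : ℝ := 1 / ((p : ℝ) - 1) with hx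
  have hx0 : 0 ≤ x := by positivity
  have hx1 : x ≤ 1 := by
    rw [hx, div_le_one (by linarith)]
    exact hp1
  have hKx : (K : ℝ) * x = 2 := by
    rw [hK, hx]
    push_cast [Nat.cast_sub (by omega : 1 ≤ p)]
    field_simp
  calc eLpNorm g (p : ℝ≥0∞) μ ≤ (eLpNorm g 2 μ) ^ x * (eLpNorm g ((2 * p : ℕ) : ℝ≥0∞) μ) ^ (1 - x) :=
        h3
    _ ≤ (ENNReal.ofReal ((1 + D) * θ ^ K) * u) ^ x * (ENNReal.ofReal (2 ^ K) * u) ^ (1 - x) := by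
        have : 0 ≤ 1 - x := by linarith
        gcongr
    _ = (ENNReal.ofReal ((1 + D) * θ ^ K)) ^ x * (ENNReal.ofReal (2 ^ K)) ^ (1 - x) * u := by
        rw [ENNReal.mul_rpow_of_nonneg _ _ hx0, ENNReal.mul_rpow_of_nonneg _ _ (by linarith)]
        have : u ^ x * u ^ (1 - x) = u := by
          rw [← ENNReal.rpow_add_of_nonneg _ _ hx0 (by linarith)]
          rw [add_sub_cancel, ENNReal.rpow_one]
        calc _ = (ENNReal.ofReal ((1 + D) * θ ^ K)) ^ x * (ENNReal.ofReal (2 ^ K)) ^ (1 - x) *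
              (u ^ x * u ^ (1 - x)) := by ring
          _ = _ := by rw [this]
    _ ≤ ENNReal.ofReal ((1 + D) * 2 ^ K * θ ^ 2) * u := by
        gcongr
        rw [ENNReal.ofReal_rpow_of_nonneg (by positivity) hx0,
          ENNReal.ofReal_rpow_of_nonneg (by positivity) (by linarith),
          ← ENNReal.ofReal_mul (by positivity)]
        apply ENNReal.ofReal_le_ofReal
        rw [Real.mul_rpow (by positivity) (by positivity)]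
        have e1 : (1 + D) ^ x ≤ 1 + D := by
          calc (1 + D) ^ x ≤ (1 + D) ^ (1 : ℝ) :=
                Real.rpow_le_rpow_of_exponent_le (by linarith) hx1
            _ = 1 + D := Real.rpow_one _
        have e2 : (θ ^ K) ^ x = θ ^ 2 := by
          rw [← Real.rpow_natCast, ← Real.rpow_mul hθ0.le, hKx]
          norm_num
        have e3 : ((2 : ℝ) ^ K) ^ (1 - x) ≤ 2 ^ K := by
          calc ((2 : ℝ) ^ K) ^ (1 - x) ≤ ((2 : ℝ) ^ K) ^ (1 : ℝ) :=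
                Real.rpow_le_rpow_of_exponent_le (one_le_pow₀ (by norm_num)) (by linarith)
            _ = 2 ^ K := Real.rpow_one _
        rw [e2]
        calc (1 + D) ^ x * θ ^ 2 * (2 ^ K) ^ (1 - x) ≤ (1 + D) * θ ^ 2 * 2 ^ K := by gcongr
          _ = (1 + D) * 2 ^ K * θ ^ 2 := by ring

end

end Pool.Agent.H970.DD
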