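import Pool.Agent.H970.DD.Lin

/-! # The derivation is not of the form `X + div A grad` -/

set_option autoImplicit false

open MeasureTheory ProbabilityTheory Set Filter
open scoped ENNReal NNReal Topology

namespace Pool.Agent.H970.DD

open Pool.Agent.R876.WM

variable {n : ℕ} {μ : Measure (Om n)}

/-- coordinate increment -/
noncomputable def inc (i : Fin n) (a b : ℝ) : StrongDual ℝ (Om n) := evi i b - evi i a

theorem inc_apply (i : Fin n) (a b : ℝ) (ω : Om n) : inc i a b ω = (X b ω) i - (X a ω) i := rfl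

theorem lb_ne_top (a b : ℝ) : lb (Ioc a b) ≠ ∞ := measure_ne_top _ _

/-- its gradient `1_{(a,b]} e_i` -/
noncomputable def gr (i : Fin n) (a b : ℝ) : HH n :=
  indicatorConstLp 2 (measurableSet_Ioc (a := a) (b := b)) (lb_ne_top a b)
    (EuclideanSpace.single i (1 : ℝ))

theorem X_cm (h : HH n) {t : ℝ} (ht : t ∈ Icc (0 : ℝ) 1) :
    X t (cm h) = ∫ s in (0 : ℝ)..t, (h : ℝ → W n) s := by
  unfold X
  rw [Set.projIcc_of_mem _ ht]
  rfl

theorem inner_gr (i : Fin n) {a b : ℝ} (ha : 0 ≤ a) (hab : a ≤ b) (hb : b ≤ 1) (h : HH n) :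
    inner ℝ (gr i a b) h = inc i a b (cm h) := by
  unfold gr
  rw [L2.inner_indicatorConstLp_eq_inner_setIntegral]
  rw [inc_apply, X_cm h ⟨ha.trans hab, hb⟩, X_cm h ⟨ha, hab.trans hb⟩]
  have h1 : IntervalIntegrable (h : ℝ → W n) volume 0 1 := by
    rw [intervalIntegrable_iff_integrableOn_Ioc_of_le zero_le_one]
    have := integrable_HH h
    rw [Set.uIcc_of_le zero_le_one] at this
    exact this.mono_set Ioc_subset_Icc_self
  have h2 : ∀ x y : ℝ, x ∈ Icc (0 : ℝ) 1 → y ∈ Icc (0 : ℝ) 1 →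
      IntervalIntegrable (h : ℝ → W n) volume x y := by
    intro x y hx hy
    refine h1.mono_set ?_
    rw [Set.uIcc_of_le zero_le_one]
    exact Set.uIcc_subset_Icc hx hy
  have h3 : (∫ s in (0 : ℝ)..b, (h : ℝ → W n) s) - (∫ s in (0 : ℝ)..a, (h : ℝ → W n) s) =
      ∫ s in a..b, (h : ℝ → W n) s :=
    intervalIntegral.integral_interval_sub_left
      (h2 0 b ⟨le_rfl, zero_le_one⟩ ⟨ha.trans hab, hb⟩)
      (h2 0 a ⟨le_rfl, zero_le_one⟩ ⟨ha, hab.trans hb⟩)
  have h4 : ∫ s in Ioc a b, (h : ℝ → W n) s ∂lb = ∫ s in a..b, (h : ℝ → W n) s := by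
    rw [intervalIntegral.integral_of_le hab]
    unfold lb
    rw [Measure.restrict_restrict measurableSet_Ioc]
    congr 2
    rw [Set.inter_eq_left]
    exact fun x hx => ⟨ha.trans hx.1.le, hx.2.trans hb⟩
  rw [h4, ← h3, EuclideanSpace.inner_single_left]
  simp

theorem isGrad_inc [IsProbabilityMeasure μ] (i : Fin n) {a b : ℝ} (ha : 0 ≤ a) (hab : a ≤ b)
    (hb : b ≤ 1) :
    IsGrad μ (fun ω => inc i a b ω) (fun _ => gr i a b) := by
  refine ⟨memLp_const _, fun h => ?_⟩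
  refine tendsto_const_nhds.congr' ?_
  filter_upwards [self_mem_nhdsWithin] with ε hε
  have hε' : ε ≠ 0 := hε
  have : (fun ω : Om n => ε⁻¹ * (inc i a b (ω + ε • cm h) - inc i a b ω) -
      inner ℝ (gr i a b) h) = fun _ => 0 := by
    funext ω
    rw [map_add, map_smul, add_sub_cancel_left, smul_eq_mul, ← mul_assoc,
      inv_mul_cancel₀ hε', one_mul, inner_gr i ha hab hb, sub_self]
  rw [this]
  simp

theorem inc_sw (i : Fin n) {a b : ℝ} (ha : 0 ≤ a) (hab : a ≤ b) (hb : b ≤ 1 / 2) (ω : Om n) :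
    inc i a b (sw n ω) = inc i (a + 1 / 2) (b + 1 / 2) ω := by
  rw [inc_apply, inc_apply, X_sw ⟨by linarith, by linarith⟩, X_sw ⟨ha, by linarith⟩,
    X_le (t := b - 1 / 2) (by linarith), X_le (t := a - 1 / 2) (by linarith)]
  simp

theorem slope_cos : Tendsto (fun t : ℝ => t⁻¹ * (Real.cos t - 1)) (𝓝[≠] 0) (𝓝 0) := by
  have h := (Real.hasDerivAt_cos 0).tendsto_slope_zero
  simp only [zero_add, Real.cos_zero, Real.sin_zero, neg_zero, smul_eq_mul] at h
  exact h

theorem slope_sin : Tendsto (fun t : ℝ => t⁻¹ * Real.sin t) (𝓝[≠] 0) (𝓝 1) := by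
  have h := (Real.hasDerivAt_sin 0).tendsto_slope_zero
  simp only [zero_add, Real.cos_zero, Real.sin_zero, sub_zero, smul_eq_mul] at h
  exact h

/-- the derivation on a linear functional -/
theorem delta_dual (hμ : IsW μ) (L : StrongDual ℝ (Om n)) :
    delta μ (sw n) (fun ω => L ω) =ᵐ[μ] fun ω => L (sw n ω) := by
  have := hμ.gauss
  have hrot := isRot_sw hμ
  have m1 := memLp_dual hμ L 2 (by norm_num)
  have m2 : MemLp (fun ω => L (sw n ω)) 2 μ := memLp_dual hμ (L.comp (sw n)) 2 (by norm_num)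
  refine delta_eq hrot m1.1 m2 ?_
  unfold DerLp
  have e : ∀ t : ℝ, (fun ω => t⁻¹ * Dd (sw n) t (fun ω => L ω) ω - L (sw n ω)) =
      (t⁻¹ * (Real.cos t - 1)) • (fun ω => L ω) +
        (t⁻¹ * Real.sin t - 1) • (fun ω => L (sw n ω)) := by
    intro t
    funext ω
    simp only [Dd, Tr_apply, map_add, map_smul, smul_eq_mul, Pi.add_apply, Pi.smul_apply]
    ring
  simp_rw [e]
  have h1 : Tendsto (fun t : ℝ => ‖t⁻¹ * (Real.cos t - 1)‖ₑ * eLpNorm (fun ω => L ω) 2 μ +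
      ‖t⁻¹ * Real.sin t - 1‖ₑ * eLpNorm (fun ω => L (sw n ω)) 2 μ) (𝓝[≠] 0)
      (𝓝 (0 * eLpNorm (fun ω => L ω) 2 μ + 0 * eLpNorm (fun ω => L (sw n ω)) 2 μ)) := by
    refine Tendsto.add (ENNReal.Tendsto.mul_const ?_ (Or.inr m1.2.ne))
      (ENNReal.Tendsto.mul_const ?_ (Or.inr m2.2.ne))
    · have := (continuous_enorm.tendsto (0 : ℝ)).comp slope_cos
      rwa [enorm_zero] at this
    · have h2 : Tendsto (fun t : ℝ => t⁻¹ * Real.sin t - 1) (𝓝[≠] 0) (𝓝 0) := by
        have := slope_sin.sub_const 1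
        rwa [sub_self] at this
      have := (continuous_enorm.tendsto (0 : ℝ)).comp h2
      rwa [enorm_zero] at this
  rw [zero_mul, zero_mul, add_zero] at h1
  refine tendsto_of_tendsto_of_tendsto_of_le_of_le tendsto_const_nhds h1 (fun t => zero_le)
    fun t => ?_
  refine (eLpNorm_add_le (m1.1.const_smul _) (m2.1.const_smul _) (by norm_num)).trans ?_
  rw [eLpNorm_const_smul, eLpNorm_const_smul]

theorem var_inc (hμ : IsW μ) (i : Fin n) {a b : ℝ} (ha : 0 ≤ a) (hab : a ≤ b) (hb : b ≤ 1) :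
    ∫ ω, inc i a b ω * inc i a b ω ∂μ = b - a := by
  have h1 := cov_comb hμ (ι := Fin 2) (κ := Fin 2) ![1, -1] ![1, -1] (fun _ => i) (fun _ => i)
    ![b, a] ![b, a] (fun k => by fin_cases k; exacts [⟨ha.trans hab, hb⟩, ⟨ha, hab.trans hb⟩])
    (fun k => by fin_cases k; exacts [⟨ha.trans hab, hb⟩, ⟨ha, hab.trans hb⟩])
  simp only [Fin.sum_univ_two, Matrix.cons_val_zero, Matrix.cons_val_one, one_mul, if_true,
    min_self, neg_mul, mul_neg, mul_one, neg_neg, min_eq_left hab, min_eq_right hab] at h1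
  have h2 : ∀ ω : Om n, inc i a b ω * inc i a b ω =
      ((X b ω) i + -(X a ω) i) * ((X b ω) i + -(X a ω) i) := by
    intro ω
    rw [inc_apply]; ring
  simp_rw [h2]
  rw [h1]
  ring

/-- one test -/
theorem one_test (hμ : IsW μ) {Xf : Om n → HH n} (hX : MemLp Xf 2 μ)
    {A : ℝ → Om n → Matrix (Fin n) (Fin n) ℝ} (hrep : IsRep μ (delta μ (sw n)) Xf A) (i : Fin n) {a b : ℝ}
    (ha : 0 ≤ a) (hab : a < b) (hb : b ≤ 1 / 2) :
    b - a ≤ ∫ ω, (inner ℝ (gr i a b) (Xf ω)) ^ 2 ∂μ := by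
  have := hμ.gauss
  have hz : ∀ ω, bil (fun t => A t ω) (gr i a b) (gr i (a + 1 / 2) (b + 1 / 2)) =ᵐ[lb]
      fun _ => 0 := by
    intro ω
    have h1 : (gr i a b : ℝ → W n) =ᵐ[lb] (Ioc a b).indicator fun _ => EuclideanSpace.single i 1 :=
      indicatorConstLp_coeFn
    have h2 : (gr i (a + 1 / 2) (b + 1 / 2) : ℝ → W n) =ᵐ[lb]
        (Ioc (a + 1 / 2) (b + 1 / 2)).indicator fun _ => EuclideanSpace.single i 1 :=
      indicatorConstLp_coeFn
    filter_upwards [h1, h2] with t e1 e2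
    unfold bil vel
    rw [e1, e2]
    by_cases ht : t ∈ Ioc a b
    · have : t ∉ Ioc (a + 1 / 2) (b + 1 / 2) := fun h => by
        have := ht.2; have := h.1; linarith
      rw [Set.indicator_of_notMem this]
      simp
    · rw [Set.indicator_of_notMem ht]
      simp
  have hint0 : ∀ ω, form (fun t => A t ω) (gr i a b) (gr i (a + 1 / 2) (b + 1 / 2)) = 0 := by
    intro ω
    unfold form
    rw [integral_congr_ae (hz ω), integral_zero]
  have hr := hrep (fun ω => inc i a b ω) (fun ω => inc i (a + 1 / 2) (b + 1 / 2) ω)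
    (fun _ => gr i a b) (fun _ => gr i (a + 1 / 2) (b + 1 / 2)) (dinf_dual hμ _) (dinf_dual hμ _)
    (isGrad_inc i ha hab.le (by linarith)) (isGrad_inc i (by linarith) (by linarith) (by linarith))
    ⟨Eventually.of_forall fun ω => (integrable_zero _ _ _).congr (hz ω).symm,
      by simp_rw [hint0]; exact integrable_zero _ _ _⟩
  simp_rw [hint0] at hr
  rw [integral_zero] at hr
  unfold pair at hr
  -- `g = inc (a + 1/2) (b + 1/2)`
  set g : Om n → ℝ := fun ω => inc i (a + 1 / 2) (b + 1 / 2) ω with hg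
  set q : Om n → ℝ := fun ω => inner ℝ (gr i a b) (Xf ω) with hq
  have hde : delta μ (sw n) (fun ω => inc i a b ω) =ᵐ[μ] g := by
    filter_upwards [delta_dual hμ (inc i a b)] with ω hω
    rw [hω, inc_sw i ha hab.le hb]
  have hgm : MemLp g 2 μ := memLp_dual hμ _ 2 (by norm_num)
  have hqm : MemLp q 2 μ := hX.const_inner _
  have h1 : ∫ ω, (g ω - q ω) * g ω ∂μ = 0 := by
    rw [← hr]
    refine integral_congr_ae ?_
    filter_upwards [hde] with ω hω
    rw [hω]
  have hgg : Integrable (fun ω => g ω * g ω) μ := hgm.integrable_mul hgm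
  have hqg : Integrable (fun ω => q ω * g ω) μ := hqm.integrable_mul hgm
  have h2 : ∫ ω, q ω * g ω ∂μ = b - a := by
    have h3 : ∫ ω, g ω * g ω ∂μ = b - a := by
      have := var_inc hμ i (a := a + 1 / 2) (b := b + 1 / 2) (by linarith) (by linarith)
        (by linarith)
      rw [hg, this]
      ring
    have h4 : ∫ ω, (g ω - q ω) * g ω ∂μ = ∫ ω, g ω * g ω ∂μ - ∫ ω, q ω * g ω ∂μ := by
      rw [← integral_sub hgg hqg]
      congr 1
      funext ω
      ring
    rw [h1, h3] at h4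
    linarith
  -- `0 ≤ ∫ (q - g)^2 = ∫ q^2 - 2 (b-a) + (b-a)`
  have h5 : 0 ≤ ∫ ω, (q ω - g ω) ^ 2 ∂μ := integral_nonneg fun ω => sq_nonneg _
  have h6 : ∫ ω, (q ω - g ω) ^ 2 ∂μ = ∫ ω, (q ω) ^ 2 ∂μ - 2 * ∫ ω, q ω * g ω ∂μ +
      ∫ ω, g ω * g ω ∂μ := by
    have e : ∀ ω, (q ω - g ω) ^ 2 = ((q ω) ^ 2 - 2 * (q ω * g ω)) + g ω * g ω := fun ω => by ring
    simp_rw [e]
    have i1 : Integrable (fun ω => (q ω) ^ 2 - 2 * (q ω * g ω)) μ :=
      (hqm.integrable_sq).sub (hqg.const_mul 2)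
    rw [integral_add i1 hgg, integral_sub hqm.integrable_sq (hqg.const_mul 2),
      integral_const_mul]
  have h3 : ∫ ω, g ω * g ω ∂μ = b - a := by
    have := var_inc hμ i (a := a + 1 / 2) (b := b + 1 / 2) (by linarith) (by linarith)
      (by linarith)
    rw [hg, this]
    ring
  rw [h6, h2, h3] at h5
  linarith

theorem not_rep (hn : 0 < n) (hμ : IsW μ) {Xf : Om n → HH n} (hX : MemLp Xf 2 μ)
    (A : ℝ → Om n → Matrix (Fin n) (Fin n) ℝ) : ¬ IsRep μ (delta μ (sw n)) Xf A := by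
  intro hrep
  have := hμ.gauss
  set i : Fin n := ⟨0, hn⟩ with hi
  have hXs : Integrable (fun ω => ‖Xf ω‖ ^ 2) μ := by
    exact hX.norm.integrable_sq
  obtain ⟨N, hN⟩ := exists_nat_gt (∫ ω, ‖Xf ω‖ ^ 2 ∂μ)
  have hN0 : (0 : ℝ) < N := (integral_nonneg fun ω => by positivity).trans_lt hN
  set d : ℝ := 1 / (2 * N) with hd
  have hd0 : 0 < d := by positivity
  have hNd : (N : ℝ) * d = 1 / 2 := by rw [hd]; field_simp
  -- the orthonormal system
  set v : Fin N → HH n := fun k => (√d)⁻¹ • gr i ((k : ℝ) * d) (((k : ℝ) + 1) * d) with hv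
  have hk : ∀ k : Fin N, 0 ≤ (k : ℝ) * d ∧ (k : ℝ) * d < ((k : ℝ) + 1) * d ∧
      ((k : ℝ) + 1) * d ≤ 1 / 2 := by
    intro k
    refine ⟨by positivity, by nlinarith, ?_⟩
    rw [← hNd]
    gcongr
    exact_mod_cast k.2
  have hort : Orthonormal ℝ v := by
    rw [orthonormal_iff_ite]
    intro k l
    rw [hv]
    simp only [real_inner_smul_left, real_inner_smul_right]
    unfold gr
    rw [L2.inner_indicatorConstLp_indicatorConstLp]
    by_cases hkl : k = l
    · subst hkl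
      rw [if_pos rfl, Set.inter_self]
      have hvol : lb.real (Ioc ((k : ℝ) * d) (((k : ℝ) + 1) * d)) = d := by
        rw [measureReal_def, Measure.restrict_apply measurableSet_Ioc]
        have : Ioc ((k : ℝ) * d) (((k : ℝ) + 1) * d) ∩ Icc 0 1 =
            Ioc ((k : ℝ) * d) (((k : ℝ) + 1) * d) := by
          rw [Set.inter_eq_left]
          obtain ⟨h1, h2, h3⟩ := hk k
          exact fun x hx => ⟨h1.trans hx.1.le, by linarith [hx.2]⟩
        rw [this, Real.volume_Ioc, ENNReal.toReal_ofReal (by nlinarith)]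
        ring
      rw [hvol]
      simp only [EuclideanSpace.inner_single_left, PiLp.single_apply, if_true,
        smul_eq_mul, mul_one, map_one]
      have := Real.mul_self_sqrt hd0.le
      have hs : √d ≠ 0 := (Real.sqrt_pos.2 hd0).ne'
      field_simp
      rw [sq]
      exact this.symm
    · rw [if_neg hkl]
      have hdis : Ioc ((k : ℝ) * d) (((k : ℝ) + 1) * d) ∩ Ioc ((l : ℝ) * d) (((l : ℝ) + 1) * d)
          = ∅ := by
        rw [← Set.disjoint_iff_inter_eq_empty]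
        rcases lt_or_gt_of_ne hkl with h | h
        · refine Set.Ioc_disjoint_Ioc_of_le ?_
          gcongr
          exact_mod_cast h
        · refine (Set.Ioc_disjoint_Ioc_of_le ?_).symm
          gcongr
          exact_mod_cast h
      rw [hdis]
      simp
  have hbes : ∀ ω, ∑ k : Fin N, (inner ℝ (gr i ((k : ℝ) * d) (((k : ℝ) + 1) * d)) (Xf ω)) ^ 2 ≤
      d * ‖Xf ω‖ ^ 2 := by
    intro ω
    have h1 := hort.sum_inner_products_le (Xf ω) (s := Finset.univ)
    have h2 : ∀ k : Fin N, ‖inner ℝ (v k) (Xf ω)‖ ^ 2 =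
        d⁻¹ * (inner ℝ (gr i ((k : ℝ) * d) (((k : ℝ) + 1) * d)) (Xf ω)) ^ 2 := by
      intro k
      rw [hv]
      simp only [real_inner_smul_left]
      rw [norm_mul, mul_pow, Real.norm_eq_abs, Real.norm_eq_abs, sq_abs, sq_abs, inv_pow,
        Real.sq_sqrt hd0.le]
    simp_rw [h2] at h1
    rw [← Finset.mul_sum, inv_mul_le_iff₀ hd0] at h1
    exact h1
  have hsum : ∑ k : Fin N, d ≤ ∑ k : Fin N,
      ∫ ω, (inner ℝ (gr i ((k : ℝ) * d) (((k : ℝ) + 1) * d)) (Xf ω)) ^ 2 ∂μ := by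
    refine Finset.sum_le_sum fun k _ => ?_
    obtain ⟨h1, h2, h3⟩ := hk k
    have := one_test hμ hX hrep i h1 h2 h3
    calc d = ((k : ℝ) + 1) * d - (k : ℝ) * d := by ring
      _ ≤ _ := this
  have hqi : ∀ k : Fin N, Integrable
      (fun ω => (inner ℝ (gr i ((k : ℝ) * d) (((k : ℝ) + 1) * d)) (Xf ω)) ^ 2) μ := fun k =>
    (hX.const_inner _).integrable_sq
  rw [← integral_finsetSum _ (fun k _ => hqi k)] at hsum
  have h3 : ∫ ω, ∑ k : Fin N, (inner ℝ (gr i ((k : ℝ) * d) (((k : ℝ) + 1) * d)) (Xf ω)) ^ 2 ∂μ ≤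
      ∫ ω, d * ‖Xf ω‖ ^ 2 ∂μ :=
    integral_mono (integrable_finsetSum _ fun k _ => hqi k) (hXs.const_mul d) hbes
  rw [integral_const_mul] at h3
  have h4 : ∑ k : Fin N, d = N * d := by simp
  rw [h4] at hsum
  have h5 : (N : ℝ) * d ≤ d * ∫ ω, ‖Xf ω‖ ^ 2 ∂μ := hsum.trans h3
  rw [mul_comm] at h5
  have h6 := le_of_mul_le_mul_left h5 hd0
  linarith

end Pool.Agent.H970.DD
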