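import Mathlib

/-! # Parameters -/

set_option autoImplicit false

namespace Pool.Agent.H970.DD

theorem polar (a b : ℝ) : ∃ ψ : ℝ, a = √(a ^ 2 + b ^ 2) * Real.cos ψ ∧
    b = √(a ^ 2 + b ^ 2) * Real.sin ψ := by
  refine ⟨Complex.arg ⟨a, b⟩, ?_, ?_⟩
  · have h := Complex.norm_mul_cos_arg (⟨a, b⟩ : ℂ)
    rw [Complex.norm_def, Complex.normSq_mk] at h
    rw [sq, sq]
    exact h.symm
  · have h := Complex.norm_mul_sin_arg (⟨a, b⟩ : ℂ)
    rw [Complex.norm_def, Complex.normSq_mk] at h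
    rw [sq, sq]
    exact h.symm

theorem params {φ t : ℝ} (hφ0 : 0 < φ) (hφ : φ ≤ 1 / 32) (ht : 2 * φ ≤ t) :
    ∃ α β ψ t' : ℝ, 0 < α ∧ 2 * α ≤ 1 / 2 ∧ α ≤ 2 * φ / √t ∧ 0 ≤ t' ∧ t' ≤ t ∧
      Real.cos α * Real.cos β = Real.exp (-t') * Real.cos φ ∧
      Real.sin α * Real.sin β = Real.exp (-t') * Real.sin φ ∧
      Real.cos α * Real.sin β = √(1 - Real.exp (-2 * t')) * Real.cos ψ ∧
      -(Real.sin α * Real.cos β) = √(1 - Real.exp (-2 * t')) * Real.sin ψ := by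
  have ht0 : 0 < t := by linarith
  have hcφ : 1 / 2 ≤ Real.cos φ := by
    have := Real.one_sub_sq_div_two_le_cos (x := φ)
    nlinarith
  have hsφ : Real.sin φ ≤ φ := Real.sin_le hφ0.le
  have hsφ0 : 0 < Real.sin φ := Real.sin_pos_of_pos_of_lt_pi hφ0 (by linarith [Real.pi_gt_three])
  set T : ℝ := Real.sin φ / Real.cos φ with hT
  have hT0 : 0 < T := by positivity
  have hT1 : T ≤ 2 * φ := by
    rw [hT, div_le_iff₀ (by linarith)]
    nlinarith
  have hTt : T ≤ t := hT1.trans ht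
  set c : ℝ := Real.exp (-t / 2) with hc
  have hc0 : 0 < c := Real.exp_pos _
  have hc2 : c ^ 2 = Real.exp (-t) := by
    rw [hc, ← Real.exp_nat_mul]; congr 1; push_cast; ring
  have hc1 : c < 1 := Real.exp_lt_one_iff.2 (by linarith)
  -- `1 - c² ≥ t c²`
  have hkey : t * c ^ 2 ≤ 1 - c ^ 2 := by
    rw [hc2]
    have h1 : t + 1 ≤ Real.exp t := Real.add_one_le_exp t
    have h2 : Real.exp t * Real.exp (-t) = 1 := by rw [← Real.exp_add]; simp
    have h3 : 0 < Real.exp (-t) := Real.exp_pos _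
    nlinarith
  set s : ℝ := √(1 - c ^ 2) with hs
  have hs2 : s ^ 2 = 1 - c ^ 2 := Real.sq_sqrt (by nlinarith)
  have hs0 : 0 < s := Real.sqrt_pos.2 (by nlinarith)
  have hst : √t * c ≤ s := by
    rw [hs]
    apply Real.le_sqrt_of_sq_le
    rw [mul_pow, Real.sq_sqrt ht0.le]
    exact hkey
  set m : ℝ := T * c / s with hm
  have hm0 : 0 < m := by positivity
  have hmle : m ≤ 2 * φ / √t := by
    rw [hm, div_le_div_iff₀ hs0 (Real.sqrt_pos.2 ht0)]
    calc T * c * √t = T * (√t * c) := by ring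
      _ ≤ 2 * φ * s := by gcongr
  have hφt : 2 * φ / √t ≤ 1 / 4 := by
    rw [div_le_iff₀ (Real.sqrt_pos.2 ht0)]
    have h1 : 2 * φ ≤ √t * √t := by rw [Real.mul_self_sqrt ht0.le]; exact ht
    have h2 : √(2 * φ) ≤ √t := Real.sqrt_le_sqrt ht
    have h3 : √(2 * φ) ≤ 1 / 4 := by
      rw [Real.sqrt_le_left (by norm_num)]
      linarith
    have h4 : 2 * φ = √(2 * φ) * √(2 * φ) := (Real.mul_self_sqrt (by linarith)).symm
    calc 2 * φ = √(2 * φ) * √(2 * φ) := h4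
      _ ≤ 1 / 4 * √t := by gcongr
  set α : ℝ := Real.arctan m with hα
  have hα0 : 0 < α := Real.arctan_pos.2 hm0
  have hαm : α ≤ m := by
    have h1 := Real.lt_tan hα0 (Real.arctan_lt_pi_div_two m)
    rw [hα, Real.tan_arctan] at h1
    exact h1.le
  set q : ℝ := √(1 + m ^ 2) with hq
  have hq2 : q ^ 2 = 1 + m ^ 2 := Real.sq_sqrt (by positivity)
  have hq0 : 0 < q := Real.sqrt_pos.2 (by positivity)
  have hcα : Real.cos α = 1 / q := Real.cos_arctan m
  have hsα : Real.sin α = m / q := Real.sin_arctan m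
  set β : ℝ := Real.arccos c with hβ
  have hcβ : Real.cos β = c := Real.cos_arccos (by linarith) hc1.le
  have hsβ : Real.sin β = s := Real.sin_arccos c
  set r2 : ℝ := (1 / q * c) ^ 2 + (m / q * s) ^ 2 with hr2
  have hms : m * s = T * c := by rw [hm]; field_simp
  have hr2e : r2 = c ^ 2 * (1 + T ^ 2) / q ^ 2 := by
    rw [hr2]
    have : m / q * s = T * c / q := by rw [div_mul_eq_mul_div, hms]
    rw [this]
    field_simp
  have hr20 : 0 < r2 := by rw [hr2e]; positivity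
  have hr21 : r2 ≤ 1 := by
    have h1 : (1 / q) ^ 2 + (m / q) ^ 2 = 1 := by
      rw [div_pow, div_pow, ← add_div, one_pow, hq2, div_self (by positivity)]
    have h2 : c ^ 2 ≤ 1 := by nlinarith
    have h3 : s ^ 2 ≤ 1 := by nlinarith
    rw [hr2, mul_pow, mul_pow]
    calc (1 / q) ^ 2 * c ^ 2 + (m / q) ^ 2 * s ^ 2 ≤ (1 / q) ^ 2 * 1 + (m / q) ^ 2 * 1 := by gcongr
      _ = 1 := by rw [mul_one, mul_one, h1]
  have hr2c : c ^ 4 ≤ r2 := by
    rw [hr2e, le_div_iff₀ (by positivity), hq2]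
    have h1 : c ^ 2 * (1 + m ^ 2) ≤ 1 + T ^ 2 := by
      have h2 : m ^ 2 * s ^ 2 = T ^ 2 * c ^ 2 := by rw [← mul_pow, hms, mul_pow]
      -- multiply by s^2
      have h3 : T * c ^ 2 ≤ s ^ 2 := by
        rw [hs2]
        calc T * c ^ 2 ≤ t * c ^ 2 := by gcongr
          _ ≤ _ := hkey
      have h4 : c ^ 2 * m ^ 2 * s ^ 2 ≤ (s ^ 2 + T ^ 2) * s ^ 2 := by
        calc c ^ 2 * m ^ 2 * s ^ 2 = (T * c ^ 2) * (T * c ^ 2) := by
              rw [mul_assoc, h2]; ring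
          _ ≤ s ^ 2 * s ^ 2 := by gcongr
          _ ≤ (s ^ 2 + T ^ 2) * s ^ 2 := by
            gcongr
            linarith [sq_nonneg T]
      have h5 : c ^ 2 * m ^ 2 ≤ s ^ 2 + T ^ 2 := le_of_mul_le_mul_right h4 (by positivity)
      rw [hs2] at h5
      linarith
    calc c ^ 4 * (1 + m ^ 2) = c ^ 2 * (c ^ 2 * (1 + m ^ 2)) := by ring
      _ ≤ c ^ 2 * (1 + T ^ 2) := by gcongr
  set r : ℝ := √r2 with hr
  have hr0 : 0 < r := Real.sqrt_pos.2 hr20
  have hrr : r ^ 2 = r2 := Real.sq_sqrt hr20.le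
  set t' : ℝ := -Real.log r with ht'
  have hexp : Real.exp (-t') = r := by rw [ht', neg_neg, Real.exp_log hr0]
  have hexp2 : Real.exp (-2 * t') = r2 := by
    have : Real.exp (-2 * t') = Real.exp (-t') ^ 2 := by
      rw [← Real.exp_nat_mul]; congr 1; push_cast; ring
    rw [this, hexp, hrr]
  have hr1 : r ≤ 1 := by
    rw [hr, Real.sqrt_le_left (by norm_num)]
    linarith
  have hcr : c ^ 2 ≤ r := by
    rw [hr]
    apply Real.le_sqrt_of_sq_le
    calc (c ^ 2) ^ 2 = c ^ 4 := by ring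
      _ ≤ r2 := hr2c
  have hsum : (1 / q * s) ^ 2 + (-(m / q * c)) ^ 2 = 1 - r2 := by
    rw [hr2]
    have h1 : (1 / q) ^ 2 + (m / q) ^ 2 = 1 := by
      rw [div_pow, div_pow, ← add_div, one_pow, hq2, div_self (by positivity)]
    have h2 : s ^ 2 + c ^ 2 = 1 := by rw [hs2]; ring
    have h3 : (1 / q * s) ^ 2 + (-(m / q * c)) ^ 2 + ((1 / q * c) ^ 2 + (m / q * s) ^ 2) =
        ((1 / q) ^ 2 + (m / q) ^ 2) * (s ^ 2 + c ^ 2) := by ring
    rw [h1, h2] at h3
    linarith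
  obtain ⟨ψ, hψ1, hψ2⟩ := polar (1 / q * s) (-(m / q * c))
  rw [hsum] at hψ1 hψ2
  have hTc : T * Real.cos φ = Real.sin φ := by rw [hT]; field_simp
  have hrc : r * Real.cos φ = 1 / q * c := by
    have h1 : (r * Real.cos φ) ^ 2 = (1 / q * c) ^ 2 := by
      rw [mul_pow, hrr, hr2e]
      have h2 : (1 + T ^ 2) * Real.cos φ ^ 2 = 1 := by
        have := Real.sin_sq_add_cos_sq φ
        rw [add_mul, one_mul, ← mul_pow, hTc]
        linarith
      calc c ^ 2 * (1 + T ^ 2) / q ^ 2 * Real.cos φ ^ 2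
          = c ^ 2 * ((1 + T ^ 2) * Real.cos φ ^ 2) / q ^ 2 := by ring
        _ = (1 / q * c) ^ 2 := by rw [h2]; ring
    have h3 : 0 ≤ r * Real.cos φ := by positivity
    have h4 : 0 ≤ 1 / q * c := by positivity
    exact (sq_eq_sq₀ h3 h4).1 h1
  have hrs : r * Real.sin φ = m / q * s := by
    calc r * Real.sin φ = T * (r * Real.cos φ) := by rw [← hTc]; ring
      _ = T * c / q := by rw [hrc]; ring
      _ = m * s / q := by rw [hms]
      _ = m / q * s := by ring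
  refine ⟨α, β, ψ, t', hα0, ?_, hαm.trans hmle, ?_, ?_, ?_, ?_, ?_, ?_⟩
  · linarith [hαm.trans hmle]
  · rw [ht']
    have := Real.log_nonpos hr0.le hr1
    linarith
  · rw [ht']
    have h1 : Real.log (c ^ 2) ≤ Real.log r := Real.log_le_log (by positivity) hcr
    rw [hc2, Real.log_exp] at h1
    linarith
  · rw [hcα, hcβ, hexp, hrc]
  · rw [hsα, hsβ, hexp, hrs]
  · rw [hcα, hsβ, hexp2]; exact hψ1
  · rw [hsα, hcβ, hexp2]; exact hψ2

end Pool.Agent.H970.DD
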