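import Pool.Graph.R_seed8.R876.WM.OPL
import Pool.Graph.R_seed8.R876.WM.OPS
import Pool.Graph.R_seed8.R876.WM.OPC
import Pool.Graph.R_seed8.R876.WM.OP
import Pool.Graph.R_seed8.R876.WM.BOP
import Pool.Graph.R_seed8.R876.WM.BRI
import Pool.Graph.R_seed8.R876.WM.OUL
import Pool.Graph.R_seed8.R876.WM.IPR
import Pool.Graph.R_seed8.R876.WM.TAY
import Pool.Graph.R_seed8.R876.WM.FD
import Pool.Graph.R_seed8.R876.WM.D2S
import Pool.Graph.R_seed8.R876.WM.LYA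
import Pool.Agent.H970.DD.Gau
import Pool.Agent.H970.DD.Par

/-! # The rotation group on `L^p` -/

set_option autoImplicit false

open MeasureTheory ProbabilityTheory Set Filter
open scoped ENNReal NNReal Topology

namespace Pool.Agent.H970.DD

open Pool.Agent.R876.WM

variable {Ω : Type} [NormedAddCommGroup Ω] [NormedSpace ℝ Ω] [MeasurableSpace Ω]

/-- the analytic facts on the Ornstein-Uhlenbeck semigroup which are used -/
structure Ctx (μ : Measure Ω) (A : Ω →L[ℝ] Ω) : Prop where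
  prob : IsProbabilityMeasure μ
  rot : IsRot μ A
  mp : S_MP μ
  opl : S_OPL ℝ μ
  pot : S_POT ℝ μ
  oul : S_OUL ℝ μ
  d2s : S_D2S ℝ μ

theorem ctx_of [CompleteSpace Ω] [SecondCountableTopology Ω] [BorelSpace Ω] (μ : Measure Ω)
    [IsGaussian μ] (hμ : ∀ L : StrongDual ℝ Ω, ∫ x, L x ∂μ = 0) {A : Ω →L[ℝ] Ω}
    (hA : IsRot μ A) : Ctx μ A := by
  have hMP : S_MP μ := mp_thm μ hμ
  have hOPL : S_OPL ℝ μ := opl_thm μ ℝ hMP
  have hOP : S_OP ℝ μ := op_thm μ ℝ hOPL (ops_thm μ ℝ hMP) (opc_thm μ ℝ hMP)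
  have hBRI : S_BRI ℝ μ := bri_thm μ ℝ hMP hOPL
  have hOUL : S_OUL ℝ μ := oul_thm μ ℝ hOP bop_thm hBRI
  have hPOT : S_POT ℝ μ := pot_thm μ ℝ hMP hOP bop_thm hBRI
  exact ⟨inferInstance, hA, hMP, hOPL, hPOT, hOUL,
    d2s_thm μ ℝ hMP hPOT hOUL (ipr_thm μ ℝ hMP) tay_thm fd_thm⟩

variable {μ : Measure Ω} {A : Ω →L[ℝ] Ω}

/-- composition with the rotation, as an operator on `L^p` -/
noncomputable def Cop (h : IsRot μ A) (p : ℝ≥0∞) [Fact (1 ≤ p)] (θ : ℝ) :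
    Lp ℝ p μ →L[ℝ] Lp ℝ p μ :=
  (Lp.compMeasurePreservingₗᵢ ℝ (Tr A θ) (h.mp θ)).toContinuousLinearMap

variable {p : ℝ≥0∞} [Fact (1 ≤ p)]

theorem Cop_ae (h : IsRot μ A) (θ : ℝ) (F : Lp ℝ p μ) :
    (Cop h p θ F : Ω → ℝ) =ᵐ[μ] fun x => F (Tr A θ x) :=
  Lp.coeFn_compMeasurePreserving F (h.mp θ)

theorem Cop_norm (h : IsRot μ A) (θ : ℝ) (F : Lp ℝ p μ) : ‖Cop h p θ F‖ = ‖F‖ :=
  Lp.norm_compMeasurePreserving F (h.mp θ)

theorem Cop_add (h : IsRot μ A) (s t : ℝ) (F : Lp ℝ p μ) :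
    Cop h p (s + t) F = Cop h p s (Cop h p t F) := by
  apply Lp.ext
  have h1 := Cop_ae h (s + t) F
  have h2 := Cop_ae h s (Cop h p t F)
  have h3 : (fun x => (Cop h p t F : Ω → ℝ) (Tr A s x)) =ᵐ[μ]
      fun x => F (Tr A t (Tr A s x)) :=
    (h.mp s).quasiMeasurePreserving.ae_eq_comp (Cop_ae h t F)
  filter_upwards [h1, h2, h3, Tr_add h s t] with x e1 e2 e3 e4
  rw [e1, e2, e3, e4]

theorem Cop_zero (h : IsRot μ A) (F : Lp ℝ p μ) : Cop h p 0 F = F := by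
  apply Lp.ext
  filter_upwards [Cop_ae h 0 F] with x hx
  rw [hx, Tr_zero, ContinuousLinearMap.id_apply]

theorem Cop_grp (h : IsRot μ A) : Grp (Cop h p) := by
  refine ⟨?_, ?_, ?_⟩
  · exact ContinuousLinearMap.ext fun F => Cop_zero h F
  · intro s t
    exact ContinuousLinearMap.ext fun F => Cop_add h s t F
  · intro t
    refine ContinuousLinearMap.opNorm_le_bound _ zero_le_one fun F => ?_
    rw [one_mul, Cop_norm h t F]

variable {T : ℝ → Lp ℝ p μ →L[ℝ] Lp ℝ p μ} {J : Lp ℝ p μ →L[ℝ] Lp ℝ p μ}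

theorem Cop_T [BorelSpace Ω] (h : IsRot μ A) (hO : OUL μ ℝ p T J) {t : ℝ} (ht : 0 ≤ t) (θ : ℝ)
    (F : Lp ℝ p μ) (hcg : ∀ f g : Ω → ℝ, f =ᵐ[μ] g → ou μ t f =ᵐ[μ] ou μ t g) :
    Cop h p θ (T t F) = T t (Cop h p θ F) := by
  apply Lp.ext
  have h1 := Cop_ae h θ (T t F)
  have h2 : (fun x => (T t F : Ω → ℝ) (Tr A θ x)) =ᵐ[μ] fun x => ou μ t F (Tr A θ x) :=
    (h.mp θ).quasiMeasurePreserving.ae_eq_comp (hO.ou_ae t ht F)
  have h3 := hO.ou_ae t ht (Cop h p θ F)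
  have h4 := hcg _ _ (Cop_ae h θ F)
  filter_upwards [h1, h2, h3, h4] with x e1 e2 e3 e4
  rw [e1, e2, e3, e4, ou_comp h (Lp.stronglyMeasurable F)]

theorem semi_int {X : Type*} [NormedAddCommGroup X] [NormedSpace ℝ X] {T : ℝ → X →L[ℝ] X}
    (hT : Semi T) (f : X) : IntegrableOn (fun t : ℝ => Real.exp (-t) • T t f) (Ioi 0) := by
  refine (SB.intg hT f 0).congr_fun (fun s hs => ?_) measurableSet_Ioi
  have : max s 0 = s := max_eq_left (le_of_lt hs)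
  simp only [this]

theorem Cop_J [BorelSpace Ω] (hC : Ctx μ A) (hO : OUL μ ℝ p T J) (hp : p ≠ ∞) (θ : ℝ)
    (F : Lp ℝ p μ) : Cop hC.rot p θ (J F) = J (Cop hC.rot p θ F) := by
  rw [hO.isJ F, hO.isJ (Cop hC.rot p θ F)]
  rw [← (Cop hC.rot p θ).integral_comp_comm (semi_int hO.semi F)]
  refine setIntegral_congr_fun measurableSet_Ioi fun s hs => ?_
  have hs' : (0 : ℝ) < s := hs
  simp only [map_smul]
  rw [Cop_T hC.rot hO hs'.le θ F (hC.opl p Fact.out hp s hs'.le).2.1]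

theorem Sd_T [BorelSpace Ω] (hC : Ctx μ A) (hO : OUL μ ℝ p T J) (hp : p ≠ ∞) (θ : ℝ)
    (F : Lp ℝ p μ) {t : ℝ} (ht : 0 ≤ t) :
    Sd (Cop hC.rot p) θ (T t F) = T t (Sd (Cop hC.rot p) θ F) := by
  rw [Sd_apply, Sd_apply, map_sub,
    Cop_T hC.rot hO ht θ F (hC.opl p Fact.out hp t ht).2.1]

theorem Sd_J [BorelSpace Ω] (hC : Ctx μ A) (hO : OUL μ ℝ p T J) (hp : p ≠ ∞) (θ : ℝ)
    (F : Lp ℝ p μ) : Sd (Cop hC.rot p) θ (J F) = J (Sd (Cop hC.rot p) θ F) := by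
  rw [Sd_apply, Sd_apply, map_sub, Cop_J hC hO hp]

/-- the first estimate in `L²` -/
theorem l2_step [BorelSpace Ω] [SecondCountableTopology Ω] (hC : Ctx μ A)
    {T : ℝ → Lp ℝ 2 μ →L[ℝ] Lp ℝ 2 μ} {J : Lp ℝ 2 μ →L[ℝ] Lp ℝ 2 μ} (hO : OUL μ ℝ 2 T J) :
    ∃ D : ℝ, 0 ≤ D ∧ ∀ φ t : ℝ, 0 < φ → φ ≤ 1 / 32 → 2 * φ ≤ t → ∀ U : Lp ℝ 2 μ,
      ‖Sd (Cop hC.rot 2) (2 * φ) (T t (J U))‖ ≤ D * (φ / √t) * ‖U‖ := by
  have := hC.prob
  obtain ⟨D, hD, hd⟩ := hC.d2s 1 le_rfl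
  refine ⟨4 * D, by positivity, fun φ t hφ0 hφ ht U => ?_⟩
  obtain ⟨α, β, ψ, t', hα0, hα1, hα2, ht'0, ht't, h1, h2, h3, h4⟩ := params hφ0 hφ ht
  set f : Ω → ℝ := (J U : Ω → ℝ) with hf
  have hfs : StronglyMeasurable f := Lp.stronglyMeasurable _
  have hfm : MemLp f 2 μ := Lp.memLp _
  have hfp : f =ᵐ[μ] pot μ (2 * 1) (U : Ω → ℝ) := by
    have := hO.pot_ae 1 U
    rwa [pow_one] at this
  have hd1 := hd (U : Ω → ℝ) f (Lp.memLp U) hfp (2 * α) (by positivity) (by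
    push_cast; linarith)
  have hk := key_ineq hC.rot hC.mp hfs (p := 2) (by norm_num) (by norm_num) hfm h1 h2 h3 h4 rfl rfl
  -- the operators
  have e1 : T t (J U) = T (t - t') (T t' (J U)) := by
    have := hO.semi.add (t - t') t' (by linarith) ht'0
    rw [sub_add_cancel] at this
    rw [this]; rfl
  rw [e1, Sd_T hC hO (by norm_num) _ _ (by linarith)]
  refine (SB.norm_T_le hO.semi (by linarith) _).trans ?_
  set G := T t' (J U) with hG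
  have e2 : Sd (Cop hC.rot 2) (2 * φ) G =
      Cop hC.rot 2 φ (Cop hC.rot 2 φ G - Cop hC.rot 2 (-φ) G) := by
    rw [Sd_apply, map_sub, ← Cop_add, ← Cop_add, add_neg_cancel, Cop_zero, two_mul]
  rw [e2, Cop_norm]
  have e3 : ((Cop hC.rot 2 φ G - Cop hC.rot 2 (-φ) G : Lp ℝ 2 μ) : Ω → ℝ) =ᵐ[μ]
      fun x => ou μ t' f (Tr A φ x) - ou μ t' f (Tr A (-φ) x) := by
    have a1 := Cop_ae hC.rot φ G
    have a2 := Cop_ae hC.rot (-φ) G
    have a3 : (fun x => (G : Ω → ℝ) (Tr A φ x)) =ᵐ[μ] fun x => ou μ t' f (Tr A φ x) :=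
      (hC.rot.mp φ).quasiMeasurePreserving.ae_eq_comp (hO.ou_ae t' ht'0 (J U))
    have a4 : (fun x => (G : Ω → ℝ) (Tr A (-φ) x)) =ᵐ[μ] fun x => ou μ t' f (Tr A (-φ) x) :=
      (hC.rot.mp (-φ)).quasiMeasurePreserving.ae_eq_comp (hO.ou_ae t' ht'0 (J U))
    filter_upwards [Lp.coeFn_sub (Cop hC.rot 2 φ G) (Cop hC.rot 2 (-φ) G), a1, a2, a3, a4] with
      x b0 b1 b2 b3 b4
    rw [b0, Pi.sub_apply, b1, b2, b3, b4]
  rw [Lp.norm_def, eLpNorm_congr_ae e3]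
  have e4 : eLpNorm (fun x => ou μ t' f (Tr A φ x) - ou μ t' f (Tr A (-φ) x)) 2 μ ≤
      ENNReal.ofReal (D * (2 * α) ^ 1) * eLpNorm U 2 μ := hk.trans hd1
  have e5 := ENNReal.toReal_mono (ENNReal.mul_ne_top ENNReal.ofReal_ne_top
    (Lp.eLpNorm_ne_top U)) e4
  rw [ENNReal.toReal_mul, ENNReal.toReal_ofReal (by positivity), ← Lp.norm_def] at e5
  refine e5.trans (mul_le_mul_of_nonneg_right ?_ (norm_nonneg _))
  calc D * (2 * α) ^ 1 = 2 * D * α := by ring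
    _ ≤ 2 * D * (2 * φ / √t) := by gcongr
    _ = 4 * D * (φ / √t) := by ring

theorem l2_J2_small [BorelSpace Ω] [SecondCountableTopology Ω] (hC : Ctx μ A)
    {T : ℝ → Lp ℝ 2 μ →L[ℝ] Lp ℝ 2 μ} {J : Lp ℝ 2 μ →L[ℝ] Lp ℝ 2 μ} (hO : OUL μ ℝ 2 T J) :
    ∃ D : ℝ, 0 ≤ D ∧ ∀ φ : ℝ, 0 < φ → φ ≤ 1 / 32 → ∀ U : Lp ℝ 2 μ,
      ‖Sd (Cop hC.rot 2) (2 * φ) (J (J U))‖ ≤ D * φ * ‖U‖ := by
  obtain ⟨D, hD, hd⟩ := l2_step hC hO
  refine ⟨4 + D * Real.Gamma (1 / 2), by positivity, fun φ hφ0 hφ U => ?_⟩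
  have hJ1 : ‖J U‖ ≤ ‖U‖ := by
    have := J.le_of_opNorm_le hO.norm_le U
    simpa using this
  rw [hO.isJ (J U), ← (Sd (Cop hC.rot 2) (2 * φ)).integral_comp_comm (semi_int hO.semi (J U))]
  set g : ℝ → ℝ := fun t => (Set.Iio (2 * φ)).indicator (fun _ => 2 * ‖U‖) t +
    D * φ * ‖U‖ * (Real.exp (-t) * t ^ ((1 / 2 : ℝ) - 1)) with hg
  have hi1 : IntegrableOn ((Set.Iio (2 * φ)).indicator (fun _ => 2 * ‖U‖)) (Ioi (0 : ℝ)) := by
    rw [integrableOn_indicator_iff measurableSet_Iio]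
    refine integrableOn_const (hs := ?_)
    have : Set.Iio (2 * φ) ∩ Ioi 0 = Ioo 0 (2 * φ) := by
      ext x; simp [and_comm]
    rw [this, Real.volume_Ioo]
    exact ENNReal.ofReal_ne_top
  have hi2 : IntegrableOn (fun t : ℝ => D * φ * ‖U‖ * (Real.exp (-t) * t ^ ((1 / 2 : ℝ) - 1)))
      (Ioi 0) := (Real.GammaIntegral_convergent (by norm_num)).const_mul _
  have hb : ∀ᵐ t ∂(volume.restrict (Ioi (0 : ℝ))),
      ‖Sd (Cop hC.rot 2) (2 * φ) (Real.exp (-t) • T t (J U))‖ ≤ g t := by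
    filter_upwards [ae_restrict_mem measurableSet_Ioi] with t ht
    have ht0 : (0 : ℝ) < t := ht
    have he : Real.exp (-t) ≤ 1 := Real.exp_le_one_iff.2 (by linarith)
    rw [map_smul, norm_smul, Real.norm_of_nonneg (Real.exp_pos _).le]
    by_cases h : t < 2 * φ
    · have e1 : ‖Sd (Cop hC.rot 2) (2 * φ) (T t (J U))‖ ≤ 2 * ‖U‖ := by
        calc _ ≤ ‖Sd (Cop hC.rot 2) (2 * φ)‖ * ‖T t (J U)‖ := ContinuousLinearMap.le_opNorm _ _
          _ ≤ 2 * ‖U‖ := by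
            gcongr
            · exact Sd_norm_le (Cop_grp hC.rot) _
            · exact (SB.norm_T_le hO.semi ht0.le _).trans hJ1
      have e2 : (Set.Iio (2 * φ)).indicator (fun _ => 2 * ‖U‖) t = 2 * ‖U‖ :=
        Set.indicator_of_mem (s := Set.Iio (2 * φ)) (a := t) h _
      have e3 : 0 ≤ D * φ * ‖U‖ * (Real.exp (-t) * t ^ ((1 / 2 : ℝ) - 1)) := by positivity
      simp only [hg, e2]
      calc Real.exp (-t) * ‖Sd (Cop hC.rot 2) (2 * φ) (T t (J U))‖ ≤ 1 * (2 * ‖U‖) := by gcongr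
        _ ≤ _ := by linarith
    · have h' : 2 * φ ≤ t := not_lt.1 h
      have e1 := hd φ t hφ0 hφ h' U
      have e2 : (Set.Iio (2 * φ)).indicator (fun _ => 2 * ‖U‖) t = 0 :=
        Set.indicator_of_notMem (s := Set.Iio (2 * φ)) (a := t) h _
      simp only [hg, e2, zero_add]
      have e3 : t ^ ((1 / 2 : ℝ) - 1) = 1 / √t := by
        have e4 : ((1 / 2 : ℝ) - 1) = -(1 / 2) := by norm_num
        rw [e4, Real.rpow_neg ht0.le, ← Real.sqrt_eq_rpow, one_div]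
      rw [e3]
      calc Real.exp (-t) * ‖Sd (Cop hC.rot 2) (2 * φ) (T t (J U))‖
          ≤ Real.exp (-t) * (D * (φ / √t) * ‖U‖) := by gcongr
        _ = _ := by ring
  refine (norm_integral_le_of_norm_le (hi1.add hi2) hb).trans (le_of_eq ?_)
  have e1 : ∫ t in Ioi (0 : ℝ), (Set.Iio (2 * φ)).indicator (fun _ => 2 * ‖U‖) t =
      4 * φ * ‖U‖ := by
    rw [setIntegral_indicator measurableSet_Iio, setIntegral_const]
    have : Ioi 0 ∩ Set.Iio (2 * φ) = Ioo 0 (2 * φ) := by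
      ext x; simp
    rw [this]
    simp only [measureReal_def, Real.volume_Ioo, sub_zero, smul_eq_mul]
    rw [ENNReal.toReal_ofReal (by linarith)]
    ring
  have e2 : ∫ t in Ioi (0 : ℝ), D * φ * ‖U‖ * (Real.exp (-t) * t ^ ((1 / 2 : ℝ) - 1)) =
      D * φ * ‖U‖ * Real.Gamma (1 / 2) := by
    rw [integral_const_mul, Real.Gamma_eq_integral (by norm_num)]
  have e3 : ∫ t in Ioi (0 : ℝ), g t = 4 * φ * ‖U‖ + D * φ * ‖U‖ * Real.Gamma (1 / 2) := by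
    rw [← e1, ← e2]
    exact integral_add hi1 hi2
  refine Eq.trans e3 ?_
  ring

theorem l2_J2 [BorelSpace Ω] [SecondCountableTopology Ω] (hC : Ctx μ A)
    {T : ℝ → Lp ℝ 2 μ →L[ℝ] Lp ℝ 2 μ} {J : Lp ℝ 2 μ →L[ℝ] Lp ℝ 2 μ} (hO : OUL μ ℝ 2 T J) :
    ∃ D : ℝ, 0 ≤ D ∧ ∀ θ : ℝ, 0 < θ → ∀ U : Lp ℝ 2 μ,
      ‖Sd (Cop hC.rot 2) θ (J (J U))‖ ≤ D * θ * ‖U‖ := by
  obtain ⟨D, hD, hd⟩ := l2_J2_small hC hO
  refine ⟨D + 32, by positivity, fun θ hθ0 U => ?_⟩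
  rcases le_or_gt θ (1 / 16) with h | h
  · have := hd (θ / 2) (by linarith) (by linarith) U
    rw [mul_div_cancel₀ θ (two_ne_zero)] at this
    refine this.trans ?_
    gcongr
    · linarith
    · linarith
  · have hJ1 : ∀ U, ‖J U‖ ≤ ‖U‖ := by
      intro U
      have := J.le_of_opNorm_le hO.norm_le U
      simpa using this
    calc _ ≤ ‖Sd (Cop hC.rot 2) θ‖ * ‖J (J U)‖ := ContinuousLinearMap.le_opNorm _ _
      _ ≤ 2 * ‖U‖ := by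
        gcongr
        · exact Sd_norm_le (Cop_grp hC.rot) _
        · exact (hJ1 _).trans (hJ1 _)
      _ ≤ (D + 32) * θ * ‖U‖ := by
        gcongr
        nlinarith

end Pool.Agent.H970.DD
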