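import Pool.Agent.H970.DD.Wie

/-! # The swap of the two halves of the path -/

set_option autoImplicit false

open MeasureTheory ProbabilityTheory Set Filter
open scoped ENNReal NNReal Topology

namespace Pool.Agent.H970.DD

open Pool.Agent.R876.WM

variable {n : ℕ}

theorem X_cont (ω : Om n) : Continuous (fun t : ℝ => X t ω) :=
  ω.continuous.comp continuous_projIcc

/-- the path `(A ω)(t) = ω(t + 1/2) - ω(1/2) - ω(t - 1/2) + ω(0)` (times are truncated to `[0,1]`):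
the increments over the first half are those of `ω` over the second half, the increments over
the second half are minus those of `ω` over the first half -/
noncomputable def swf (ω : Om n) : Om n where
  toFun t := X ((t : ℝ) + 1 / 2) ω - X (1 / 2) ω - X ((t : ℝ) - 1 / 2) ω + X 0 ω
  continuous_toFun := by
    have h := X_cont ω
    have h1 : Continuous fun t : Set.Icc (0 : ℝ) 1 => X ((t : ℝ) + 1 / 2) ω :=
      h.comp (continuous_subtype_val.add continuous_const)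
    have h2 : Continuous fun t : Set.Icc (0 : ℝ) 1 => X ((t : ℝ) - 1 / 2) ω :=
      h.comp (continuous_subtype_val.sub continuous_const)
    exact ((h1.sub continuous_const).sub h2).add continuous_const

theorem X_norm_le (t : ℝ) (ω : Om n) : ‖X t ω‖ ≤ ‖ω‖ := ω.norm_coe_le_norm _

theorem X_add (t : ℝ) (ω ω' : Om n) : X t (ω + ω') = X t ω + X t ω' := rfl

theorem X_smul (t : ℝ) (c : ℝ) (ω : Om n) : X t (c • ω) = c • X t ω := rfl

/-- the swap operator -/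
noncomputable def sw (n : ℕ) : Om n →L[ℝ] Om n :=
  LinearMap.mkContinuous
    { toFun := swf
      map_add' := fun ω ω' => by
        ext t : 1
        change X ((t : ℝ) + 1 / 2) (ω + ω') - X (1 / 2) (ω + ω') - X ((t : ℝ) - 1 / 2) (ω + ω') +
            X 0 (ω + ω') =
          (X ((t : ℝ) + 1 / 2) ω - X (1 / 2) ω - X ((t : ℝ) - 1 / 2) ω + X 0 ω) +
          (X ((t : ℝ) + 1 / 2) ω' - X (1 / 2) ω' - X ((t : ℝ) - 1 / 2) ω' + X 0 ω')
        simp only [X_add]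
        abel
      map_smul' := fun c ω => by
        ext t : 1
        change X ((t : ℝ) + 1 / 2) (c • ω) - X (1 / 2) (c • ω) - X ((t : ℝ) - 1 / 2) (c • ω) +
            X 0 (c • ω) =
          c • (X ((t : ℝ) + 1 / 2) ω - X (1 / 2) ω - X ((t : ℝ) - 1 / 2) ω + X 0 ω)
        simp only [X_smul]
        module } 4 (fun ω => by
        rw [ContinuousMap.norm_le _ (by positivity)]
        intro t
        change ‖X ((t : ℝ) + 1 / 2) ω - X (1 / 2) ω - X ((t : ℝ) - 1 / 2) ω + X 0 ω‖ ≤ _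
        calc _ ≤ ‖X ((t : ℝ) + 1 / 2) ω - X (1 / 2) ω - X ((t : ℝ) - 1 / 2) ω‖ + ‖X 0 ω‖ :=
              norm_add_le _ _
          _ ≤ (‖X ((t : ℝ) + 1 / 2) ω - X (1 / 2) ω‖ + ‖X ((t : ℝ) - 1 / 2) ω‖) + ‖X 0 ω‖ := by
              gcongr; exact norm_sub_le _ _
          _ ≤ ((‖X ((t : ℝ) + 1 / 2) ω‖ + ‖X (1 / 2) ω‖) + ‖X ((t : ℝ) - 1 / 2) ω‖) + ‖X 0 ω‖ := by
              gcongr; exact norm_sub_le _ _
          _ ≤ ((‖ω‖ + ‖ω‖) + ‖ω‖) + ‖ω‖ := by
              gcongr <;> exact X_norm_le _ _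
          _ = 4 * ‖ω‖ := by ring)

theorem X_sw {t : ℝ} (ht : t ∈ Icc (0 : ℝ) 1) (ω : Om n) :
    X t (sw n ω) = X (t + 1 / 2) ω - X (1 / 2) ω - X (t - 1 / 2) ω + X 0 ω := by
  change (swf ω) (Set.projIcc 0 1 zero_le_one t) = _
  rw [Set.projIcc_of_mem _ ht]
  rfl

theorem X_ge {t : ℝ} (ht : 1 ≤ t) (ω : Om n) : X t ω = X 1 ω := by
  rw [X_clamp t, X_clamp 1]
  congr 1
  rw [min_eq_left ht, min_self]

theorem X_le {t : ℝ} (ht : t ≤ 0) (ω : Om n) : X t ω = X 0 ω := by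
  rw [X_clamp t, X_clamp 0]
  congr 1
  rw [min_eq_right (by linarith), max_eq_left ht, min_eq_right (by norm_num), max_self]

theorem ext_X {ω ω' : Om n} (h : ∀ t ∈ Icc (0 : ℝ) 1, X t ω = X t ω') : ω = ω' := by
  ext t : 1
  have := h t t.2
  unfold X at this
  rwa [Set.projIcc_val] at this

theorem sw_sq {ω : Om n} (h0 : X 0 ω = 0) : sw n (sw n ω) = -ω := by
  refine ext_X fun t ht => ?_
  have hn : X t (-ω) = -X t ω := rfl
  rw [hn, X_sw ht]
  have e0 : X 0 (sw n ω) = 0 := by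
    rw [X_sw ⟨le_rfl, zero_le_one⟩, X_le (t := 0 - 1 / 2) (by norm_num), zero_add]
    simp
  have eh : X (1 / 2) (sw n ω) = X 1 ω - X (1 / 2) ω := by
    rw [X_sw ⟨by norm_num, by norm_num⟩, sub_self]
    norm_num
  rw [e0, eh]
  rcases le_total t (1 / 2) with h | h
  · have e1 : X (t - 1 / 2) (sw n ω) = 0 := by rw [X_le (by linarith), e0]
    rw [e1, X_sw (t := t + 1 / 2) ⟨by linarith [ht.1], by linarith⟩,
      X_ge (t := t + 1 / 2 + 1 / 2) (by linarith [ht.1]), add_sub_cancel_right, h0]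
    abel
  · have e1 : X (t + 1 / 2) (sw n ω) = X 1 (sw n ω) := X_ge (by linarith) _
    have e2 : X 1 (sw n ω) = X 1 ω - X (1 / 2) ω - X (1 / 2) ω := by
      rw [X_sw ⟨zero_le_one, le_rfl⟩, X_ge (t := 1 + 1 / 2) (by norm_num), h0, add_zero]
      norm_num
    rw [e1, e2, X_sw (t := t - 1 / 2) ⟨by linarith, by linarith [ht.2]⟩, sub_add_cancel,
      X_le (t := t - 1 / 2 - 1 / 2) (by linarith [ht.2]), h0]
    abel

variable {μ : Measure (Om n)}

theorem X_zero (hμ : IsW μ) : ∀ᵐ ω ∂μ, X 0 ω = 0 := by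
  have h1 : ∀ i : Fin n, ∀ᵐ ω ∂μ, (X 0 ω) i = 0 := by
    intro i
    have h2 := hμ.cov i i 0 0 le_rfl le_rfl zero_le_one
    rw [if_pos rfl] at h2
    have h3 : (fun ω : Om n => (X 0 ω) i * (X 0 ω) i) =ᵐ[μ] 0 :=
      (integral_eq_zero_iff_of_nonneg (fun ω => mul_self_nonneg _)
        (int_mul hμ (evi i 0) (evi i 0))).1 h2
    filter_upwards [h3] with ω hω
    exact mul_self_eq_zero.1 hω
  filter_upwards [ae_all_iff.2 h1] with ω hω
  ext i
  rw [hω i]
  rfl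

/-- the coefficients and times of `X t (Tr θ ω)` -/
noncomputable def cc (θ : ℝ) : Fin 5 → ℝ :=
  ![Real.cos θ, Real.sin θ, -Real.sin θ, -Real.sin θ, Real.sin θ]

noncomputable def tt (t : ℝ) : Fin 5 → ℝ :=
  ![t, min (t + 1 / 2) 1, 1 / 2, max (t - 1 / 2) 0, 0]

theorem tt_mem {t : ℝ} (ht : t ∈ Icc (0 : ℝ) 1) (k : Fin 5) : tt t k ∈ Icc (0 : ℝ) 1 := by
  obtain ⟨h0, h1⟩ := ht
  fin_cases k
  · exact ⟨h0, h1⟩
  · exact ⟨le_min (by linarith) (by norm_num), min_le_right _ _⟩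
  · exact ⟨by norm_num [tt], by norm_num [tt]⟩
  · exact ⟨le_max_right _ _, max_le (by linarith) (by norm_num)⟩
  · exact ⟨le_rfl, zero_le_one⟩

theorem X_Tr {t : ℝ} (ht : t ∈ Icc (0 : ℝ) 1) (θ : ℝ) (ω : Om n) (i : Fin n) :
    (X t (Tr (sw n) θ ω)) i = ∑ k, cc θ k * (X (tt t k) ω) i := by
  have h1 : X t (Tr (sw n) θ ω) = Real.cos θ • X t ω + Real.sin θ • X t (sw n ω) := rfl
  have h2 : X (t + 1 / 2) ω = X (min (t + 1 / 2) 1) ω := by
    rcases le_total (t + 1 / 2) 1 with h | h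
    · rw [min_eq_left h]
    · rw [min_eq_right h, X_ge h]
  have h3 : X (t - 1 / 2) ω = X (max (t - 1 / 2) 0) ω := by
    rcases le_total (t - 1 / 2) 0 with h | h
    · rw [max_eq_right h, X_le h]
    · rw [max_eq_left h]
  rw [h1, X_sw ht, h2, h3, Fin.sum_univ_five]
  simp only [cc, tt, PiLp.add_apply, PiLp.smul_apply, PiLp.sub_apply, smul_eq_mul,
    Matrix.cons_val]
  ring

theorem e12 {s t : ℝ} (hs : 0 ≤ s) (hst : s ≤ t) (ht : t ≤ 1) (s1 t1 s3 t3 : ℝ)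
    (h1 : s1 = min (s + 1 / 2) 1) (h2 : t1 = min (t + 1 / 2) 1) (h3 : s3 = max (s - 1 / 2) 0)
    (h4 : t3 = max (t - 1 / 2) 0) :
    (min s t1 - min s (1 / 2) - min s t3 + min s 0) +
      (min s1 t - min (1 / 2) t - min s3 t + min 0 t) = 0 := by
  grind

theorem e3 {s t : ℝ} (hs : 0 ≤ s) (hst : s ≤ t) (ht : t ≤ 1) (s1 t1 s3 t3 : ℝ)
    (h1 : s1 = min (s + 1 / 2) 1) (h2 : t1 = min (t + 1 / 2) 1) (h3 : s3 = max (s - 1 / 2) 0)
    (h4 : t3 = max (t - 1 / 2) 0) :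
    (min s1 t1 - min s1 (1 / 2) - min s1 t3) - (min (1 / 2) t1 - (1 / 2) - min (1 / 2) t3) -
      (min s3 t1 - min s3 (1 / 2) - min s3 t3) = s := by
  grind

theorem cov_id (θ : ℝ) {s t : ℝ} (hs : 0 ≤ s) (hst : s ≤ t) (ht : t ≤ 1) :
    ∑ k, ∑ l, cc θ k * cc θ l * min (tt s k) (tt t l) = s := by
  have h5 := Real.sin_sq_add_cos_sq θ
  simp only [Fin.sum_univ_five, cc, tt, Matrix.cons_val]
  obtain ⟨s1, hs1⟩ : ∃ x, x = min (s + 1 / 2) 1 := ⟨_, rfl⟩
  obtain ⟨t1, ht1⟩ : ∃ x, x = min (t + 1 / 2) 1 := ⟨_, rfl⟩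
  obtain ⟨s3, hs3⟩ : ∃ x, x = max (s - 1 / 2) 0 := ⟨_, rfl⟩
  obtain ⟨t3, ht3⟩ : ∃ x, x = max (t - 1 / 2) 0 := ⟨_, rfl⟩
  have a1 := e12 hs hst ht s1 t1 s3 t3 hs1 ht1 hs3 ht3
  have a2 := e3 hs hst ht s1 t1 s3 t3 hs1 ht1 hs3 ht3
  rw [← hs1, ← ht1, ← hs3, ← ht3]
  have p1 : 0 ≤ s1 := by rw [hs1]; exact le_min (by linarith) zero_le_one
  have p2 : 0 ≤ t1 := by rw [ht1]; exact le_min (by linarith) zero_le_one
  have p3 : 0 ≤ s3 := by rw [hs3]; exact le_max_right _ _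
  have p4 : 0 ≤ t3 := by rw [ht3]; exact le_max_right _ _
  have p5 : 0 ≤ t := hs.trans hst
  rw [min_eq_right hs, min_eq_left p5] at a1
  rw [min_eq_left hst, min_eq_right hs, min_eq_left p5, min_eq_right p1, min_eq_left p2,
    min_eq_right (show (0 : ℝ) ≤ 1 / 2 by norm_num), min_eq_left (show (0 : ℝ) ≤ 1 / 2 by norm_num),
    min_eq_right p3, min_eq_left p4, min_self, min_self]
  linear_combination (Real.cos θ * Real.sin θ) * a1 + Real.sin θ ^ 2 * a2 + s * h5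

/-- the rotated measure is the Wiener measure -/
theorem isW_map (hμ : IsW μ) (θ : ℝ) : IsW (μ.map (Tr (sw n) θ)) := by
  have := hμ.gauss
  refine ⟨inferInstance, fun L => ?_, fun i j s t hs hst ht => ?_⟩
  · rw [integral_map (by fun_prop) (by fun_prop)]
    exact hμ.mean (L.comp (Tr (sw n) θ))
  · have hX : ∀ (t : ℝ) (i : Fin n), Measurable fun ω : Om n => (X t ω) i := fun t i =>
      (evi i t).continuous.measurable
    have hm : AEStronglyMeasurable (fun ω : Om n => (X s ω) i * (X t ω) j)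
        (μ.map (Tr (sw n) θ)) := ((hX s i).mul (hX t j)).aestronglyMeasurable
    unfold covW
    rw [integral_map (by fun_prop) hm]
    have hs' : s ∈ Icc (0 : ℝ) 1 := ⟨hs, hst.trans ht⟩
    have ht' : t ∈ Icc (0 : ℝ) 1 := ⟨hs.trans hst, ht⟩
    simp_rw [X_Tr hs', X_Tr ht']
    rw [cov_comb hμ (cc θ) (cc θ) (fun _ => i) (fun _ => j) (tt s) (tt t) (tt_mem hs')
      (tt_mem ht')]
    by_cases hij : i = j
    · simp only [if_pos hij]
      exact cov_id θ hs hst ht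
    · simp only [if_neg hij, mul_zero, Finset.sum_const_zero]

theorem isRot_sw (hμ : IsW μ) : IsRot μ (sw n) where
  mp θ := ⟨(Tr (sw n) θ).continuous.measurable, uniq (isW_map hμ θ) hμ⟩
  sq := by
    filter_upwards [X_zero hμ] with ω hω
    exact sw_sq hω

end Pool.Agent.H970.DD
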